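import Pool.Agent.Helper20.SF.Piece

/-!
# SF geometry 8: explicit constants
-/

set_option autoImplicit false

namespace SFg

/-- the radius -/
def Rr : ℕ → ℕ
  | 0 => 4096
  | m + 1 => 2 ^ (2 * m + 26) * Rr m

/-- the separation -/
def Kk (m : ℕ) : ℕ := 2 ^ (2 * m + 20) * Rr m

/-- the size of the piece -/
def Ll : ℕ → ℕ
  | 0 => 1024
  | m + 1 => 16 * Kk m

theorem rr_ll (n : ℕ) : Rr n = 4 * Ll n := by
  cases n with
  | zero => rfl
  | succ m =>
    rw [Rr, Ll, Kk, show 2 * m + 26 = (2 * m + 20) + 6 by ring, pow_add]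
    ring

theorem rr_ge (n : ℕ) : 4096 ≤ Rr n := by
  induction n with
  | zero => exact le_rfl
  | succ m ih =>
    rw [Rr]
    have : 1 ≤ 2 ^ (2 * m + 26) := Nat.one_le_two_pow
    nlinarith

theorem gp : Gp Rr Kk where
  r0 m := by
    have := rr_ge m
    omega
  k0 m := by
    unfold Dm Em Cm Am Kk
    have h : 64 * (4 * (2 ^ (m + 3) * (64 * (2 ^ (m + 3) * Rr m)))) = 2 ^ (2 * m + 20) * Rr m := by
      rw [show 2 * m + 20 = (m + 3) + (m + 3) + 14 by ring, pow_add, pow_add]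
      ring
    rw [h]
  g0 m := by
    have h : Rr (m + 1) = 64 * Kk m := by
      rw [Rr, Kk, show 2 * m + 26 = (2 * m + 20) + 6 by ring, pow_add]
      ring
    omega

theorem ll_ge (n : ℕ) : 1024 ≤ Ll n := by
  have h1 := rr_ge n
  have h2 := rr_ll n
  omega

theorem ll_k (n m : ℕ) (h : m < n) : 16 * Kk m ≤ Ll n := by
  obtain ⟨n', rfl⟩ : ∃ n', n = n' + 1 := ⟨n - 1, by omega⟩
  rw [Ll]
  rcases Nat.lt_succ_iff_lt_or_eq.1 h with h1 | h1
  · have := k_mono gp h1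
    omega
  · rw [h1]

/-- One piece of level `n`, with explicit constants (`Rr n = 4 * Ll n`). -/
theorem exists_piece' {J : Type} {n : ℕ} {lv : J → ℕ} {X Y : J → ℤ} {Q : J → Set (ℤ × ℤ)}
    (h : Inp Rr Kk n lv X Y Q) (c : ℤ × ℤ) :
    ∃ yt yb s t G G', Piece Rr lv X Y Q (Ll n) c yt yb s t G G' :=
  exists_piece gp h (fun m hm => ll_k n m hm) (ll_ge n) c

end SFg
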