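import Pool.Agent.Helper20.SF.Push

/-!
# SF geometry 3: making a Lipschitz function constant on sparse blobs
-/

set_option autoImplicit false

namespace SFg

/-- the distance in the plane -/
def d1 (p q : ℤ × ℤ) : ℝ := |(p.1 : ℝ) - q.1| + |(p.2 : ℝ) - q.2|

theorem d1_tri (p q r : ℤ × ℤ) : d1 p r ≤ d1 p q + d1 q r := by
  unfold d1
  have h1 := abs_sub_le (p.1 : ℝ) q.1 r.1
  have h2 := abs_sub_le (p.2 : ℝ) q.2 r.2
  linarith

theorem d1_comm (p q : ℤ × ℤ) : d1 p q = d1 q p := by
  unfold d1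
  rw [abs_sub_comm (p.1 : ℝ), abs_sub_comm (p.2 : ℝ)]

theorem d1_nonneg (p q : ℤ × ℤ) : 0 ≤ d1 p q := by
  unfold d1
  positivity

/-- Lipschitz functions on the plane -/
def Lp (lam : ℝ) (F : ℤ × ℤ → ℝ) : Prop := ∀ p q, F p ≤ F q + lam * d1 p q

section

variable {J : Type} (lv : J → ℕ) (z : J → ℤ × ℤ)

open Classical in
/-- the lower cones -/
noncomputable def upc (m : ℕ) (lam r : ℝ) (F : ℤ × ℤ → ℝ) (p : ℤ × ℤ) : Option J → ℝ
  | none => F p
  | some j => if lv j = m then F (z j) - lam * max 0 (d1 p (z j) - r) else F p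

/-- the maximum with the lower cones -/
noncomputable def mx (m : ℕ) (lam r : ℝ) (F : ℤ × ℤ → ℝ) (p : ℤ × ℤ) : ℝ :=
  ⨆ o, upc lv z m lam r F p o

open Classical in
/-- the upper cones -/
noncomputable def loc (m : ℕ) (lam r : ℝ) (F : ℤ × ℤ → ℝ) (p : ℤ × ℤ) : Option J → ℝ
  | none => mx lv z m lam r F p
  | some j => if lv j = m then F (z j) + lam * max 0 (d1 p (z j) - r) else mx lv z m lam r F p

/-- the clamped function -/
noncomputable def clamp (m : ℕ) (lam r : ℝ) (F : ℤ × ℤ → ℝ) (p : ℤ × ℤ) : ℝ :=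
  ⨅ o, loc lv z m lam r F p o

variable {lv z} {m : ℕ} {lam lam' r : ℝ} {F : ℤ × ℤ → ℝ}

open Classical in
theorem upc_some (p : ℤ × ℤ) (j : J) : upc lv z m lam r F p (some j) =
    if lv j = m then F (z j) - lam * max 0 (d1 p (z j) - r) else F p := rfl

theorem upc_none (p : ℤ × ℤ) : upc lv z m lam r F p none = F p := rfl

open Classical in
theorem loc_some (p : ℤ × ℤ) (j : J) : loc lv z m lam r F p (some j) =
    if lv j = m then F (z j) + lam * max 0 (d1 p (z j) - r) else mx lv z m lam r F p := rfl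

theorem loc_none (p : ℤ × ℤ) : loc lv z m lam r F p none = mx lv z m lam r F p := rfl

theorem cone_lip (h0 : 0 ≤ lam') (p q w : ℤ × ℤ) :
    lam' * max 0 (d1 p w - r) ≤ lam' * max 0 (d1 q w - r) + lam' * d1 p q := by
  rw [← mul_add]
  refine mul_le_mul_of_nonneg_left (max_le ?_ ?_) h0
  · have := le_max_left 0 (d1 q w - r)
    have := d1_nonneg p q
    linarith
  · have := le_max_right 0 (d1 q w - r)
    have := d1_tri p q w
    linarith

theorem cone_val (h0 : 0 ≤ lam') (hl : lam ≤ lam') (hF : Lp lam F) (p w : ℤ × ℤ) :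
    F w - lam' * max 0 (d1 p w - r) ≤ F p + lam' * r - (lam' - lam) * d1 p w ∧
      F p - lam' * r + (lam' - lam) * d1 p w ≤ F w + lam' * max 0 (d1 p w - r) := by
  have h1 := mul_le_mul_of_nonneg_left (le_max_right 0 (d1 p w - r)) h0
  have h2 := hF p w
  have h3 := hF w p
  rw [d1_comm w p] at h3
  constructor <;> nlinarith

theorem upc_le (h0 : 0 ≤ lam') (hl : lam ≤ lam') (hr : 0 ≤ r) (hF : Lp lam F) (p : ℤ × ℤ)
    (o : Option J) : upc lv z m lam' r F p o ≤ F p + lam' * r := by
  have hr' := mul_nonneg h0 hr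
  rcases o with _ | j
  · rw [upc_none]
    linarith
  · rw [upc_some]
    split_ifs
    · have h1 := (cone_val (r := r) h0 hl hF p (z j)).1
      have h2 := mul_nonneg (sub_nonneg.2 hl) (d1_nonneg p (z j))
      linarith
    · linarith

theorem upc_bdd (h0 : 0 ≤ lam') (hl : lam ≤ lam') (hr : 0 ≤ r) (hF : Lp lam F) (p : ℤ × ℤ) :
    BddAbove (Set.range (upc lv z m lam' r F p)) :=
  ⟨F p + lam' * r, by
    rintro _ ⟨o, rfl⟩
    exact upc_le h0 hl hr hF p o⟩

theorem mx_ge (h0 : 0 ≤ lam') (hl : lam ≤ lam') (hr : 0 ≤ r) (hF : Lp lam F) (p : ℤ × ℤ)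
    (o : Option J) : upc lv z m lam' r F p o ≤ mx lv z m lam' r F p :=
  le_ciSup (upc_bdd h0 hl hr hF p) o

theorem mx_lip (h0 : 0 ≤ lam') (hl : lam ≤ lam') (hr : 0 ≤ r) (hF : Lp lam F) :
    Lp lam' (mx lv z m lam' r F) := by
  intro p q
  refine sup_le_add (upc_bdd h0 hl hr hF q) fun o => ?_
  have h1 : F p ≤ F q + lam' * d1 p q := (hF p q).trans (by
    have := mul_le_mul_of_nonneg_right hl (d1_nonneg p q)
    linarith)
  rcases o with _ | j
  · exact h1
  · rw [upc_some, upc_some]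
    split_ifs
    · have := cone_lip (r := r) h0 q p (z j)
      rw [d1_comm q p] at this
      linarith
    · exact h1

theorem loc_ge (h0 : 0 ≤ lam') (hl : lam ≤ lam') (hr : 0 ≤ r) (hF : Lp lam F) (p : ℤ × ℤ)
    (o : Option J) : F p - lam' * r ≤ loc lv z m lam' r F p o := by
  have hr' := mul_nonneg h0 hr
  have h2 : F p ≤ mx lv z m lam' r F p := mx_ge (lv := lv) (z := z) (m := m) h0 hl hr hF p none
  rcases o with _ | j
  · rw [loc_none]
    linarith
  · rw [loc_some]
    split_ifs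
    · have h1 := (cone_val (r := r) h0 hl hF p (z j)).2
      have h3 := mul_nonneg (sub_nonneg.2 hl) (d1_nonneg p (z j))
      linarith
    · linarith

theorem loc_bdd (h0 : 0 ≤ lam') (hl : lam ≤ lam') (hr : 0 ≤ r) (hF : Lp lam F) (p : ℤ × ℤ) :
    BddBelow (Set.range (loc lv z m lam' r F p)) :=
  ⟨F p - lam' * r, by
    rintro _ ⟨o, rfl⟩
    exact loc_ge h0 hl hr hF p o⟩

theorem clamp_lip (h0 : 0 ≤ lam') (hl : lam ≤ lam') (hr : 0 ≤ r) (hF : Lp lam F) :
    Lp lam' (clamp lv z m lam' r F) := by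
  intro p q
  refine inf_le_add (loc_bdd h0 hl hr hF p) fun o => ?_
  have h1 := mx_lip (lv := lv) (z := z) (m := m) h0 hl hr hF p q
  rcases o with _ | j
  · exact h1
  · rw [loc_some, loc_some]
    split_ifs
    · have := cone_lip (r := r) h0 p q (z j)
      linarith
    · exact h1

/-- the clamped function is constant on the blobs -/
theorem clamp_const (h0 : 0 ≤ lam') (hl : lam ≤ lam') (hr : 0 ≤ r) (hF : Lp lam F)
    (hsep : ∀ i j, lv i = m → lv j = m → i ≠ j → 2 * (lam' * r) ≤ (lam' - lam) * d1 (z i) (z j))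
    {j : J} (hj : lv j = m) {p : ℤ × ℤ} (hp : d1 p (z j) ≤ r) :
    clamp lv z m lam' r F p = F (z j) := by
  have hmax : max 0 (d1 p (z j) - r) = 0 := max_eq_left (by linarith)
  have hm : F (z j) ≤ mx lv z m lam' r F p := by
    have := mx_ge (lv := lv) (z := z) (m := m) h0 hl hr hF p (some j)
    rwa [upc_some, if_pos hj, hmax, mul_zero, sub_zero] at this
  apply le_antisymm
  · have := ciInf_le (loc_bdd (lv := lv) (z := z) (m := m) h0 hl hr hF p) (some j)
    rw [loc_some, if_pos hj, hmax, mul_zero, add_zero] at this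
    exact this
  · refine le_ciInf fun o => ?_
    rcases o with _ | i
    · exact hm
    · rw [loc_some]
      split_ifs with hi
      · by_cases hij : i = j
        · rw [hij, hmax, mul_zero, add_zero]
        · have h1 := hsep i j hi hj hij
          have h2 := hF (z j) (z i)
          have h3 := mul_le_mul_of_nonneg_left (le_max_right 0 (d1 p (z i) - r)) h0
          have h4 := d1_tri (z i) p (z j)
          rw [d1_comm (z i) p] at h4
          rw [d1_comm (z j) (z i)] at h2
          have h5 : lam' * (d1 (z i) (z j) - 2 * r) ≤ lam' * (d1 p (z i) - r) :=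
            mul_le_mul_of_nonneg_left (by linarith) h0
          nlinarith
      · exact hm

/-- the clamp is local -/
theorem clamp_loc (h0 : 0 ≤ lam') (hl : lam ≤ lam') (hr : 0 ≤ r) (hF : Lp lam F) {p : ℤ × ℤ}
    (h : ∀ j, lv j = m → lam' * r ≤ (lam' - lam) * d1 p (z j)) :
    clamp lv z m lam' r F p = F p := by
  have hm : mx lv z m lam' r F p = F p := by
    refine le_antisymm (ciSup_le fun o => ?_)
      (mx_ge (lv := lv) (z := z) (m := m) h0 hl hr hF p none)
    rcases o with _ | j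
    · exact le_rfl
    · rw [upc_some]
      split_ifs with hj
      · have h1 := (cone_val (r := r) h0 hl hF p (z j)).1
        have h2 := h j hj
        linarith
      · exact le_rfl
  apply le_antisymm
  · have := ciInf_le (loc_bdd (lv := lv) (z := z) (m := m) h0 hl hr hF p) none
    rw [loc_none, hm] at this
    exact this
  · refine le_ciInf fun o => ?_
    rcases o with _ | j
    · rw [loc_none, hm]
    · rw [loc_some]
      split_ifs with hj
      · have h1 := (cone_val (r := r) h0 hl hF p (z j)).2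
        have h2 := h j hj
        linarith
      · rw [hm]

end

/-- all levels -/
theorem clamps {J : Type} (lv : J → ℕ) (z : J → ℤ × ℤ) (r δ : ℕ → ℝ) (hr : ∀ m, 0 ≤ r m)
    (hδ : ∀ m, 0 ≤ δ m) (Q : J → Set (ℤ × ℤ)) (hQ : ∀ j, ∀ p ∈ Q j, d1 p (z j) ≤ r (lv j))
    (hsep : ∀ i j, lv i = lv j → i ≠ j → 2 * r (lv i) ≤ δ (lv i) * d1 (z i) (z j))
    (hsep2 : ∀ i j, lv i < lv j → ∀ p ∈ Q j, r (lv i) ≤ δ (lv i) * d1 p (z i)) (n : ℕ) :
    ∀ (F : ℤ × ℤ → ℝ) (lam : ℝ), 0 ≤ lam → Lp lam F → lam + ∑ m ∈ Finset.range n, δ m ≤ 1 →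
      ∃ F' : ℤ × ℤ → ℝ, Lp (lam + ∑ m ∈ Finset.range n, δ m) F' ∧
        (∀ j, lv j < n → ∀ p ∈ Q j, ∀ q ∈ Q j, F' p = F' q) ∧
        ∀ p, (∀ j, lv j < n → r (lv j) ≤ δ (lv j) * d1 p (z j)) → F' p = F p := by
  induction n with
  | zero =>
    intro F lam _ hF _
    exact ⟨F, by simpa using hF, fun j hj => absurd hj (Nat.not_lt_zero _), fun p _ => rfl⟩
  | succ n ih =>
    intro F lam h0 hF h1
    rw [Finset.sum_range_succ] at h1
    have hsum : 0 ≤ ∑ m ∈ Finset.range n, δ m := Finset.sum_nonneg fun m _ => hδ m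
    have hδn := hδ n
    have hrn := hr n
    have hl : lam ≤ lam + δ n := by linarith
    have h0' : 0 ≤ lam + δ n := by linarith
    have hle1 : (lam + δ n) * r n ≤ r n := by
      have := mul_le_mul_of_nonneg_right (show lam + δ n ≤ 1 by linarith) hrn
      linarith
    have hsub : lam + δ n - lam = δ n := by ring
    obtain ⟨F', q1, q2, q3⟩ := ih (clamp lv z n (lam + δ n) (r n) F) (lam + δ n) h0'
      (clamp_lip h0' hl hrn hF) (by linarith)
    have hcl : ∀ j, lv j = n → ∀ p ∈ Q j, clamp lv z n (lam + δ n) (r n) F p = F (z j) := by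
      intro j hj p hp
      refine clamp_const h0' hl hrn hF (fun i j hi hj hij => ?_) hj (by
        have := hQ j p hp
        rwa [hj] at this)
      have := hsep i j (by rw [hi, hj]) hij
      rw [hi] at this
      rw [hsub]
      linarith
    refine ⟨F', ?_, fun j hj p hp q hq => ?_, fun p hp => ?_⟩
    · rw [Finset.sum_range_succ, add_comm (∑ m ∈ Finset.range n, δ m), ← add_assoc]
      exact q1
    · rcases Nat.lt_succ_iff_lt_or_eq.1 hj with hj' | hj'
      · exact q2 j hj' p hp q hq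
      · have hpr : ∀ p ∈ Q j, F' p = F (z j) := by
          intro p hp
          rw [q3 p fun i hi => hsep2 i j (by omega) p hp, hcl j hj' p hp]
        rw [hpr p hp, hpr q hq]
    · rw [q3 p fun j hj => hp j (by omega)]
      refine clamp_loc h0' hl hrn hF fun j hj => ?_
      have := hp j (by omega)
      rw [hj] at this
      rw [hsub]
      linarith

end SFg
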