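import Mathlib

/-!
# SF geometry 5: the constants

Levels `m = 0, 1, ...`; `R m`: radius of the blobs of level `m`, `K m`: their distance.
-/

set_option autoImplicit false

namespace SFg

/-- the free radius around a blob -/
def Am (R : ℕ → ℕ) (m : ℕ) : ℕ := 2 ^ (m + 3) * R m

/-- the size of the cones -/
def Cm (R : ℕ → ℕ) (m : ℕ) : ℕ := 64 * Am R m

/-- the range of the cones -/
def Em (R : ℕ → ℕ) (m : ℕ) : ℕ := 2 ^ (m + 3) * Cm R m

/-- the free radius around the tips -/
def Dm (R : ℕ → ℕ) (m : ℕ) : ℕ := 4 * Em R m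

/-- the constants grow fast -/
structure Gp (R K : ℕ → ℕ) : Prop where
  r0 : ∀ m, 8 ≤ R m
  k0 : ∀ m, 64 * Dm R m ≤ K m
  g0 : ∀ m, 16 * K m ≤ R (m + 1)

variable {R K : ℕ → ℕ}

theorem am_ge (h : Gp R K) (m : ℕ) : 64 ≤ Am R m := by
  have h1 := h.r0 m
  have h2 : 8 ≤ 2 ^ (m + 3) := by
    have := Nat.pow_le_pow_right (n := 2) (by norm_num) (show 3 ≤ m + 3 by omega)
    simpa using this
  unfold Am
  nlinarith

theorem em_ge (m : ℕ) : 8 * Cm R m ≤ Em R m := by
  have h2 : 8 ≤ 2 ^ (m + 3) := by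
    have := Nat.pow_le_pow_right (n := 2) (by norm_num) (show 3 ≤ m + 3 by omega)
    simpa using this
  unfold Em
  exact Nat.mul_le_mul_right _ h2

theorem k_ge (h : Gp R K) (m : ℕ) : 256 * Em R m ≤ K m := by
  have := h.k0 m
  unfold Dm at this
  omega

theorem k_ge' (h : Gp R K) (m : ℕ) : 2048 * Cm R m ≤ K m := by
  have h1 := k_ge h m
  have h2 := em_ge (R := R) m
  omega

theorem r_le_a (m : ℕ) : 8 * R m ≤ Am R m := by
  have h2 : 8 ≤ 2 ^ (m + 3) := by
    have := Nat.pow_le_pow_right (n := 2) (by norm_num) (show 3 ≤ m + 3 by omega)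
    simpa using this
  exact Nat.mul_le_mul_right _ h2

theorem k_succ (h : Gp R K) (m : ℕ) : 16 * K m ≤ K (m + 1) := by
  have h1 := h.g0 m
  have h2 := k_ge' h (m + 1)
  have h3 := r_le_a (R := R) (m + 1)
  unfold Cm at h2
  omega

theorem k_mono (h : Gp R K) {m m' : ℕ} (hm : m < m') : 16 * K m ≤ K m' := by
  induction m', hm using Nat.le_induction with
  | base => exact k_succ h m
  | succ k _ ih =>
    have := k_succ h k
    omega

theorem c_succ (h : Gp R K) (m : ℕ) : 17 * Cm R m ≤ Cm R (m + 1) := by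
  have h1 := h.g0 m
  have h2 := k_ge' h m
  have h3 := r_le_a (R := R) (m + 1)
  unfold Cm at *
  omega

theorem a_mono (h : Gp R K) {m m' : ℕ} (hm : m ≤ m') : Am R m ≤ Am R m' := by
  induction m', hm using Nat.le_induction with
  | base => exact le_rfl
  | succ k _ ih =>
    have := c_succ h k
    unfold Cm at this
    omega

theorem sum_c (h : Gp R K) (k : ℕ) : 8 * ∑ m ∈ Finset.range k, 2 * Cm R m ≤ Cm R k := by
  induction k with
  | zero => simp
  | succ k ih =>
    rw [Finset.sum_range_succ]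
    have := c_succ h k
    omega

theorem sum_half (n : ℕ) : ∑ m ∈ Finset.range n, (1 / 2 : ℝ) ^ (m + 2) ≤ 1 / 2 := by
  have h : ∀ n : ℕ, ∑ m ∈ Finset.range n, (1 / 2 : ℝ) ^ (m + 2) = 1 / 2 - (1 / 2) ^ (n + 1) := by
    intro n
    induction n with
    | zero => norm_num
    | succ n ih =>
      rw [Finset.sum_range_succ, ih]
      ring
  rw [h]
  have : (0 : ℝ) ≤ (1 / 2) ^ (n + 1) := by positivity
  linarith

end SFg
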