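import Pool.Agent.Helper20.SF.Walls
import Pool.Agent.Helper20.SF.Clamp
import Pool.Agent.Helper20.SF.Par

/-!
# SF geometry 6: one wall and its function
-/

set_option autoImplicit false

namespace SFg

/-- the distance to the nearer tip row -/
def hh (yt yb y : ℤ) : ℤ := min (yt - y) (y - yb)

theorem hh_lip (yt yb y y' : ℤ) : ((hh yt yb y : ℤ) : ℝ) ≤ hh yt yb y' + |(y : ℝ) - y'| := by
  have h : hh yt yb y ≤ hh yt yb y' + |y - y'| := by
    unfold hh
    have h1 := le_abs_self (y - y')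
    have h2 := neg_abs_le (y - y')
    omega
  have h3 : ((hh yt yb y : ℤ) : ℝ) ≤ ((hh yt yb y' + |y - y'| : ℤ) : ℝ) := by exact_mod_cast h
  rw [Int.cast_add, Int.cast_abs, Int.cast_sub] at h3
  exact h3

/-- the start wall -/
noncomputable def s0 (c1 yt yb : ℤ) (y : ℤ) : ℝ := c1 - (hh yt yb y : ℝ) / 2

theorem s0_lz (c1 yt yb : ℤ) : Lz (1 / 2) (s0 c1 yt yb) := by
  intro y y'
  have := hh_lip yt yb y' y
  rw [abs_sub_comm] at this
  unfold s0
  linarith

/-- the start function -/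
noncomputable def Phi (yt yb : ℤ) (M : ℕ) (s : ℤ → ℝ) (p : ℤ × ℤ) : ℝ :=
  max 0 ((hh yt yb p.2 : ℝ) / M - 1 / 4 * max 0 ((p.1 : ℝ) - s p.2 - 3))

theorem Phi_lp (yt yb : ℤ) {M : ℕ} (hM : 4 ≤ M) {s : ℤ → ℝ} (hs : Lz 1 s) :
    Lp (1 / 2) (Phi yt yb M s) := by
  intro p q
  have hM' : (4 : ℝ) ≤ M := by exact_mod_cast hM
  have hM0 : (0 : ℝ) < M := by linarith
  have hd := d1_nonneg p q
  unfold Phi
  refine max_le ?_ ?_
  · have := le_max_left 0 ((hh yt yb q.2 : ℝ) / M - 1 / 4 * max 0 ((q.1 : ℝ) - s q.2 - 3))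
    linarith
  · have h1 := le_max_right 0 ((hh yt yb q.2 : ℝ) / M - 1 / 4 * max 0 ((q.1 : ℝ) - s q.2 - 3))
    have h2 := hh_lip yt yb p.2 q.2
    have h3 : (hh yt yb p.2 : ℝ) / M ≤ (hh yt yb q.2 : ℝ) / M + 1 / 4 * |(p.2 : ℝ) - q.2| := by
      rw [div_le_iff₀ hM0, add_mul, div_mul_cancel₀ _ hM0.ne']
      have h4 := abs_nonneg ((p.2 : ℝ) - q.2)
      nlinarith
    have h5 : max 0 ((q.1 : ℝ) - s q.2 - 3) ≤ max 0 ((p.1 : ℝ) - s p.2 - 3) + d1 p q := by
      refine max_le ?_ ?_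
      · have := le_max_left 0 ((p.1 : ℝ) - s p.2 - 3)
        linarith
      · have h6 := le_max_right 0 ((p.1 : ℝ) - s p.2 - 3)
        have h7 := hs p.2 q.2
        have h8 := neg_abs_le ((p.1 : ℝ) - q.1)
        unfold d1
        linarith
    have h9 : |(p.2 : ℝ) - q.2| ≤ d1 p q := by
      unfold d1
      have := abs_nonneg ((p.1 : ℝ) - q.1)
      linarith
    linarith

theorem floor_lip {a b : ℝ} (h : a ≤ b + 1) : ⌊a⌋ ≤ ⌊b⌋ + 1 := by
  have := Int.floor_le_floor h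
  rwa [Int.floor_add_one] at this

theorem floor_div (h : ℤ) {M : ℕ} (hM : 0 < M) : ⌊(h : ℝ) / M⌋ = h / M := by
  have hM' : (0 : ℝ) < M := by exact_mod_cast hM
  have hM'' : (0 : ℤ) < M := by exact_mod_cast hM
  rw [Int.floor_eq_iff]
  have h1 := Int.emod_nonneg h hM''.ne'
  have h2 := Int.emod_lt_of_pos h hM''
  have h3 := Int.emod_add_mul_ediv h M
  have h4 : (h : ℝ) = ((h % M : ℤ) : ℝ) + M * ((h / M : ℤ) : ℝ) := by exact_mod_cast h3.symm
  have h5 : (0 : ℝ) ≤ ((h % M : ℤ) : ℝ) := by exact_mod_cast h1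
  have h6 : ((h % M : ℤ) : ℝ) < M := by exact_mod_cast h2
  constructor
  · rw [le_div_iff₀ hM']
    nlinarith
  · rw [div_lt_iff₀ hM']
    nlinarith

/-- the input of the construction: `(X j, Y j)` the centres, `lv j < n` the levels, `Q j` the blobs with their outer layers -/
structure Inp {J : Type} (R K : ℕ → ℕ) (n : ℕ) (lv : J → ℕ) (X Y : J → ℤ) (Q : J → Set (ℤ × ℤ)) :
    Prop where
  lt : ∀ j, lv j < n
  q : ∀ j, ∀ p ∈ Q j, |p.1 - X j| ≤ R (lv j) ∧ |p.2 - Y j| ≤ R (lv j)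
  sep : ∀ i j, lv i = lv j → i ≠ j → (K (lv i) : ℤ) ≤ |X i - X j| ∨ (K (lv i) : ℤ) ≤ |Y i - Y j|
  sep2 : ∀ i j, lv i < lv j → ∀ p ∈ Q j, (Am R (lv i) : ℤ) ≤ |p.1 - X i| ∨
    (Am R (lv i) : ℤ) ≤ |p.2 - Y i|

/-- the two tips are free -/
def FreeTip {J : Type} (R : ℕ → ℕ) (lv : J → ℕ) (X Y : J → ℤ) (c1 y : ℤ) : Prop :=
  ∀ j, (Dm R (lv j) : ℤ) ≤ |X j - c1| ∨ (Dm R (lv j) : ℤ) ≤ |Y j - y|

/-- the output for the left wall -/
structure Out {J : Type} (R : ℕ → ℕ) (lv : J → ℕ) (X Y : J → ℤ) (Q : J → Set (ℤ × ℤ)) (L M : ℕ)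
    (c1 yt yb : ℤ) (s : ℤ → ℤ) (G : ℤ × ℤ → ℤ) : Prop where
  lip : ∀ y y', |s y - s y'| ≤ |y - y'|
  up : ∀ y, 2 * s y ≤ 2 * c1 - hh yt yb y
  low : ∀ y, 8 * s y + 8 + L ≥ 8 * c1 - 4 * hh yt yb y
  tipt : s yt = c1
  tipb : s yb = c1
  far : ∀ j, 3 * (Cm R (lv j) : ℤ) ≤ 4 * |X j - s (Y j)|
  near : ∀ j y, yb ≤ y → y ≤ yt → (yt ≤ y + 4 * Am R (lv j) ∨ y ≤ yb + 4 * Am R (lv j)) →
    c1 - Cm R (lv j) ≤ s y
  glip : ∀ p q : ℤ × ℤ, |p.1 - q.1| + |p.2 - q.2| ≤ 1 → G p ≤ G q + 1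
  gcst : ∀ j, ∀ p ∈ Q j, ∀ q ∈ Q j, G p = G q
  gl : ∀ x y, yb ≤ y → y ≤ yt → |x - s y| ≤ 2 → G (x, y) = hh yt yb y / M
  gr : ∀ x y, yb ≤ y → y ≤ yt → 2 * c1 + hh yt yb y - 4 ≤ 2 * x →
    (∀ j, (Am R (lv j) : ℤ) ≤ |x - X j| + |y - Y j|) → G (x, y) = 0

theorem half {J : Type} {R K : ℕ → ℕ} (hG : Gp R K) {n : ℕ} {lv : J → ℕ} {X Y : J → ℤ}
    {Q : J → Set (ℤ × ℤ)} (h : Inp R K n lv X Y Q) {L M : ℕ} (hM : 64 ≤ M)
    (hL : ∀ m, m < n → 16 * K m ≤ L) {c1 yt yb : ℤ} (hy : yb < yt)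
    (ht : FreeTip R lv X Y c1 yt) (hb : FreeTip R lv X Y c1 yb) :
    ∃ s G, Out R lv X Y Q L M c1 yt yb s G := by
  -- real constants
  have hAm : ∀ m, (64 : ℝ) ≤ Am R m := fun m => by exact_mod_cast am_ge hG m
  have hCA : ∀ m, (Cm R m : ℝ) = 64 * Am R m := fun m => by
    unfold Cm
    push_cast
    ring
  have hEC : ∀ m, (1 / 2 : ℝ) ^ (m + 2) * (Em R m : ℝ) = 2 * (Cm R m : ℝ) := fun m => by
    unfold Em
    push_cast
    have : (1 / 2 : ℝ) ^ (m + 2) * 2 ^ (m + 3) = 2 := by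
      rw [show (2 : ℝ) ^ (m + 3) = 2 ^ (m + 2) * 2 from pow_succ 2 (m + 2), ← mul_assoc, ← mul_pow]
      norm_num
    rw [← mul_assoc, this]
  have hKE : ∀ m, (256 : ℝ) * Em R m ≤ K m := fun m => by exact_mod_cast k_ge hG m
  have hEC' : ∀ m, (8 : ℝ) * Cm R m ≤ Em R m := fun m => by exact_mod_cast em_ge (R := R) m
  have hsumC : ∀ k, ∑ m ∈ Finset.range k, 2 * (Cm R m : ℝ) ≤ (Cm R k : ℝ) / 8 := fun k => by
    have h1 : ((8 * ∑ m ∈ Finset.range k, 2 * Cm R m : ℕ) : ℝ) ≤ (Cm R k : ℝ) := by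
      exact_mod_cast sum_c hG k
    push_cast at h1
    linarith
  have hsumn : ∑ m ∈ Finset.range n, 2 * (Cm R m : ℝ) ≤ (L : ℝ) / 8 := by
    rcases Nat.eq_zero_or_pos n with h0 | h0
    · subst h0
      rw [Finset.range_zero, Finset.sum_empty]
      positivity
    · obtain ⟨n', rfl⟩ : ∃ n', n = n' + 1 := ⟨n - 1, by omega⟩
      rw [Finset.sum_range_succ]
      have h1 := hsumC n'
      have h2 : (16 : ℝ) * K n' ≤ L := by exact_mod_cast hL n' (by omega)
      have h3 := hKE n'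
      have h4 := hEC' n'
      have h5 := hCA n'
      have h6 := hAm n'
      linarith
  -- the wall
  have hsepR : ∀ i j, lv i = lv j → i ≠ j →
      (K (lv i) : ℝ) ≤ |(X i : ℝ) - X j| ∨ (K (lv i) : ℝ) ≤ |(Y i : ℝ) - Y j| := fun i j hi hij => by
    rcases h.sep i j hi hij with h1 | h1
    · left
      have : ((K (lv i) : ℤ) : ℝ) ≤ ((|X i - X j| : ℤ) : ℝ) := by exact_mod_cast h1
      rw [Int.cast_abs, Int.cast_sub] at this
      exact_mod_cast this
    · right
      have : ((K (lv i) : ℤ) : ℝ) ≤ ((|Y i - Y j| : ℤ) : ℝ) := by exact_mod_cast h1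
      rw [Int.cast_abs, Int.cast_sub] at this
      exact_mod_cast this
  obtain ⟨s, w1, w2, w3, w4, w5⟩ := walls lv X Y (fun m => (Cm R m : ℝ)) (fun m => (Em R m : ℝ))
    (fun m => (1 / 2 : ℝ) ^ (m + 2)) (fun m => by
      have := hAm m
      rw [hCA]
      linarith) (fun m => by positivity) hEC (fun i j hi hij => by
      have h1 := hKE (lv i)
      have h2 := hEC' (lv i)
      have h3 := hCA (lv i)
      have h4 := hAm (lv i)
      rcases hsepR i j hi hij with h5 | h5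
      · left
        linarith
      · right
        linarith) n (s0 c1 yt yb) (1 / 2) (by norm_num) (s0_lz c1 yt yb) (by
      have := sum_half n
      linarith)
  have w1' : Lz 1 s := w1.mono (by
    have := sum_half n
    linarith)
  -- the function
  have hQd : ∀ j, ∀ p ∈ Q j, d1 p (X j, Y j) ≤ 2 * (R (lv j) : ℝ) := fun j p hp => by
    obtain ⟨a1, a2⟩ := h.q j p hp
    have b1 : ((|p.1 - X j| : ℤ) : ℝ) ≤ ((R (lv j) : ℤ) : ℝ) := by exact_mod_cast a1
    have b2 : ((|p.2 - Y j| : ℤ) : ℝ) ≤ ((R (lv j) : ℤ) : ℝ) := by exact_mod_cast a2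
    rw [Int.cast_abs, Int.cast_sub] at b1 b2
    unfold d1
    push_cast at b1 b2
    linarith
  have hδA : ∀ m, (1 / 2 : ℝ) ^ (m + 2) * (Am R m : ℝ) = 2 * (R m : ℝ) := fun m => by
    unfold Am
    push_cast
    have : (1 / 2 : ℝ) ^ (m + 2) * 2 ^ (m + 3) = 2 := by
      rw [show (2 : ℝ) ^ (m + 3) = 2 ^ (m + 2) * 2 from pow_succ 2 (m + 2), ← mul_assoc, ← mul_pow]
      norm_num
    rw [← mul_assoc, this]
  have hprot : ∀ (m : ℕ) (d : ℝ), (Am R m : ℝ) ≤ d → 2 * (R m : ℝ) ≤ (1 / 2 : ℝ) ^ (m + 2) * d :=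
    fun m d hd => by
      rw [← hδA]
      exact mul_le_mul_of_nonneg_left hd (by positivity)
  obtain ⟨F, f1, f2, f3⟩ := clamps lv (fun j => (X j, Y j)) (fun m => 2 * (R m : ℝ))
    (fun m => (1 / 2 : ℝ) ^ (m + 2)) (fun m => by positivity) (fun m => by positivity) Q hQd
    (fun i j hi hij => by
      have h1 : 2 * (2 * (R (lv i) : ℝ)) = (1 / 2 : ℝ) ^ (lv i + 2) * (2 * (Am R (lv i) : ℝ)) := by
        rw [← hδA]
        ring
      show 2 * (2 * (R (lv i) : ℝ)) ≤ (1 / 2 : ℝ) ^ (lv i + 2) * d1 (X i, Y i) (X j, Y j)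
      rw [h1]
      refine mul_le_mul_of_nonneg_left ?_ (by positivity)
      have h2 := hKE (lv i)
      have h3 := hEC' (lv i)
      have h4 := hCA (lv i)
      have h5 := hAm (lv i)
      have h6 : (K (lv i) : ℝ) ≤ d1 (X i, Y i) (X j, Y j) := by
        unfold d1
        have a1 := abs_nonneg ((X i : ℝ) - X j)
        have a2 := abs_nonneg ((Y i : ℝ) - Y j)
        rcases hsepR i j hi hij with h7 | h7 <;> simp only <;> linarith
      linarith) (fun i j hij p hp => by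
      refine hprot (lv i) _ ?_
      unfold d1
      have a1 := abs_nonneg ((p.1 : ℝ) - X i)
      have a2 := abs_nonneg ((p.2 : ℝ) - Y i)
      rcases h.sep2 i j hij p hp with h7 | h7
      · have : ((Am R (lv i) : ℤ) : ℝ) ≤ ((|p.1 - X i| : ℤ) : ℝ) := by exact_mod_cast h7
        rw [Int.cast_abs, Int.cast_sub] at this
        simp only
        push_cast at this
        linarith
      · have : ((Am R (lv i) : ℤ) : ℝ) ≤ ((|p.2 - Y i| : ℤ) : ℝ) := by exact_mod_cast h7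
        rw [Int.cast_abs, Int.cast_sub] at this
        simp only
        push_cast at this
        linarith) n (Phi yt yb M s) (1 / 2) (by norm_num) (Phi_lp yt yb (by omega) w1') (by
      have := sum_half n
      linarith)
  have hF1 : ∀ p q, F p ≤ F q + d1 p q := fun p q => by
    refine (f1 p q).trans ?_
    have h1 := sum_half n
    have h2 := d1_nonneg p q
    have h3 : (1 / 2 + ∑ m ∈ Finset.range n, (1 / 2 : ℝ) ^ (m + 2)) * d1 p q ≤ 1 * d1 p q :=
      mul_le_mul_of_nonneg_right (by linarith) h2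
    linarith
  have hfl : ∀ y, (⌊s y⌋ : ℝ) ≤ s y := fun y => Int.floor_le _
  have hfl' : ∀ y, s y < ⌊s y⌋ + 1 := fun y => Int.lt_floor_add_one _
  have hfar : ∀ j, 3 * (Cm R (lv j) : ℝ) / 4 ≤ |(X j : ℝ) - s (Y j)| - 1 := fun j => by
    have h1 := w4 j (h.lt j)
    have h2 := hsumC (lv j)
    have h3 := hCA (lv j)
    have h4 := hAm (lv j)
    linarith
  have hMR : (64 : ℝ) ≤ M := by exact_mod_cast hM
  -- values of `Phi`
  have hPl : ∀ (x y : ℤ), yb ≤ y → y ≤ yt → (x : ℝ) ≤ s y + 3 →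
      Phi yt yb M s (x, y) = (hh yt yb y : ℝ) / M := fun x y y1 y2 hx => by
    unfold Phi
    simp only
    rw [max_eq_left (a := (0 : ℝ)) (b := (x : ℝ) - s y - 3) (by linarith), mul_zero, sub_zero]
    refine max_eq_right (div_nonneg ?_ (by linarith))
    have : 0 ≤ hh yt yb y := by
      unfold hh
      omega
    exact_mod_cast this
  have hPr : ∀ (x y : ℤ), yb ≤ y → y ≤ yt → 2 * c1 + hh yt yb y - 4 ≤ 2 * x →
      ⌊Phi yt yb M s (x, y)⌋ = 0 := fun x y y1 y2 hx => by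
    have hx' : 2 * (c1 : ℝ) + hh yt yb y - 4 ≤ 2 * x := by exact_mod_cast hx
    have h0 : (0 : ℝ) ≤ hh yt yb y := by
      have : 0 ≤ hh yt yb y := by
        unfold hh
        omega
      exact_mod_cast this
    have h1 := w2 y
    unfold s0 at h1
    rw [Int.floor_eq_iff]
    unfold Phi
    simp only
    refine ⟨by
      push_cast
      exact le_max_left _ _, ?_⟩
    push_cast
    rw [zero_add]
    refine max_lt (by norm_num) ?_
    have h2 := le_max_left 0 ((x : ℝ) - s y - 3)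
    have h3 := le_max_right 0 ((x : ℝ) - s y - 3)
    have h4 : (hh yt yb y : ℝ) / M ≤ (hh yt yb y : ℝ) / 64 :=
      div_le_div_of_nonneg_left h0 (by norm_num) hMR
    by_cases h5 : (hh yt yb y : ℝ) < 64
    · have h6 : (hh yt yb y : ℝ) / 64 < 1 := by
        rw [div_lt_one (by norm_num)]
        exact h5
      linarith
    · push Not at h5
      linarith
  -- points near the wall are far from the blobs
  have hpro : ∀ (x y : ℤ), |x - ⌊s y⌋| ≤ 2 → ∀ j, lv j < n →
      2 * (R (lv j) : ℝ) ≤ (1 / 2 : ℝ) ^ (lv j + 2) * d1 (x, y) (X j, Y j) := fun x y hx j _ => by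
    refine hprot _ _ ?_
    have h1 := hfar j
    have h2 := w1'.abs (Y j) y
    have h3 := hfl y
    have h4 := hfl' y
    have h5 : |(x : ℝ) - ⌊s y⌋| ≤ 2 := by
      have : ((|x - ⌊s y⌋| : ℤ) : ℝ) ≤ 2 := by exact_mod_cast hx
      rwa [Int.cast_abs, Int.cast_sub] at this
    have h6 : |(X j : ℝ) - s (Y j)| ≤ |(x : ℝ) - X j| + |(Y j : ℝ) - y| + 3 := by
      have h7 := abs_le.1 h5
      have h8 := abs_le.1 h2
      have h9 := le_abs_self ((x : ℝ) - X j)
      have h10 := neg_abs_le ((x : ℝ) - X j)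
      rw [abs_le]
      constructor <;> linarith
    have h7 := hCA (lv j)
    have h8 := hAm (lv j)
    unfold d1
    simp only
    rw [abs_sub_comm (y : ℝ)]
    linarith
  refine ⟨fun y => ⌊s y⌋, fun p => ⌊F p⌋, ?_, ?_, ?_, ?_, ?_, ?_, ?_, ?_, ?_, ?_, ?_⟩
  · -- lip
    intro y y'
    have key : ∀ y y' : ℤ, ⌊s y⌋ ≤ ⌊s y'⌋ + |y - y'| := by
      intro y y'
      have h1 := w1' y y'
      rw [one_mul] at h1
      have h2 : s y ≤ s y' + ((|y - y'| : ℤ) : ℝ) := by
        rw [Int.cast_abs, Int.cast_sub]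
        exact h1
      have h3 := Int.floor_le_floor h2
      rwa [Int.floor_add_intCast] at h3
    have h1 := key y y'
    have h2 := key y' y
    rw [abs_sub_comm y'] at h2
    rw [abs_le]
    constructor <;> linarith
  · -- up
    intro y
    have h1 := w2 y
    have h2 := hfl y
    unfold s0 at h1
    have h3 : 2 * (⌊s y⌋ : ℝ) ≤ 2 * c1 - hh yt yb y := by linarith
    exact_mod_cast h3
  · -- low
    intro y
    have h1 := w3 y
    have h2 := hfl' y
    unfold s0 at h1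
    have h3 : 8 * (⌊s y⌋ : ℝ) + 8 + L ≥ 8 * c1 - 4 * hh yt yb y := by linarith
    exact_mod_cast h3
  · -- tipt
    have h0 : hh yt yb yt = 0 := by
      unfold hh
      omega
    have h1 := w5 yt 0 (Nat.zero_le n) fun j _ _ => by
      have h2 := hEC' (lv j)
      have h3 := hCA (lv j)
      have h4 := hAm (lv j)
      have h5 : (Dm R (lv j) : ℝ) = 4 * Em R (lv j) := by
        unfold Dm
        push_cast
        ring
      unfold s0
      rw [h0]
      push_cast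
      rw [zero_div, sub_zero]
      rcases ht j with h6 | h6
      · right
        have : ((Dm R (lv j) : ℤ) : ℝ) ≤ ((|X j - c1| : ℤ) : ℝ) := by exact_mod_cast h6
        rw [Int.cast_abs, Int.cast_sub] at this
        push_cast at this
        linarith
      · left
        have : ((Dm R (lv j) : ℤ) : ℝ) ≤ ((|Y j - yt| : ℤ) : ℝ) := by exact_mod_cast h6
        rw [Int.cast_abs, Int.cast_sub, abs_sub_comm] at this
        push_cast at this
        linarith
    have h2 := w2 yt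
    unfold s0 at h1 h2
    rw [h0] at h1 h2
    simp at h1 h2
    have h3 : s yt = c1 := le_antisymm h2 h1
    show ⌊s yt⌋ = c1
    rw [h3, Int.floor_intCast]
  · -- tipb
    have h0 : hh yt yb yb = 0 := by
      unfold hh
      omega
    have h1 := w5 yb 0 (Nat.zero_le n) fun j _ _ => by
      have h2 := hEC' (lv j)
      have h3 := hCA (lv j)
      have h4 := hAm (lv j)
      have h5 : (Dm R (lv j) : ℝ) = 4 * Em R (lv j) := by
        unfold Dm
        push_cast
        ring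
      unfold s0
      rw [h0]
      push_cast
      rw [zero_div, sub_zero]
      rcases hb j with h6 | h6
      · right
        have : ((Dm R (lv j) : ℤ) : ℝ) ≤ ((|X j - c1| : ℤ) : ℝ) := by exact_mod_cast h6
        rw [Int.cast_abs, Int.cast_sub] at this
        push_cast at this
        linarith
      · left
        have : ((Dm R (lv j) : ℤ) : ℝ) ≤ ((|Y j - yb| : ℤ) : ℝ) := by exact_mod_cast h6
        rw [Int.cast_abs, Int.cast_sub, abs_sub_comm] at this
        push_cast at this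
        linarith
    have h2 := w2 yb
    unfold s0 at h1 h2
    rw [h0] at h1 h2
    simp at h1 h2
    have h3 : s yb = c1 := le_antisymm h2 h1
    show ⌊s yb⌋ = c1
    rw [h3, Int.floor_intCast]
  · -- far
    intro j
    have h1 := hfar j
    have h2 := hfl (Y j)
    have h3 := hfl' (Y j)
    have h4 : |(X j : ℝ) - s (Y j)| - 1 ≤ |(X j : ℝ) - ⌊s (Y j)⌋| := by
      have h5 := abs_sub_le (X j : ℝ) (⌊s (Y j)⌋ : ℝ) (s (Y j))
      have h6 : |(⌊s (Y j)⌋ : ℝ) - s (Y j)| ≤ 1 := by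
        rw [abs_le]
        constructor <;> linarith
      linarith
    have h5 : 3 * (Cm R (lv j) : ℝ) ≤ 4 * |(X j : ℝ) - ⌊s (Y j)⌋| := by linarith
    have h6 : ((3 * (Cm R (lv j) : ℤ) : ℤ) : ℝ) ≤ ((4 * |X j - ⌊s (Y j)⌋| : ℤ) : ℝ) := by
      push_cast
      exact h5
    exact_mod_cast h6
  · -- near
    intro j y y1 y2 hn
    obtain ⟨k, hk⟩ : ∃ k, k = lv j := ⟨_, rfl⟩
    rw [← hk] at hn ⊢
    have hkn : k ≤ n := by
      rw [hk]
      exact (h.lt j).le
    have hh0 : 0 ≤ hh yt yb y ∧ hh yt yb y ≤ 4 * Am R k := by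
      unfold hh
      omega
    have hhR0 : (0 : ℝ) ≤ hh yt yb y := by exact_mod_cast hh0.1
    have hhR1 : (hh yt yb y : ℝ) ≤ 4 * Am R k := by exact_mod_cast hh0.2
    have h1 := w5 y k hkn fun i hi _ => by
      have h2 := hEC' (lv i)
      have h3 := hCA (lv i)
      have h4 := hAm (lv i)
      have h5 : (Dm R (lv i) : ℝ) = 4 * Em R (lv i) := by
        unfold Dm
        push_cast
        ring
      have h6 : (Am R k : ℝ) ≤ Am R (lv i) := by exact_mod_cast a_mono hG hi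
      have key : ∀ y0 : ℤ, |(y : ℝ) - y0| ≤ 4 * Am R k → ((Dm R (lv i) : ℤ) ≤ |X i - c1| ∨
          (Dm R (lv i) : ℤ) ≤ |Y i - y0|) → ((Em R (lv i) : ℝ) ≤ |(y : ℝ) - Y i| ∨
          (Cm R (lv i) : ℝ) + Em R (lv i) ≤ |(X i : ℝ) - s0 c1 yt yb y|) := by
        intro y0 hy0 h7
        rcases h7 with h7 | h7
        · right
          have h8 : ((Dm R (lv i) : ℤ) : ℝ) ≤ ((|X i - c1| : ℤ) : ℝ) := by exact_mod_cast h7
          rw [Int.cast_abs, Int.cast_sub] at h8
          push_cast at h8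
          have h9 := abs_sub_le (X i : ℝ) (s0 c1 yt yb y) c1
          have h10 : |s0 c1 yt yb y - c1| ≤ 2 * Am R k := by
            unfold s0
            rw [abs_le]
            constructor <;> linarith
          linarith
        · left
          have h8 : ((Dm R (lv i) : ℤ) : ℝ) ≤ ((|Y i - y0| : ℤ) : ℝ) := by exact_mod_cast h7
          rw [Int.cast_abs, Int.cast_sub] at h8
          push_cast at h8
          have h9 := abs_sub_le (Y i : ℝ) y y0
          rw [abs_sub_comm (Y i : ℝ) y] at h9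
          linarith
      rcases hn with hn | hn
      · refine key yt ?_ (ht i)
        have a1 : (yt : ℝ) ≤ y + 4 * Am R k := by exact_mod_cast hn
        have a2 : (y : ℝ) ≤ yt := by exact_mod_cast y2
        rw [abs_le]
        constructor <;> linarith
      · refine key yb ?_ (hb i)
        have a1 : (y : ℝ) ≤ yb + 4 * Am R k := by exact_mod_cast hn
        have a2 : (yb : ℝ) ≤ y := by exact_mod_cast y1
        rw [abs_le]
        constructor <;> linarith
    have h2 := hsumC k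
    have h3 := hCA k
    have h4 := hAm k
    have h5 := hfl' y
    unfold s0 at h1
    have h6 : (c1 : ℝ) - Cm R k < ⌊s y⌋ + 1 := by
      linarith
    have h7 : c1 - (Cm R k : ℤ) < ⌊s y⌋ + 1 := by exact_mod_cast h6
    show c1 - (Cm R k : ℤ) ≤ ⌊s y⌋
    omega
  · -- glip
    intro p q hpq
    refine floor_lip ?_
    have h1 := hF1 p q
    have h2 : ((|p.1 - q.1| + |p.2 - q.2| : ℤ) : ℝ) ≤ 1 := by exact_mod_cast hpq
    rw [Int.cast_add, Int.cast_abs, Int.cast_abs, Int.cast_sub, Int.cast_sub] at h2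
    unfold d1 at h1
    linarith
  · -- gcst
    intro j p hp q hq
    show ⌊F p⌋ = ⌊F q⌋
    rw [f2 j (h.lt j) p hp q hq]
  · -- gl
    intro x y y1 y2 hx
    show ⌊F (x, y)⌋ = _
    rw [f3 (x, y) fun j hj => hpro x y hx j hj, hPl x y y1 y2 ?_, floor_div _ (by omega)]
    have h1 := (abs_le.1 hx).2
    have h2 : (x : ℝ) ≤ ⌊s y⌋ + 2 := by
      have : x ≤ ⌊s y⌋ + 2 := by omega
      exact_mod_cast this
    have h3 := hfl y
    linarith
  · -- gr
    intro x y y1 y2 hx hpr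
    show ⌊F (x, y)⌋ = _
    rw [f3 (x, y) fun j hj => ?_, hPr x y y1 y2 hx]
    refine hprot _ _ ?_
    have h1 : ((Am R (lv j) : ℤ) : ℝ) ≤ ((|x - X j| + |y - Y j| : ℤ) : ℝ) := by
      exact_mod_cast hpr j
    rw [Int.cast_add, Int.cast_abs, Int.cast_abs, Int.cast_sub, Int.cast_sub] at h1
    unfold d1
    push_cast at h1
    exact h1

end SFg
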