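import Mathlib

/-!
# SF geometry 4: the choice of a tip
-/

set_option autoImplicit false

namespace SFg

theorem tip {J : Type} (lv : J → ℕ) (X Y : J → ℤ) (D K : ℕ → ℤ) (hD : ∀ m, 0 < D m)
    (hK : ∀ m, 32 * D m ≤ K m) (hKK : ∀ m m', m < m' → 16 * K m ≤ K m')
    (hsep : ∀ i j, lv i = lv j → i ≠ j → K (lv i) ≤ |X i - X j| ∨ K (lv i) ≤ |Y i - Y j|) (c : ℤ)
    (n : ℕ) : ∀ (a W : ℤ), 0 ≤ W → (∀ m, m < n → K m ≤ W) → ∃ y, a ≤ y ∧ y ≤ a + W ∧
      ∀ j, lv j < n → D (lv j) ≤ |X j - c| ∨ D (lv j) ≤ |Y j - y| := by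
  induction n with
  | zero =>
    intro a W hW _
    exact ⟨a, le_rfl, by linarith, fun j hj => absurd hj (Nat.not_lt_zero _)⟩
  | succ n ih =>
    intro a W hW hKW
    have h1 := hK n
    have h2 := hD n
    have h3 := hKW n (by omega)
    obtain ⟨w, hw⟩ : ∃ w, w = K n / 8 := ⟨_, rfl⟩
    have hw1 : 8 * w ≤ K n := by omega
    have hw2 : K n < 8 * w + 8 := by omega
    have hKw : ∀ m, m < n → K m ≤ w := fun m hm => by
      have h4 := hKK m n hm
      have h5 := hK m
      have h6 := hD m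
      omega
    by_cases hb : ∀ j, lv j = n → ∀ y, a ≤ y → y ≤ a + w → D n ≤ |X j - c| ∨ D n ≤ |Y j - y|
    · obtain ⟨y, y1, y2, y3⟩ := ih a w (by omega) hKw
      refine ⟨y, y1, by omega, fun j hj => ?_⟩
      rcases Nat.lt_succ_iff_lt_or_eq.1 hj with hj' | hj'
      · exact y3 j hj'
      · rw [hj']
        exact hb j hj' y y1 y2
    · push Not at hb
      obtain ⟨j, hj, y0, b1, b2, b3, b4⟩ := hb
      obtain ⟨y, y1, y2, y3⟩ := ih (a + 2 * w) w (by omega) hKw
      refine ⟨y, by omega, by omega, fun i hi => ?_⟩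
      rcases Nat.lt_succ_iff_lt_or_eq.1 hi with hi' | hi'
      · exact y3 i hi'
      · rw [hi']
        by_contra hc
        push Not at hc
        obtain ⟨c1, c2⟩ := hc
        rw [abs_lt] at b3 b4 c1 c2
        by_cases hij : i = j
        · subst hij
          omega
        · have h7 := hsep i j (by rw [hi', hj]) hij
          rw [hi'] at h7
          rcases h7 with h7 | h7
          · rcases le_abs.1 h7 with h8 | h8 <;> omega
          · rcases le_abs.1 h7 with h8 | h8 <;> omega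

end SFg
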