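import Pool.Agent.Helper20.SF.Half
import Pool.Agent.Helper20.SF.Tip

/-!
# SF geometry 7: one piece
-/

set_option autoImplicit false

namespace SFg

/-- The shape `{(x, y) | yb ≤ y ≤ yt, s y ≤ x ≤ t y}` of a piece with the centre `c` and the two functions. -/
structure Piece {J : Type} (R : ℕ → ℕ) (lv : J → ℕ) (X Y : J → ℤ) (Q : J → Set (ℤ × ℤ)) (L : ℕ)
    (c : ℤ × ℤ) (yt yb : ℤ) (s t : ℤ → ℤ) (G G' : ℤ × ℤ → ℤ) : Prop where
  yt1 : c.2 + L ≤ yt
  yt2 : yt ≤ c.2 + 2 * L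
  yb1 : c.2 - 2 * L ≤ yb
  yb2 : yb ≤ c.2 - L
  mod : (128 : ℤ) ∣ yt - yb - 63
  slip : ∀ y y', |s y - s y'| ≤ |y - y'|
  tlip : ∀ y y', |t y - t y'| ≤ |y - y'|
  sup : ∀ y, 2 * s y ≤ 2 * c.1 - hh yt yb y
  tup : ∀ y, 2 * c.1 + hh yt yb y ≤ 2 * t y
  slow : ∀ y, yb ≤ y → y ≤ yt → c.1 - 2 * L ≤ s y
  tlow : ∀ y, yb ≤ y → y ≤ yt → t y ≤ c.1 + 2 * L
  st : s yt = c.1
  sb : s yb = c.1
  tt : t yt = c.1
  tb : t yb = c.1
  dich : ∀ j, (∀ x y y', |x - X j| ≤ Am R (lv j) + 4 → |y - Y j| ≤ Am R (lv j) + 4 →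
      |y' - y| ≤ 4 → yb + 4 ≤ y ∧ y ≤ yt - 4 ∧ s y' + 4 ≤ x ∧ x ≤ t y' - 4) ∨
    ∀ x y x' y', |x - X j| ≤ Am R (lv j) + 4 → |y - Y j| ≤ Am R (lv j) + 4 → |x' - x| ≤ 4 →
      |y' - y| ≤ 4 → ¬ (yb ≤ y' ∧ y' ≤ yt ∧ s y' ≤ x' ∧ x' ≤ t y')
  glip : ∀ p q : ℤ × ℤ, |p.1 - q.1| + |p.2 - q.2| ≤ 1 → G p ≤ G q + 1
  glip' : ∀ p q : ℤ × ℤ, |p.1 - q.1| + |p.2 - q.2| ≤ 1 → G' p ≤ G' q + 1
  gcst : ∀ j, ∀ p ∈ Q j, ∀ q ∈ Q j, G p = G q
  gcst' : ∀ j, ∀ p ∈ Q j, ∀ q ∈ Q j, G' p = G' q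
  gs : ∀ x y, yb ≤ y → y ≤ yt → |x - s y| ≤ 2 → G (x, y) = hh yt yb y / 64
  gt : ∀ x y, yb ≤ y → y ≤ yt → |x - t y| ≤ 2 → G (x, y) = 0
  gs' : ∀ x y, yb ≤ y → y ≤ yt → |x - s y| ≤ 2 → G' (x, y) = 0
  gt' : ∀ x y, yb ≤ y → y ≤ yt → |x - t y| ≤ 2 → G' (x, y) = hh yt yb y / 64

/-- points near a wall are far from the blobs -/
theorem wall_far {C A : ℤ} {X Y x y : ℤ} {s : ℤ → ℤ} (hC : C = 64 * A) (hA : 64 ≤ A)
    (hlip : ∀ y y', |s y - s y'| ≤ |y - y'|) (hfar : 3 * C ≤ 4 * |X - s Y|) (hx : |x - s y| ≤ 2) :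
    A ≤ |x - X| + |y - Y| := by
  have h1 := hlip Y y
  rw [abs_sub_comm Y y] at h1
  have h2 := abs_sub_le X x (s Y)
  have h3 := abs_sub_le x (s y) (s Y)
  rw [abs_sub_comm (s y)] at h3
  rw [abs_sub_comm X x] at h2
  omega

theorem four_abs {C a : ℤ} (h : 3 * C ≤ 4 * |a|) : 3 * C ≤ 4 * a ∨ 3 * C ≤ -(4 * a) := by
  rcases abs_choice a with h1 | h1
  · left
    rwa [h1] at h
  · right
    rw [h1] at h
    linarith

/-- the alternative for one blob -/
theorem dich_aux {C A D : ℤ} {X Y c1 yt yb : ℤ} {s t : ℤ → ℤ} (hC : C = 64 * A) (hA : 64 ≤ A)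
    (hD : 32 * C ≤ D) (hy : yb + D < yt) (hslip : ∀ y y', |s y - s y'| ≤ |y - y'|)
    (htlip : ∀ y y', |t y - t y'| ≤ |y - y'|) (hs : 3 * C ≤ 4 * |X - s Y|)
    (ht : 3 * C ≤ 4 * |X - t Y|) (ht1 : D ≤ |X - c1| ∨ D ≤ |Y - yt|)
    (hb1 : D ≤ |X - c1| ∨ D ≤ |Y - yb|)
    (hns : ∀ y, yb ≤ y → y ≤ yt → (yt ≤ y + 4 * A ∨ y ≤ yb + 4 * A) → c1 - C ≤ s y)
    (hnt : ∀ y, yb ≤ y → y ≤ yt → (yt ≤ y + 4 * A ∨ y ≤ yb + 4 * A) → t y ≤ c1 + C) :
    (∀ x y, |x - X| ≤ A + 8 → |y - Y| ≤ A + 8 → yb ≤ y ∧ y ≤ yt ∧ s y ≤ x ∧ x ≤ t y) ∨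
      ∀ x y, |x - X| ≤ A + 8 → |y - Y| ≤ A + 8 → ¬ (yb ≤ y ∧ y ≤ yt ∧ s y ≤ x ∧ x ≤ t y) := by
  by_cases h1 : |Y - yt| ≤ 2 * A + 32
  · right
    rintro x y hx hy' ⟨a1, a2, a3, a4⟩
    have h2 : D ≤ |X - c1| := by
      rcases ht1 with h | h
      · exact h
      · omega
    have b1 := abs_le.1 h1
    have b2 := abs_le.1 hx
    have b3 := abs_le.1 hy'
    have c1' := hns y a1 a2 (Or.inl (by omega))
    have c2' := hnt y a1 a2 (Or.inl (by omega))
    rcases le_abs.1 h2 with h3 | h3 <;> omega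
  by_cases h2 : |Y - yb| ≤ 2 * A + 32
  · right
    rintro x y hx hy' ⟨a1, a2, a3, a4⟩
    have h3 : D ≤ |X - c1| := by
      rcases hb1 with h | h
      · exact h
      · omega
    have b1 := abs_le.1 h2
    have b2 := abs_le.1 hx
    have b3 := abs_le.1 hy'
    have c1' := hns y a1 a2 (Or.inr (by omega))
    have c2' := hnt y a1 a2 (Or.inr (by omega))
    rcases le_abs.1 h3 with h4 | h4 <;> omega
  push Not at h1 h2
  by_cases h3 : Y < yb
  · right
    rintro x y hx hy' ⟨a1, a2, a3, a4⟩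
    have b3 := abs_le.1 hy'
    rcases lt_abs.1 h2 with h4 | h4 <;> omega
  by_cases h4 : yt < Y
  · right
    rintro x y hx hy' ⟨a1, a2, a3, a4⟩
    have b3 := abs_le.1 hy'
    rcases lt_abs.1 h1 with h5 | h5 <;> omega
  push Not at h3 h4
  have e1 : yb + (2 * A + 32) < Y := by
    rcases lt_abs.1 h2 with h5 | h5 <;> omega
  have e2 : Y + (2 * A + 32) < yt := by
    rcases lt_abs.1 h1 with h5 | h5 <;> omega
  have key : ∀ x y, |x - X| ≤ A + 8 → |y - Y| ≤ A + 8 → |s y - s Y| ≤ A + 8 ∧ |t y - t Y| ≤ A + 8 :=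
    fun x y _ hy' => ⟨(hslip y Y).trans hy', (htlip y Y).trans hy'⟩
  rcases four_abs hs with h5 | h5
  · rcases four_abs ht with h6 | h6
    · right
      rintro x y hx hy' ⟨a1, a2, a3, a4⟩
      have k := key x y hx hy'
      have k2 := abs_le.1 k.2
      have b2 := abs_le.1 hx
      omega
    · left
      intro x y hx hy'
      have k := key x y hx hy'
      have k1 := abs_le.1 k.1
      have k2 := abs_le.1 k.2
      have b2 := abs_le.1 hx
      have b3 := abs_le.1 hy'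
      refine ⟨by omega, by omega, by omega, by omega⟩
  · right
    rintro x y hx hy' ⟨a1, a2, a3, a4⟩
    have k := key x y hx hy'
    have k1 := abs_le.1 k.1
    have b2 := abs_le.1 hx
    omega

theorem exists_piece {J : Type} {R K : ℕ → ℕ} (hG : Gp R K) {n : ℕ} {lv : J → ℕ} {X Y : J → ℤ}
    {Q : J → Set (ℤ × ℤ)} (h : Inp R K n lv X Y Q) {L : ℕ} (hL : ∀ m, m < n → 16 * K m ≤ L)
    (hL0 : 1024 ≤ L) (c : ℤ × ℤ) :
    ∃ yt yb s t G G', Piece R lv X Y Q L c yt yb s t G G' := by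
  -- the constants
  have hDC : ∀ m, (32 : ℤ) * Cm R m ≤ Dm R m := fun m => by
    have h1 := em_ge (R := R) m
    have h2 : 32 * Cm R m ≤ Dm R m := by
      unfold Dm
      omega
    exact_mod_cast h2
  have hCA : ∀ m, (Cm R m : ℤ) = 64 * Am R m := fun m => by
    unfold Cm
    push_cast
    ring
  have hA : ∀ m, (64 : ℤ) ≤ Am R m := fun m => by exact_mod_cast am_ge hG m
  have hK : ∀ m, (64 : ℤ) * Dm R m ≤ K m := fun m => by exact_mod_cast hG.k0 m
  -- the tips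
  have htip : ∀ a : ℤ, ∃ y, a ≤ y ∧ y + 128 ≤ a + L ∧ ∀ j,
      (Dm R (lv j) : ℤ) + 128 ≤ |X j - c.1| ∨ (Dm R (lv j) : ℤ) + 128 ≤ |Y j - y| := by
    intro a
    obtain ⟨y, y1, y2, y3⟩ := tip lv X Y (fun m => (Dm R m : ℤ) + 128) (fun m => (K m : ℤ))
      (fun m => by
        have h1 := hDC m
        have h2 := hCA m
        have h3 := hA m
        show (0 : ℤ) < Dm R m + 128
        omega) (fun m => by
        have h1 := hDC m
        have h2 := hCA m
        have h3 := hA m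
        have h4 := hK m
        show (32 : ℤ) * (Dm R m + 128) ≤ K m
        omega) (fun m m' hm => by
        have := k_mono hG hm
        show (16 : ℤ) * K m ≤ K m'
        exact_mod_cast this) h.sep c.1 n a (L - 128) (by
        have : (1024 : ℤ) ≤ L := by exact_mod_cast hL0
        omega) (fun m hm => by
        have h1 : (16 : ℤ) * K m ≤ L := by exact_mod_cast hL m hm
        have h2 : (1024 : ℤ) ≤ L := by exact_mod_cast hL0
        show (K m : ℤ) ≤ L - 128
        omega)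
    exact ⟨y, y1, by omega, fun j => y3 j (h.lt j)⟩
  obtain ⟨u, u1, u2, u3⟩ := htip (c.2 + L)
  obtain ⟨v, v1, v2, v3⟩ := htip (c.2 - 2 * L)
  have hL0' : (1024 : ℤ) ≤ L := by exact_mod_cast hL0
  obtain ⟨yt, ht1, ht2, ht3⟩ : ∃ yt : ℤ, u ≤ yt ∧ yt < u + 128 ∧ (128 : ℤ) ∣ yt - c.2 := by
    refine ⟨u + (c.2 - u) % 128, ?_, ?_, ?_⟩ <;> omega
  obtain ⟨yb, hb1, hb2, hb3⟩ : ∃ yb : ℤ, v ≤ yb ∧ yb < v + 128 ∧ (128 : ℤ) ∣ c.2 - yb - 63 := by
    refine ⟨v + (c.2 - 63 - v) % 128, ?_, ?_, ?_⟩ <;> omega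
  have hft : FreeTip R lv X Y c.1 yt := fun j => by
    rcases u3 j with h1 | h1
    · left
      omega
    · right
      have h2 := abs_sub_le (Y j) yt u
      have h3 : |yt - u| ≤ 128 := by
        rw [abs_le]
        constructor <;> omega
      omega
  have hfb : FreeTip R lv X Y c.1 yb := fun j => by
    rcases v3 j with h1 | h1
    · left
      omega
    · right
      have h2 := abs_sub_le (Y j) yb v
      have h3 : |yb - v| ≤ 128 := by
        rw [abs_le]
        constructor <;> omega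
      omega
  have hyy : yb < yt := by omega
  -- the left wall
  obtain ⟨s, G, hs⟩ := half hG h (M := 64) le_rfl hL hyy hft hfb
  -- the mirror image
  have h' : Inp R K n lv (fun j => -X j) Y fun j => {p | ((-p.1, p.2) : ℤ × ℤ) ∈ Q j} := by
    refine ⟨h.lt, fun j p hp => ?_, fun i j hi hij => ?_, fun i j hi p hp => ?_⟩
    · have := h.q j _ hp
      have e : |p.1 - -X j| = |-p.1 - X j| := by
        rw [← abs_neg]
        congr 1
        ring
      show |p.1 - -X j| ≤ _ ∧ _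
      rw [e]
      exact this
    · have e : |-X i - -X j| = |X i - X j| := by
        rw [← abs_neg]
        congr 1
        ring
      show _ ≤ |-X i - -X j| ∨ _
      rw [e]
      exact h.sep i j hi hij
    · have := h.sep2 i j hi _ hp
      have e : |p.1 - -X i| = |-p.1 - X i| := by
        rw [← abs_neg]
        congr 1
        ring
      show _ ≤ |p.1 - -X i| ∨ _
      rw [e]
      exact this
  have hm : ∀ y, FreeTip R lv X Y c.1 y → FreeTip R lv (fun j => -X j) Y (-c.1) y := fun y hy j => by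
    have e : |-X j - -c.1| = |X j - c.1| := by
      rw [← abs_neg]
      congr 1
      ring
    show _ ≤ |-X j - -c.1| ∨ _
    rw [e]
    exact hy j
  obtain ⟨t', G0, ht⟩ := half hG h' (M := 64) le_rfl hL hyy (hm yt hft) (hm yb hfb)
  have htlip : ∀ y y', |-t' y - -t' y'| ≤ |y - y'| := fun y y' => by
    have e : |-t' y - -t' y'| = |t' y - t' y'| := by
      rw [← abs_neg]
      congr 1
      ring
    rw [e]
    exact ht.lip y y'
  have htfar : ∀ j, 3 * (Cm R (lv j) : ℤ) ≤ 4 * |X j - -t' (Y j)| := fun j => by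
    have e : |X j - -t' (Y j)| = |-X j - t' (Y j)| := by
      rw [← abs_neg]
      congr 1
      ring
    rw [e]
    exact ht.far j
  have hd : ∀ j, _ := fun j => dich_aux (C := Cm R (lv j)) (A := Am R (lv j)) (D := Dm R (lv j))
    (X := X j) (Y := Y j) (c1 := c.1) (yt := yt) (yb := yb) (s := s) (t := fun y => -t' y)
    (hCA (lv j)) (hA (lv j)) (hDC (lv j)) (by
      have h1 : (16 : ℤ) * K (lv j) ≤ L := by exact_mod_cast hL (lv j) (h.lt j)
      have h2 := hK (lv j)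
      have h3 : (0 : ℤ) ≤ K (lv j) := by positivity
      omega) hs.lip htlip (hs.far j) (htfar j) (hft j) (hfb j) (hs.near j) (fun y y1 y2 y3 => by
      have := ht.near j y y1 y2 y3
      show -t' y ≤ c.1 + Cm R (lv j)
      omega)
  refine ⟨yt, yb, s, fun y => -t' y, G, fun p => G0 (-p.1, p.2), ?_⟩
  have hhle : ∀ y, yb ≤ y → y ≤ yt → hh yt yb y ≤ 2 * L := fun y y1 y2 => by
    unfold hh
    omega
  refine ⟨by omega, by omega, by omega, by omega, by omega, hs.lip, htlip, hs.up, fun y => ?_,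
    fun y y1 y2 => ?_, fun y y1 y2 => ?_, hs.tipt, hs.tipb, ?_, ?_, fun j => ?_, hs.glip,
    fun p q hpq => ?_, hs.gcst, fun j p hp q hq => ?_, hs.gl, fun x y y1 y2 hx => ?_,
    fun x y y1 y2 hx => ?_, fun x y y1 y2 hx => ?_⟩
  · have := ht.up y
    show 2 * c.1 + hh yt yb y ≤ 2 * -t' y
    omega
  · have h1 := hs.low y
    have h2 := hhle y y1 y2
    omega
  · have h1 := ht.low y
    have h2 := hhle y y1 y2
    show -t' y ≤ c.1 + 2 * L
    omega
  · show -t' yt = c.1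
    rw [ht.tipt, neg_neg]
  · show -t' yb = c.1
    rw [ht.tipb, neg_neg]
  · rcases hd j with h1 | h1
    · left
      intro x y y' hx hy hy'
      have hx' := abs_le.1 hx
      have hy1 := abs_le.1 hy
      have hy2 := abs_le.1 hy'
      have e1 := h1 (x - 4) y' (by rw [abs_le]; constructor <;> omega)
        (by rw [abs_le]; constructor <;> omega)
      have e2 := h1 (x + 4) y' (by rw [abs_le]; constructor <;> omega)
        (by rw [abs_le]; constructor <;> omega)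
      have e3 := h1 x (y - 4) (by rw [abs_le]; constructor <;> omega)
        (by rw [abs_le]; constructor <;> omega)
      have e4 := h1 x (y + 4) (by rw [abs_le]; constructor <;> omega)
        (by rw [abs_le]; constructor <;> omega)
      omega
    · right
      intro x y x' y' hx hy hx2 hy2
      have a1 := abs_le.1 hx
      have a2 := abs_le.1 hy
      have a3 := abs_le.1 hx2
      have a4 := abs_le.1 hy2
      exact h1 x' y' (by rw [abs_le]; constructor <;> omega) (by rw [abs_le]; constructor <;> omega)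
  · refine ht.glip _ _ ?_
    show |-p.1 - -q.1| + |p.2 - q.2| ≤ 1
    have e : |-p.1 - -q.1| = |p.1 - q.1| := by
      rw [← abs_neg]
      congr 1
      ring
    rw [e]
    exact hpq
  · refine ht.gcst j _ ?_ _ ?_
    · show ((- -p.1, p.2) : ℤ × ℤ) ∈ Q j
      rw [neg_neg]
      exact hp
    · show ((- -q.1, q.2) : ℤ × ℤ) ∈ Q j
      rw [neg_neg]
      exact hq
  · -- `G` on the right wall
    refine hs.gr x y y1 y2 ?_ fun j => ?_
    · have h1 := ht.up y
      have h2 := abs_le.1 hx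
      omega
    · exact wall_far (s := fun y => -t' y) (hCA _) (hA _) htlip (htfar j) hx
  · -- the mirror function on the left wall
    refine ht.gr (-x) y y1 y2 ?_ fun j => ?_
    · have h1 := hs.up y
      have h2 := abs_le.1 hx
      omega
    · have := wall_far (s := s) (hCA _) (hA _) hs.lip (hs.far j) hx
      have e : |-x - -X j| = |x - X j| := by
        rw [← abs_neg]
        congr 1
        ring
      show _ ≤ |-x - -X j| + _
      rw [e]
      exact this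
  · refine ht.gl (-x) y y1 y2 ?_
    have e : |-x - t' y| = |x - -t' y| := by
      rw [← abs_neg]
      congr 1
      ring
    rw [e]
    exact hx

end SFg
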