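import Mathlib

/-!
# SF geometry 1: pushing a wall away from sparse blobs

`J`: index set of the blobs, `lv j` the level, `X j`, `Y j` the coordinates of the centre.  One step (`push`): the wall `s : ℤ → ℝ` is replaced by the minimum of `s` and the cones
`X j - C + σ' |y - Y j|` over the blobs `j` of the level `m` with `|X j - s (Y j)| < C`.
-/

set_option autoImplicit false

namespace SFg

/-- Lipschitz functions on the integers -/
def Lz (σ : ℝ) (f : ℤ → ℝ) : Prop := ∀ y y' : ℤ, f y ≤ f y' + σ * |(y : ℝ) - y'|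

theorem Lz.mono {σ σ' : ℝ} {f : ℤ → ℝ} (h : Lz σ f) (hs : σ ≤ σ') : Lz σ' f := fun y y' =>
  (h y y').trans (by
    have := mul_le_mul_of_nonneg_right hs (abs_nonneg ((y : ℝ) - y'))
    linarith)

theorem Lz.abs {σ : ℝ} {f : ℤ → ℝ} (h : Lz σ f) (y y' : ℤ) : |f y - f y'| ≤ σ * |(y : ℝ) - y'| := by
  rw [abs_le]
  have h1 := h y y'
  have h2 := h y' y
  rw [abs_sub_comm] at h2
  constructor <;> linarith

/-- infima -/
theorem inf_le_add {ι : Type} [Nonempty ι] {f g : ι → ℝ} {w : ℝ} (hf : BddBelow (Set.range f))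
    (h : ∀ i, f i ≤ g i + w) : (⨅ i, f i) ≤ (⨅ i, g i) + w := by
  have h1 : (⨅ i, f i) - w ≤ ⨅ i, g i := le_ciInf fun i => by
    have := ciInf_le hf i
    have := h i
    linarith
  linarith

/-- suprema -/
theorem sup_le_add {ι : Type} [Nonempty ι] {f g : ι → ℝ} {w : ℝ} (hg : BddAbove (Set.range g))
    (h : ∀ i, f i ≤ g i + w) : (⨆ i, f i) ≤ (⨆ i, g i) + w := ciSup_le fun i => by
  have := le_ciSup hg i
  have := h i
  linarith

section

variable {J : Type} (lv : J → ℕ) (X Y : J → ℤ)

open Classical in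
/-- the cones -/
noncomputable def cone (m : ℕ) (C σ' : ℝ) (s : ℤ → ℝ) (y : ℤ) : Option J → ℝ
  | none => s y
  | some j => if lv j = m ∧ |(X j : ℝ) - s (Y j)| < C then X j - C + σ' * |(y : ℝ) - Y j| else s y

/-- one step -/
noncomputable def push (m : ℕ) (C σ' : ℝ) (s : ℤ → ℝ) (y : ℤ) : ℝ := ⨅ o, cone lv X Y m C σ' s y o

variable {lv X Y} {m : ℕ} {C σ σ' : ℝ} {s : ℤ → ℝ}

open Classical in
theorem cone_some (y : ℤ) (j : J) : cone lv X Y m C σ' s y (some j) =
    if lv j = m ∧ |(X j : ℝ) - s (Y j)| < C then X j - C + σ' * |(y : ℝ) - Y j| else s y := rfl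

theorem cone_none (y : ℤ) : cone lv X Y m C σ' s y none = s y := rfl

theorem cone_ge (hC : 0 ≤ C) (hs : Lz σ s) (hσ : σ ≤ σ') (y : ℤ) (o : Option J) :
    s y - 2 * C ≤ cone lv X Y m C σ' s y o := by
  rcases o with _ | j
  · rw [cone_none]
    linarith
  · rw [cone_some]
    split_ifs with h
    · have h1 := hs y (Y j)
      have h2 := (abs_lt.1 h.2).1
      have h3 := mul_le_mul_of_nonneg_right hσ (abs_nonneg ((y : ℝ) - Y j))
      linarith
    · linarith

theorem cone_bdd (hC : 0 ≤ C) (hs : Lz σ s) (hσ : σ ≤ σ') (y : ℤ) :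
    BddBelow (Set.range (cone lv X Y m C σ' s y)) :=
  ⟨s y - 2 * C, by
    rintro _ ⟨o, rfl⟩
    exact cone_ge hC hs hσ y o⟩

theorem push_le (hC : 0 ≤ C) (hs : Lz σ s) (hσ : σ ≤ σ') (y : ℤ) : push lv X Y m C σ' s y ≤ s y :=
  ciInf_le (cone_bdd (lv := lv) (X := X) (Y := Y) hC hs hσ y) none

theorem push_ge (hC : 0 ≤ C) (hs : Lz σ s) (hσ : σ ≤ σ') (y : ℤ) :
    s y - 2 * C ≤ push lv X Y m C σ' s y := le_ciInf fun o => cone_ge hC hs hσ y o

theorem push_lip (hC : 0 ≤ C) (hs : Lz σ s) (hσ : σ ≤ σ') (h0 : 0 ≤ σ') :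
    Lz σ' (push lv X Y m C σ' s) := by
  intro y y'
  refine inf_le_add (cone_bdd hC hs hσ y) fun o => ?_
  have h1 := hs.mono hσ y y'
  rcases o with _ | j
  · exact h1
  · rw [cone_some, cone_some]
    split_ifs with h
    · have h2 : |(y : ℝ) - Y j| ≤ |(y' : ℝ) - Y j| + |(y : ℝ) - y'| := by
        have := abs_add_le ((y' : ℝ) - Y j) ((y : ℝ) - y')
        rwa [show (y' : ℝ) - Y j + ((y : ℝ) - y') = (y : ℝ) - Y j by ring] at this
      nlinarith
    · exact h1

/-- the effect is local -/
theorem push_loc (hC : 0 ≤ C) (hs : Lz σ s) (hσ : σ ≤ σ') {E : ℝ} (hE : 2 * C ≤ (σ' - σ) * E)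
    (hσ1 : σ ≤ 1) {y : ℤ}
    (h : ∀ j, lv j = m → E ≤ |(y : ℝ) - Y j| ∨ C + E ≤ |(X j : ℝ) - s y|) :
    push lv X Y m C σ' s y = s y := by
  refine le_antisymm (push_le hC hs hσ y) (le_ciInf fun o => ?_)
  rcases o with _ | j
  · exact le_rfl
  · rw [cone_some]
    split_ifs with hj
    · have h1 := hs y (Y j)
      have h2 := abs_lt.1 hj.2
      have h4 := hs.abs y (Y j)
      rcases h j hj.1 with h3 | h3
      · have h5 : (σ' - σ) * E ≤ (σ' - σ) * |(y : ℝ) - Y j| :=
          mul_le_mul_of_nonneg_left h3 (by linarith)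
        linarith
      · have h6 : E ≤ |(y : ℝ) - Y j| := by
          have h7 : |(X j : ℝ) - s y| ≤ C + |s y - s (Y j)| := by
            have := abs_sub_le (X j : ℝ) (s (Y j)) (s y)
            rw [abs_sub_comm (s (Y j))] at this
            linarith
          have h8 : σ * |(y : ℝ) - Y j| ≤ 1 * |(y : ℝ) - Y j| :=
            mul_le_mul_of_nonneg_right hσ1 (abs_nonneg _)
          linarith
        have h5 : (σ' - σ) * E ≤ (σ' - σ) * |(y : ℝ) - Y j| :=
          mul_le_mul_of_nonneg_left h6 (by linarith)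
        linarith
    · exact le_rfl

/-- all blobs of the level are away from the new wall -/
theorem push_far (hC : 0 < C) (hs : Lz σ s) (hσ : σ < σ') {E : ℝ} (hE : (σ' - σ) * E = 2 * C)
    (hσ0 : 0 ≤ σ) (hσ1 : σ' ≤ 1)
    (hsep : ∀ i j, lv i = m → lv j = m → i ≠ j →
      E + 2 * C ≤ |(X i : ℝ) - X j| ∨ E + 2 * C ≤ |(Y i : ℝ) - Y j|) {j : J} (hj : lv j = m) :
    C ≤ |(X j : ℝ) - push lv X Y m C σ' s (Y j)| := by
  have hle := push_le (lv := lv) (X := X) (Y := Y) (m := m) hC.le hs hσ.le (Y j)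
  have hE0 : 0 ≤ E := by
    by_contra hc
    push Not at hc
    nlinarith
  by_cases hn : |(X j : ℝ) - s (Y j)| < C
  · have h1 : push lv X Y m C σ' s (Y j) ≤ X j - C := by
      have := ciInf_le (cone_bdd (lv := lv) (X := X) (Y := Y) (m := m) hC.le hs hσ.le (Y j)) (some j)
      rw [cone_some, if_pos ⟨hj, hn⟩, sub_self, abs_zero, mul_zero, add_zero] at this
      exact this
    rw [abs_of_nonneg (by linarith)]
    linarith
  · push Not at hn
    rcases le_abs.1 hn with h1 | h1
    · rw [abs_of_nonneg (by linarith)]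
      linarith
    · -- outside
      have h2 : (X j : ℝ) + C ≤ push lv X Y m C σ' s (Y j) := by
        refine le_ciInf fun o => ?_
        rcases o with _ | i
        · rw [cone_none]
          linarith
        · rw [cone_some]
          split_ifs with hi
          · by_contra hcon
            push Not at hcon
            have hij : i ≠ j := by
              rintro rfl
              exact absurd hi.2 (not_lt.2 hn)
            have h3 := abs_lt.1 hi.2
            have h4 := hs (Y j) (Y i)
            have hD := abs_nonneg ((Y j : ℝ) - Y i)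
            have h5 : (σ' - σ) * |(Y j : ℝ) - Y i| < (σ' - σ) * E := by
              rw [hE]
              linarith
            have h6 : |(Y j : ℝ) - Y i| < E := lt_of_mul_lt_mul_left h5 (by linarith)
            have h7 : σ * |(Y j : ℝ) - Y i| ≤ 1 * |(Y j : ℝ) - Y i| :=
              mul_le_mul_of_nonneg_right (by linarith) hD
            have h8 : 0 ≤ σ' * |(Y j : ℝ) - Y i| := mul_nonneg (by linarith) hD
            rcases hsep i j hi.1 hj hij with h9 | h9
            · rcases le_abs.1 h9 with h10 | h10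
              · linarith
              · linarith
            · rw [abs_sub_comm] at h9
              linarith
          · linarith
      rw [abs_sub_comm, abs_of_nonneg (by linarith)]
      linarith

end

end SFg
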