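import Mathlib

/-!
# SF, rows 2: the height function alone
-/

set_option autoImplicit false

namespace SF

/-- a sign -/
def Sg (s : ℤ) : Prop := s = 1 ∨ s = -1

theorem Sg.neg {s : ℤ} (h : Sg s) : Sg (-s) := by
  rcases h with rfl | rfl
  · exact Or.inr rfl
  · exact Or.inl rfl

/-- what the rules say about the height -/
structure Hq (h : ℤ → ℤ → ℤ) : Prop where
  lx : ∀ x y s, Sg s → h (x + s) y ≤ h x y + 1
  ly : ∀ x y t, Sg t → h x (y + t) ≤ h x y + 1
  osc : ∀ x y s t, Sg s → Sg t → h (x + s) (y + t) ≤ h x y + 1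
  chk : ∀ x y s t, Sg s → Sg t → h (x + s) (y + t) = h x y → h (x + s) y = h x (y + t) →
    h (x + s) y = h x y
  r2 : ∀ x y t, Sg t → h x (y + t) = h x y + 1 → h (x + 1) y = h x y + 1 ∨ h (x - 1) y = h x y + 1

variable {h : ℤ → ℤ → ℤ}

theorem Hq.mirror (H : Hq h) : Hq fun x y => h (-x) y where
  lx x y s hs := by
    have := H.lx (-x) y (-s) hs.neg
    rwa [show -x + -s = -(x + s) by ring] at this
  ly x y t ht := H.ly (-x) y t ht
  osc x y s t hs ht := by
    have := H.osc (-x) y (-s) t hs.neg ht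
    rwa [show -x + -s = -(x + s) by ring] at this
  chk x y s t hs ht h1 h2 := by
    have := H.chk (-x) y (-s) t hs.neg ht
    rw [show -x + -s = -(x + s) by ring] at this
    exact this h1 h2
  r2 x y t ht h1 := by
    have := H.r2 (-x) y t ht h1
    rw [show -x + 1 = -(x - 1) by ring, show -x - 1 = -(x + 1) by ring] at this
    exact this.symm

/-- left ends in the next row -/
theorem Hq.left (H : Hq h) {k s z y t : ℤ} (ht : Sg t) (hsz : s ≤ z) (h0 : h (s - 1) y = k + 1)
    (h1 : ∀ x, s ≤ x → x ≤ z → h x y ≤ k) (hz : h z (y + t) ≤ k) :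
    ∃ s', (s' = s ∨ s' = s - 1 ∨ s' = s + 1) ∧ s' ≤ z ∧ h (s' - 1) (y + t) = k + 1 ∧
      ∀ x, s' ≤ x → x ≤ z → h x (y + t) ≤ k := by
  have hint : ∀ x, s < x → x < z → h x (y + t) ≤ k := by
    intro x a b
    by_contra hc
    push Not at hc
    have e1 := h1 x a.le b.le
    have e2 := H.ly x y t ht
    rcases H.r2 x y t ht (by omega) with e3 | e3
    · have := h1 (x + 1) (by omega) (by omega)
      omega
    · have := h1 (x - 1) (by omega) (by omega)
      omega
  by_cases c1 : h s (y + t) ≤ k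
  · by_cases c2 : h (s - 1) (y + t) ≤ k
    · -- one to the left
      have e1 := H.ly (s - 1) (y + t) (-t) ht.neg
      rw [add_neg_cancel_right] at e1
      have e2 := H.r2 (s - 1) (y + t) (-t) ht.neg (by
        rw [add_neg_cancel_right]
        omega)
      rw [show s - 1 + 1 = s by ring] at e2
      refine ⟨s - 1, Or.inr (Or.inl rfl), by omega, by omega, fun x a b => ?_⟩
      by_cases d1 : x = s - 1
      · rw [d1]
        exact c2
      by_cases d2 : x = s
      · rw [d2]
        exact c1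
      by_cases d3 : x = z
      · rw [d3]
        exact hz
      exact hint x (by omega) (by omega)
    · have e1 := H.lx s (y + t) (-1) (Or.inr rfl)
      rw [← sub_eq_add_neg] at e1
      refine ⟨s, Or.inl rfl, hsz, by omega, fun x a b => ?_⟩
      by_cases d2 : x = s
      · rw [d2]
        exact c1
      by_cases d3 : x = z
      · rw [d3]
        exact hz
      exact hint x (by omega) (by omega)
  · have hne : s ≠ z := by
      rintro rfl
      exact c1 hz
    have e1 := H.ly s y t ht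
    have e2 := h1 s le_rfl hsz
    refine ⟨s + 1, Or.inr (Or.inr rfl), by omega, by
      rw [show s + 1 - 1 = s by ring]
      omega, fun x a b => ?_⟩
    by_cases d3 : x = z
    · rw [d3]
      exact hz
    exact hint x (by omega) (by omega)

/-- right ends in the next row -/
theorem Hq.right (H : Hq h) {k s z y t : ℤ} (ht : Sg t) (hsz : z ≤ s) (h0 : h (s + 1) y = k + 1)
    (h1 : ∀ x, z ≤ x → x ≤ s → h x y ≤ k) (hz : h z (y + t) ≤ k) :
    ∃ s', (s' = s ∨ s' = s - 1 ∨ s' = s + 1) ∧ z ≤ s' ∧ h (s' + 1) (y + t) = k + 1 ∧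
      ∀ x, z ≤ x → x ≤ s' → h x (y + t) ≤ k := by
  obtain ⟨s', a1, a2, a3, a4⟩ := H.mirror.left (k := k) (s := -s) (z := -z) (y := y) ht (by omega)
    (by
      show h (-(-s - 1)) y = k + 1
      rw [show -(-s - 1) = s + 1 by ring]
      exact h0)
    (fun x b1 b2 => h1 (-x) (by omega) (by omega)) (by
      show h (- -z) (y + t) ≤ k
      rw [neg_neg]
      exact hz)
  refine ⟨-s', by omega, by omega, ?_, fun x b1 b2 => ?_⟩
  · have e : h (-(s' - 1)) (y + t) = k + 1 := a3
    rwa [show -(s' - 1) = -s' + 1 by ring] at e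
  · have := a4 (-x) (by omega) (by omega)
    simpa using this

/-- a finite run of level `k` -/
structure RunH (h : ℤ → ℤ → ℤ) (k s t y : ℤ) : Prop where
  le : s ≤ t
  l : h (s - 1) y = k + 1
  r : h (t + 1) y = k + 1
  m : ∀ x, s ≤ x → x ≤ t → h x y ≤ k

theorem RunH.sk (H : Hq h) {k s t y : ℤ} (R : RunH h k s t y) : h s y = k := by
  have h1 := R.m s le_rfl R.le
  have h2 := H.lx s y (-1) (Or.inr rfl)
  rw [← sub_eq_add_neg] at h2
  have h3 := R.l
  omega

theorem RunH.tk (H : Hq h) {k s t y : ℤ} (R : RunH h k s t y) : h t y = k := by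
  have h1 := R.m t R.le le_rfl
  have h2 := H.lx t y 1 (Or.inl rfl)
  have h3 := R.r
  omega

theorem Hq.next (H : Hq h) {k s t y τ : ℤ} (hτ : Sg τ) (R : RunH h k s t y) {z : ℤ} (h1 : s ≤ z)
    (h2 : z ≤ t) (hz : h z (y + τ) ≤ k) : ∃ s' t', (s' = s ∨ s' = s - 1 ∨ s' = s + 1) ∧
      (t' = t ∨ t' = t - 1 ∨ t' = t + 1) ∧ s' ≤ z ∧ z ≤ t' ∧ RunH h k s' t' (y + τ) := by
  obtain ⟨s', a1, a2, a3, a4⟩ := H.left hτ h1 R.l (fun x b1 b2 => R.m x b1 (b2.trans h2)) hz
  obtain ⟨t', c1, c2, c3, c4⟩ := H.right hτ h2 R.r (fun x b1 b2 => R.m x (h1.trans b1) b2) hz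
  refine ⟨s', t', a1, c1, a2, c2, a2.trans c2, a3, c3, fun x b1 b2 => ?_⟩
  rcases le_total x z with d | d
  · exact a4 x b1 d
  · exact c4 x d b2

/-- tips -/
theorem Hq.tip (H : Hq h) {k s t y τ : ℤ} (hτ : Sg τ) (R : RunH h k s t y)
    (hno : ∀ z, s ≤ z → z ≤ t → ¬ h z (y + τ) ≤ k) :
    t ≤ s + 1 ∧ (∀ x, s ≤ x → x ≤ t → h x y = k) ∧ ∀ x, s - 1 ≤ x → x ≤ t + 1 →
      h x (y + τ) = k + 1 := by
  have hle := R.le
  have ht : t ≤ s + 1 := by
    by_contra hc
    push Not at hc
    have e1 := hno (s + 1) (by omega) (by omega)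
    have e2 := R.m (s + 1) (by omega) (by omega)
    have e3 := H.ly (s + 1) y τ hτ
    rcases H.r2 (s + 1) y τ hτ (by omega) with e4 | e4
    · have := R.m (s + 1 + 1) (by omega) (by omega)
      omega
    · have := R.m (s + 1 - 1) (by omega) (by omega)
      omega
  have hk : ∀ x, s ≤ x → x ≤ t → h x y = k ∧ h x (y + τ) = k + 1 := fun x a b => by
    have e1 := hno x a b
    have e2 := R.m x a b
    have e3 := H.ly x y τ hτ
    constructor <;> omega
  refine ⟨ht, fun x a b => (hk x a b).1, fun x a b => ?_⟩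
  by_cases d1 : x = s - 1
  · subst d1
    have e1 := hk s le_rfl hle
    have e2 := R.l
    have e3 := H.chk (s - 1) y 1 τ (Or.inl rfl) hτ
    have e4 := H.osc s y (-1) τ (Or.inr rfl) hτ
    have e5 := H.ly (s - 1) (y + τ) (-τ) hτ.neg
    rw [add_neg_cancel_right] at e5
    rw [show s - 1 + 1 = s by ring] at e3
    rw [show s + -1 = s - 1 by ring] at e4
    by_contra hc
    have e6 := e3 (by omega) (by omega)
    omega
  by_cases d2 : x = t + 1
  · subst d2
    have e1 := hk t hle le_rfl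
    have e2 := R.r
    have e3 := H.chk (t + 1) y (-1) τ (Or.inr rfl) hτ
    have e4 := H.osc t y 1 τ (Or.inl rfl) hτ
    have e5 := H.ly (t + 1) (y + τ) (-τ) hτ.neg
    rw [add_neg_cancel_right] at e5
    rw [show t + 1 + -1 = t by ring] at e3
    by_contra hc
    have e6 := e3 (by omega) (by omega)
    omega
  exact (hk x (by omega) (by omega)).2

/-- potentials on the line -/
theorem pot1 (f : ℤ → ℤ) : ∃ S : ℤ → ℤ, S 0 = 0 ∧ ∀ x, S (x + 1) = S x + f x := by
  refine ⟨fun x => ∑ i ∈ Finset.range x.toNat, f i - ∑ i ∈ Finset.range (-x).toNat, f (-(i + 1)),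
    by simp, fun x => ?_⟩
  rcases le_or_gt 0 x with h0 | h0
  · have e1 : (-x).toNat = 0 := by omega
    have e2 : (-(x + 1)).toNat = 0 := by omega
    have e3 : (x + 1).toNat = x.toNat + 1 := by omega
    simp only [e1, e2, e3, Finset.range_zero, Finset.sum_empty, sub_zero, Finset.sum_range_succ]
    congr 2
    omega
  · have e1 : x.toNat = 0 := by omega
    have e2 : (x + 1).toNat = 0 := by omega
    have e3 : (-x).toNat = (-(x + 1)).toNat + 1 := by omega
    simp only [e1, e2, e3, Finset.range_zero, Finset.sum_empty, zero_sub, Finset.sum_range_succ]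
    have e4 : (-(((-(x + 1)).toNat : ℤ) + 1)) = x := by omega
    rw [e4]
    ring

/-- potentials on the plane -/
theorem pot2 (a b : ℤ → ℤ → ℤ)
    (hc : ∀ x y, a x y + b (x + 1) y = b x y + a x (y + 1)) :
    ∃ h : ℤ → ℤ → ℤ, (∀ x y, h (x + 1) y = h x y + a x y) ∧ ∀ x y, h x (y + 1) = h x y + b x y := by
  obtain ⟨S, hS0, hS⟩ := pot1 fun x => a x 0
  choose V hV0 hV using fun x => pot1 (b x)
  refine ⟨fun x y => S x + V x y, fun x y => ?_, fun x y => by
    show S x + V x (y + 1) = S x + V x y + b x y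
    rw [hV]
    ring⟩
  have key : ∀ y, V (x + 1) y - V x y = a x y - a x 0 := by
    intro y
    induction y using Int.induction_on with
    | zero => rw [hV0, hV0]; ring
    | succ i ih =>
      have h1 := hV x i
      have h2 := hV (x + 1) i
      have h3 := hc x i
      rw [h1, h2]
      linarith
    | pred i ih =>
      have h1 := hV x (-(i : ℤ) - 1)
      have h2 := hV (x + 1) (-(i : ℤ) - 1)
      have h3 := hc x (-(i : ℤ) - 1)
      rw [sub_add_cancel] at h1 h2 h3
      linarith
  show S (x + 1) + V (x + 1) y = S x + V x y + a x y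
  have h1 := key y
  have h2 := hS x
  linarith

end SF
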