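import Pool.Agent.Helper20.SF.RowDefs
import Pool.Agent.Helper20.SF.Row1

/-!
# SF, rows 3: the height of a labelling
-/

set_option autoImplicit false

namespace SF

variable {F : ℤ × ℤ → Lab} {h : ℤ → ℤ → ℤ}

/-- `h` is a height of `F` -/
structure Ht (F : ℤ × ℤ → Lab) (h : ℤ → ℤ → ℤ) : Prop where
  hx : ∀ x y, h (x + 1) y = h x y + io (F (x, y)) (F (x + 1, y))
  hy : ∀ x y, h x (y + 1) = h x y + io (F (x, y)) (F (x, y + 1))

/-- the indicator of `O` -/
def oo (c : Lab) : ℤ := if c.tau = Tau.O then 1 else 0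

theorem io_eq_one {p q : Lab} : io p q = 1 ↔ p.tau = Tau.I ∧ q.tau = Tau.O := by
  unfold io
  split_ifs with h1 h2
  · simp [h1]
  · simp [h1]
  · simp [h1]

theorem io_eq_neg {p q : Lab} : io p q = -1 ↔ p.tau = Tau.O ∧ q.tau = Tau.I := by
  unfold io
  split_ifs with h1 h2
  · simp [h1]
  · simp [h2]
  · simp [h2]

theorem io_bd (p q : Lab) : -1 ≤ io p q ∧ io p q ≤ 1 := by
  unfold io
  split_ifs <;> constructor <;> norm_num

theorem io_swap (p q : Lab) : io q p = - io p q := by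
  unfold io
  cases hp : p.tau <;> cases hq : q.tau <;> simp

theorem io_eq_zero {p q : Lab} : io p q = 0 ↔
    ¬ ((p.tau = Tau.I ∧ q.tau = Tau.O) ∨ (p.tau = Tau.O ∧ q.tau = Tau.I)) := by
  unfold io
  cases hp : p.tau <;> cases hq : q.tau <;> simp

theorem io_oo {p q : Lab} (hp : p.tau ≠ Tau.z) (hq : q.tau ≠ Tau.z) : io p q = oo q - oo p := by
  unfold io oo
  cases h1 : p.tau <;> cases h2 : q.tau <;> simp_all

/-- the block form of the height: oscillation -/
theorem Ht.block (hF : ∀ v, Rule F v) (H : Ht F h) {v p q : ℤ × ℤ} (hp : InB v p) (hq : InB v q) :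
    (Mixed F v → h q.1 q.2 - h p.1 p.2 = oo (F q) - oo (F p)) ∧
      (¬ Mixed F v → h q.1 q.2 = h p.1 p.2) := by
  obtain ⟨x, y⟩ := v
  have e1 := H.hx x y
  have e2 := H.hx x (y + 1)
  have e3 := H.hy x y
  have e4 := H.hy (x + 1) y
  have key : ∀ p : ℤ × ℤ, InB (x, y) p →
      (Mixed F (x, y) → h p.1 p.2 - h x y = oo (F p) - oo (F (x, y))) ∧
      (¬ Mixed F (x, y) → h p.1 p.2 = h x y) := by
    rintro ⟨a, b⟩ hp
    constructor
    · intro hm
      have hz := (hF (x, y)).r1 hm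
      have z1 := hz (x, y) ⟨Or.inl rfl, Or.inl rfl⟩
      have z2 := hz (x + 1, y) ⟨Or.inr rfl, Or.inl rfl⟩
      have z3 := hz (x, y + 1) ⟨Or.inl rfl, Or.inr rfl⟩
      have z4 := hz (x + 1, y + 1) ⟨Or.inr rfl, Or.inr rfl⟩
      rw [io_oo z1 z2] at e1
      rw [io_oo z3 z4] at e2
      rw [io_oo z1 z3] at e3
      rw [io_oo z2 z4] at e4
      obtain ⟨h1, h2⟩ := hp
      dsimp only at h1 h2 ⊢
      rcases h1 with rfl | rfl <;> rcases h2 with rfl | rfl
      · ring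
      · linarith
      · linarith
      · linarith
    · intro hm
      have hno : ∀ p q : ℤ × ℤ, InB (x, y) p → InB (x, y) q → io (F p) (F q) = 0 := by
        intro p q hp hq
        rw [io_eq_zero]
        rintro (⟨c1, c2⟩ | ⟨c1, c2⟩)
        · exact hm ⟨⟨p, hp, c1⟩, ⟨q, hq, c2⟩⟩
        · exact hm ⟨⟨q, hq, c2⟩, ⟨p, hp, c1⟩⟩
      have i1 : InB (x, y) (x, y) := ⟨Or.inl rfl, Or.inl rfl⟩
      have i2 : InB (x, y) (x + 1, y) := ⟨Or.inr rfl, Or.inl rfl⟩
      have i3 : InB (x, y) (x, y + 1) := ⟨Or.inl rfl, Or.inr rfl⟩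
      have i4 : InB (x, y) (x + 1, y + 1) := ⟨Or.inr rfl, Or.inr rfl⟩
      rw [hno _ _ i1 i2] at e1
      rw [hno _ _ i3 i4] at e2
      rw [hno _ _ i1 i3] at e3
      rw [hno _ _ i2 i4] at e4
      obtain ⟨h1, h2⟩ := hp
      dsimp only at h1 h2 ⊢
      rcases h1 with rfl | rfl <;> rcases h2 with rfl | rfl
      · rfl
      · linarith
      · linarith
      · linarith
  have k1 := key p hp
  have k2 := key q hq
  constructor
  · intro hm
    have := k1.1 hm
    have := k2.1 hm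
    linarith
  · intro hm
    rw [k1.2 hm, k2.2 hm]

theorem oo_cases (c : Lab) : (oo c = 1 ∧ c.tau = Tau.O) ∨ (oo c = 0 ∧ c.tau ≠ Tau.O) := by
  unfold oo
  split_ifs with h1
  · exact Or.inl ⟨rfl, h1⟩
  · exact Or.inr ⟨rfl, h1⟩

theorem exists_ht (hF : ∀ v, Rule F v) : ∃ h, Ht F h := by
  obtain ⟨h, h1, h2⟩ := pot2 (fun x y => io (F (x, y)) (F (x + 1, y)))
    (fun x y => io (F (x, y)) (F (x, y + 1))) (by
      intro x y
      by_cases hm : Mixed F (x, y)
      · have hz := (hF (x, y)).r1 hm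
        have z1 := hz (x, y) ⟨Or.inl rfl, Or.inl rfl⟩
        have z2 := hz (x + 1, y) ⟨Or.inr rfl, Or.inl rfl⟩
        have z3 := hz (x, y + 1) ⟨Or.inl rfl, Or.inr rfl⟩
        have z4 := hz (x + 1, y + 1) ⟨Or.inr rfl, Or.inr rfl⟩
        rw [io_oo z1 z2, io_oo z3 z4, io_oo z1 z3, io_oo z2 z4]
        ring
      · have hno : ∀ p q : ℤ × ℤ, InB (x, y) p → InB (x, y) q → io (F p) (F q) = 0 := by
          intro p q hp hq
          rw [io_eq_zero]
          rintro (⟨c1, c2⟩ | ⟨c1, c2⟩)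
          · exact hm ⟨⟨p, hp, c1⟩, ⟨q, hq, c2⟩⟩
          · exact hm ⟨⟨q, hq, c2⟩, ⟨p, hp, c1⟩⟩
        have i1 : InB (x, y) (x, y) := ⟨Or.inl rfl, Or.inl rfl⟩
        have i2 : InB (x, y) (x + 1, y) := ⟨Or.inr rfl, Or.inl rfl⟩
        have i3 : InB (x, y) (x, y + 1) := ⟨Or.inl rfl, Or.inr rfl⟩
        have i4 : InB (x, y) (x + 1, y + 1) := ⟨Or.inr rfl, Or.inr rfl⟩
        rw [hno _ _ i1 i2, hno _ _ i3 i4, hno _ _ i1 i3, hno _ _ i2 i4])
  exact ⟨h, h1, h2⟩

theorem Ht.lx (H : Ht F h) (x y : ℤ) {s : ℤ} (hs : Sg s) : h (x + s) y ≤ h x y + 1 := by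
  rcases hs with rfl | rfl
  · have := H.hx x y
    have := io_bd (F (x, y)) (F (x + 1, y))
    omega
  · have e := H.hx (x + -1) y
    have := io_bd (F (x + -1, y)) (F (x + -1 + 1, y))
    rw [neg_add_cancel_right] at e this
    omega

theorem Ht.ly (H : Ht F h) (x y : ℤ) {s : ℤ} (hs : Sg s) : h x (y + s) ≤ h x y + 1 := by
  rcases hs with rfl | rfl
  · have := H.hy x y
    have := io_bd (F (x, y)) (F (x, y + 1))
    omega
  · have e := H.hy x (y + -1)
    have := io_bd (F (x, y + -1)) (F (x, y + -1 + 1))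
    rw [neg_add_cancel_right] at e this
    omega

/-- the corner of the block of two diagonal cells -/
theorem exists_corner (x y : ℤ) {s t : ℤ} (hs : Sg s) (ht : Sg t) : ∃ v : ℤ × ℤ,
    InB v (x, y) ∧ InB v (x + s, y) ∧ InB v (x, y + t) ∧ InB v (x + s, y + t) := by
  rcases hs with rfl | rfl <;> rcases ht with rfl | rfl
  · exact ⟨(x, y), by simp [InB], by simp [InB], by simp [InB], by simp [InB]⟩
  · exact ⟨(x, y + -1), by simp [InB], by simp [InB], by simp [InB], by simp [InB]⟩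
  · exact ⟨(x + -1, y), by simp [InB], by simp [InB], by simp [InB], by simp [InB]⟩
  · exact ⟨(x + -1, y + -1), by simp [InB], by simp [InB], by simp [InB], by simp [InB]⟩

/-- the four cells around a corner, no checkerboard -/
theorem no_chk (hF : ∀ v, Rule F v) (x y : ℤ) {s t : ℤ} (hs : Sg s) (ht : Sg t) :
    ¬ ((F (x, y)).tau = Tau.I ∧ (F (x + s, y + t)).tau = Tau.I ∧ (F (x + s, y)).tau = Tau.O ∧
      (F (x, y + t)).tau = Tau.O) ∧
    ¬ ((F (x, y)).tau = Tau.O ∧ (F (x + s, y + t)).tau = Tau.O ∧ (F (x + s, y)).tau = Tau.I ∧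
      (F (x, y + t)).tau = Tau.I) := by
  rcases hs with rfl | rfl <;> rcases ht with rfl | rfl
  · exact (hF (x, y)).r1c
  · have := (hF (x, y + -1)).r1c
    simp only [neg_add_cancel_right] at this
    tauto
  · have := (hF (x + -1, y)).r1c
    simp only [neg_add_cancel_right] at this
    tauto
  · have := (hF (x + -1, y + -1)).r1c
    simp only [neg_add_cancel_right] at this
    tauto

theorem Ht.hq (hF : ∀ v, Rule F v) (H : Ht F h) : Hq h where
  lx x y s hs := H.lx x y hs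
  ly x y t ht := H.ly x y ht
  osc x y s t hs ht := by
    obtain ⟨v, v1, v2, v3, v4⟩ := exists_corner x y hs ht
    have e := H.block hF v1 v4
    dsimp only at e
    by_cases hm : Mixed F v
    · have e1 := e.1 hm
      rcases oo_cases (F (x, y)) with ⟨c1, -⟩ | ⟨c1, -⟩ <;>
        rcases oo_cases (F (x + s, y + t)) with ⟨c2, -⟩ | ⟨c2, -⟩ <;> rw [c1, c2] at e1 <;> omega
    · have e1 := e.2 hm
      omega
  chk x y s t hs ht h1 h2 := by
    obtain ⟨v, v1, v2, v3, v4⟩ := exists_corner x y hs ht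
    by_cases hm : Mixed F v
    · have hz := (hF v).r1 hm
      have e2 := (H.block hF v1 v2).1 hm
      have e3 := (H.block hF v1 v3).1 hm
      have e4 := (H.block hF v1 v4).1 hm
      dsimp only at e2 e3 e4
      have hc := no_chk hF x y hs ht
      have z1 := hz _ v1
      have z2 := hz _ v2
      have z3 := hz _ v3
      have z4 := hz _ v4
      by_contra hne
      rcases oo_cases (F (x, y)) with ⟨c1, d1⟩ | ⟨c1, d1⟩ <;>
        rcases oo_cases (F (x + s, y + t)) with ⟨c2, d2⟩ | ⟨c2, d2⟩ <;>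
        rcases oo_cases (F (x + s, y)) with ⟨c3, d3⟩ | ⟨c3, d3⟩ <;>
        rcases oo_cases (F (x, y + t)) with ⟨c4, d4⟩ | ⟨c4, d4⟩ <;>
        rw [c1] at e2 e3 e4 <;> rw [c2] at e4 <;> rw [c3] at e2 <;> rw [c4] at e3 <;>
        first
        | (exfalso; omega)
        | skip
      · refine hc.2 ⟨d1, d2, ?_, ?_⟩
        · revert z2 d3
          cases (F (x + s, y)).tau <;> simp
        · revert z3 d4
          cases (F (x, y + t)).tau <;> simp
      · refine hc.1 ⟨?_, ?_, d3, d4⟩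
        · revert z1 d1
          cases (F (x, y)).tau <;> simp
        · revert z4 d2
          cases (F (x + s, y + t)).tau <;> simp
    · exact (H.block hF v1 v2).2 hm
  r2 x y t ht h1 := by
    have hI : (F (x, y)).tau = Tau.I ∧ (F (x, y + t)).tau = Tau.O := by
      rcases ht with rfl | rfl
      · have e := H.hy x y
        exact io_eq_one.1 (by omega)
      · have e := H.hy x (y + -1)
        rw [neg_add_cancel_right] at e
        exact (io_eq_neg.1 (by omega)).symm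
    have h2 := (hF (x, y)).r2 hI.1 (by
      rcases ht with rfl | rfl
      · exact Or.inl hI.2
      · right
        rw [sub_eq_add_neg]
        exact hI.2)
    dsimp only at h2
    rcases h2 with h2 | h2
    · left
      have e := H.hx x y
      have := io_eq_one.2 ⟨hI.1, h2⟩
      omega
    · right
      have e := H.hx (x - 1) y
      rw [sub_add_cancel] at e
      have := io_eq_neg.2 ⟨h2, hI.1⟩
      omega

theorem Ht.lw (H : Ht F h) (x y : ℤ) : LW F (x, y) ↔ h (x - 1) y = h x y + 1 := by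
  have e := H.hx (x - 1) y
  rw [sub_add_cancel] at e
  unfold LW
  constructor
  · rintro ⟨h1, h2⟩
    have := io_eq_neg.2 ⟨h2, h1⟩
    dsimp only at this
    omega
  · intro h1
    have := io_eq_neg.1 (show io (F (x - 1, y)) (F (x, y)) = -1 by omega)
    exact ⟨this.2, this.1⟩

theorem Ht.rw (H : Ht F h) (x y : ℤ) : RW F (x, y) ↔ h (x + 1) y = h x y + 1 := by
  have e := H.hx x y
  unfold RW
  constructor
  · rintro ⟨h1, h2⟩
    have := io_eq_one.2 ⟨h1, h2⟩
    dsimp only at this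
    omega
  · intro h1
    exact io_eq_one.1 (show io (F (x, y)) (F (x + 1, y)) = 1 by omega)

theorem Ht.rel (H : Ht F h) (v : ℤ × ℤ) (i : ℕ) : rel F v i = h (v.1 + i) v.2 - h v.1 v.2 := by
  induction i with
  | zero => simp [SF.rel]
  | succ i ih =>
    unfold SF.rel at ih ⊢
    rw [Finset.sum_range_succ, ih]
    have e := H.hx (v.1 + i) v.2
    push_cast
    rw [← add_assoc, e]
    ring

theorem Ht.fr (H : Ht F h) (v : ℤ × ℤ) (l : ℕ) :
    FR F v l ↔ RunH h (h v.1 v.2) v.1 (v.1 + l) v.2 := by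
  unfold FR
  simp only [H.rel]
  have e0 : LW F v ↔ h (v.1 - 1) v.2 = h v.1 v.2 + 1 := H.lw v.1 v.2
  rw [e0]
  constructor
  · rintro ⟨h1, h2, h3⟩
    refine ⟨by omega, h1, ?_, ?_⟩
    · push_cast at h3
      rw [← add_assoc] at h3
      linarith
    · intro x hx1 hx2
      have := h2 (x - v.1).toNat (by omega)
      rw [Int.toNat_of_nonneg (by omega), add_sub_cancel] at this
      linarith
  · intro R
    refine ⟨R.l, fun i hi => ?_, ?_⟩
    · have := R.m (v.1 + i) (by omega) (by omega)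
      linarith
    · have := R.r
      push_cast
      rw [← add_assoc, this]
      ring

theorem Ht.ir (H : Ht F h) (v : ℤ × ℤ) :
    IR F v ↔ h (v.1 - 1) v.2 = h v.1 v.2 + 1 ∧ ∀ x, v.1 ≤ x → h x v.2 ≤ h v.1 v.2 := by
  unfold IR
  simp only [H.rel]
  have e0 : LW F v ↔ h (v.1 - 1) v.2 = h v.1 v.2 + 1 := H.lw v.1 v.2
  rw [e0]
  refine and_congr_right fun _ => ⟨fun h2 x hx => ?_, fun h2 i => ?_⟩
  · have := h2 (x - v.1).toNat
    rw [Int.toNat_of_nonneg (by omega), add_sub_cancel] at this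
    linarith
  · have := h2 (v.1 + i) (by omega)
    linarith

theorem Ht.ic (H : Ht F h) (v : ℤ × ℤ) (l : ℕ) :
    IC F v l ↔ h (v.1 - 1) v.2 = h v.1 v.2 + 1 ∧ (∀ x, v.1 ≤ x → h x v.2 ≤ h v.1 v.2) ∧
      h (v.1 + l) v.2 = h v.1 v.2 ∧ ∀ x, v.1 + l < x → h x v.2 ≤ h v.1 v.2 - 1 := by
  unfold IC
  rw [H.ir v]
  simp only [H.rel]
  constructor
  · rintro ⟨⟨h1, h2⟩, h3, h4⟩
    refine ⟨h1, h2, by linarith, fun x hx => ?_⟩
    have := h4 (x - v.1).toNat (by omega)
    rw [Int.toNat_of_nonneg (by omega), add_sub_cancel] at this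
    linarith
  · rintro ⟨h1, h2, h3, h4⟩
    refine ⟨⟨h1, h2⟩, by linarith, fun i hi => ?_⟩
    have := h4 (v.1 + i) (by omega)
    linarith

/-- neighbours on a wall have the same height -/
theorem Ht.dn (hF : ∀ v, Rule F v) (H : Ht F h) {u v : ℤ × ℤ} (hd : Dn F u v) :
    h (u.1 - 1) u.2 = h u.1 u.2 + 1 ∧ h (v.1 - 1) v.2 = h v.1 v.2 + 1 ∧ v.2 + 1 = u.2 ∧
      (v.1 = u.1 ∨ v.1 = u.1 - 1 ∨ v.1 = u.1 + 1) ∧ h v.1 v.2 = h u.1 u.2 := by
  obtain ⟨h1, h2, h3, h4⟩ := hd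
  have e1 : h (u.1 - 1) u.2 = h u.1 u.2 + 1 := (H.lw u.1 u.2).1 h1
  have e2 : h (v.1 - 1) v.2 = h v.1 v.2 + 1 := (H.lw v.1 v.2).1 h2
  refine ⟨e1, e2, h3, h4, ?_⟩
  have t1 : (F u).tau = Tau.I := h1.1
  have t2 : (F v).tau = Tau.I := h2.1
  have t3 : (F (u.1 - 1, u.2)).tau = Tau.O := h1.2
  have t4 : (F (v.1 - 1, v.2)).tau = Tau.O := h2.2
  obtain ⟨a, b⟩ := u
  obtain ⟨c, d⟩ := v
  dsimp only at *
  subst h3
  have key : ∀ w : ℤ × ℤ, InB w (a, d + 1) → InB w (c, d) → Mixed F w → h c d = h a (d + 1) := by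
    intro w w1 w2 hm
    have := (H.block hF w1 w2).1 hm
    unfold oo at this
    dsimp only at this
    rw [t1, t2] at this
    simp at this
    linarith
  rcases h4 with rfl | rfl | rfl
  · have e := H.hy c d
    have : io (F (c, d)) (F (c, d + 1)) = 0 := by
      rw [io_eq_zero, t1, t2]
      simp
    omega
  · refine key (a - 1, d) (by simp [InB]) (by simp [InB]) ⟨⟨_, ?_, t1⟩, ⟨_, ?_, t3⟩⟩ <;>
      simp [InB]
  · refine key (a, d) (by simp [InB]) (by simp [InB]) ⟨⟨_, ?_, t1⟩, ⟨_, ?_, t4⟩⟩ <;>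
      simp [InB]

theorem Ht.dn_iff (hF : ∀ v, Rule F v) (H : Ht F h) {u v : ℤ × ℤ} : Dn F u v ↔
    (h (u.1 - 1) u.2 = h u.1 u.2 + 1 ∧ h (v.1 - 1) v.2 = h v.1 v.2 + 1 ∧ v.2 + 1 = u.2 ∧
      (v.1 = u.1 ∨ v.1 = u.1 - 1 ∨ v.1 = u.1 + 1)) := by
  constructor
  · intro hd
    obtain ⟨h1, h2, h3, h4, -⟩ := H.dn hF hd
    exact ⟨h1, h2, h3, h4⟩
  · rintro ⟨h1, h2, h3, h4⟩
    exact ⟨(H.lw u.1 u.2).2 h1, (H.lw v.1 v.2).2 h2, h3, h4⟩

/-- two left ends of level `k` in the next row are equal -/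
theorem Hq.uniq (H : Hq h) {k s a b y t : ℤ} (ht : Sg t) (h1 : h (s - 1) y = k + 1) (h2 : h s y = k)
    (ha : a = s ∨ a = s - 1 ∨ a = s + 1) (hb : b = s ∨ b = s - 1 ∨ b = s + 1)
    (a1 : h (a - 1) (y + t) = k + 1) (a2 : h a (y + t) = k) (b1 : h (b - 1) (y + t) = k + 1)
    (b2 : h b (y + t) = k) : a = b := by
  have key : ∀ a b : ℤ, (a = s ∨ a = s - 1 ∨ a = s + 1) → (b = s ∨ b = s - 1 ∨ b = s + 1) →
      h (a - 1) (y + t) = k + 1 → h a (y + t) = k → h (b - 1) (y + t) = k + 1 →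
      h b (y + t) = k → ¬ a < b := by
    intro a b ha hb a1 a2 b1 b2 hlt
    by_cases h3 : b = a + 1
    · subst h3
      rw [add_sub_cancel_right] at b1
      omega
    · have e1 : a = s - 1 := by omega
      have e2 : b = s + 1 := by omega
      subst e1 e2
      rw [add_sub_cancel_right] at b1
      have := H.chk s y (-1) t (Or.inr rfl) ht
      rw [← sub_eq_add_neg] at this
      have := this (by omega) (by omega)
      omega
  rcases lt_trichotomy a b with h3 | h3 | h3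
  · exact absurd h3 (key a b ha hb a1 a2 b1 b2)
  · exact h3
  · exact absurd h3 (key b a hb ha b1 b2 a1 a2)

theorem dn_fun0 (hF : ∀ v, Rule F v) {u v v' : ℤ × ℤ} (hd : Dn F u v) (hd' : Dn F u v') :
    v = v' := by
  obtain ⟨h, H⟩ := exists_ht hF
  obtain ⟨a1, a2, a3, a4, a5⟩ := H.dn hF hd
  obtain ⟨b1, b2, b3, b4, b5⟩ := H.dn hF hd'
  obtain ⟨x, y⟩ := u
  obtain ⟨p, q⟩ := v
  obtain ⟨p', q'⟩ := v'
  dsimp only at *
  have e1 : q = y + -1 := by omega
  have e2 : q' = y + -1 := by omega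
  subst e1 e2
  have := (H.hq hF).uniq (k := h x y) (t := -1) (Or.inr rfl) a1 rfl a4 b4 (by omega) (by omega)
    (by omega) (by omega)
  rw [this]

theorem dn_inj0 (hF : ∀ v, Rule F v) {u u' v : ℤ × ℤ} (hd : Dn F u v) (hd' : Dn F u' v) :
    u = u' := by
  obtain ⟨h, H⟩ := exists_ht hF
  obtain ⟨a1, a2, a3, a4, a5⟩ := H.dn hF hd
  obtain ⟨b1, b2, b3, b4, b5⟩ := H.dn hF hd'
  obtain ⟨x, y⟩ := v
  obtain ⟨p, q⟩ := u
  obtain ⟨p', q'⟩ := u'
  dsimp only at *
  subst a3 b3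
  have := (H.hq hF).uniq (k := h x y) (t := 1) (Or.inl rfl) a2 rfl (a := p) (b := p') (by omega)
    (by omega) (by omega) (by omega) (by omega) (by omega)
  rw [this]

theorem fr_fun0 {v : ℤ × ℤ} {l l' : ℕ} (h1 : FR F v l) (h2 : FR F v l') : l = l' := by
  rcases lt_trichotomy l l' with h3 | h3 | h3
  · have := h2.2.1 (l + 1) (by omega)
    have := h1.2.2
    omega
  · exact h3
  · have := h1.2.1 (l' + 1) (by omega)
    have := h2.2.2
    omega

theorem ic_fun0 {v : ℤ × ℤ} {l l' : ℕ} (h1 : IC F v l) (h2 : IC F v l') : l = l' := by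
  rcases lt_trichotomy l l' with h3 | h3 | h3
  · have := h1.2.2 l' h3
    have := h2.2.1
    omega
  · exact h3
  · have := h2.2.2 l h3
    have := h1.2.1
    omega

theorem dn_tick0 (hF : ∀ v, Rule F v) {u v : ℤ × ℤ} (hd : Dn F u v) : Tick F u v := by
  obtain ⟨h1, h2, h3, h4⟩ := hd
  obtain ⟨a1, a2, a3⟩ := (hF v).r7 h2
  obtain ⟨x, y⟩ := u
  dsimp only at h3 h4
  subst h3
  rcases h4 with h4 | h4 | h4
  · subst h4
    exact (a1 h1).1
  · have : x = v.1 + 1 := by omega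
    subst this
    exact (a2 h1).1
  · have : x = v.1 - 1 := by omega
    subst this
    exact (a3 h1).1

theorem ic_of0 (hF : ∀ v, Rule F v) {v : ℤ × ℤ} (h1 : IR F v) {j : ℕ} (hj : 0 < j)
    (h2 : IR F (v.1 + j, v.2)) : ∃ l, IC F v l := by
  obtain ⟨h, H⟩ := exists_ht hF
  rw [H.ir] at h1 h2
  dsimp only at h2
  obtain ⟨a1, a2⟩ := h1
  obtain ⟨b1, b2⟩ := h2
  have e1 := a2 (v.1 + j - 1) (by omega)
  classical
  have hP : (fun i : ℕ => h (v.1 + i) v.2 = h v.1 v.2) 0 := by simp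
  have g1 := Nat.findGreatest_spec (P := fun i : ℕ => h (v.1 + i) v.2 = h v.1 v.2)
    (Nat.zero_le (j - 1)) hP
  set l := Nat.findGreatest (fun i : ℕ => h (v.1 + i) v.2 = h v.1 v.2) (j - 1) with hl
  refine ⟨l, (H.ic v l).2 ⟨a1, a2, g1, fun x hx => ?_⟩⟩
  by_cases hxj : v.1 + j ≤ x
  · have := b2 x hxj
    omega
  · have e2 := a2 x (by omega)
    have e3 : h x v.2 ≠ h v.1 v.2 := by
      intro he
      refine Nat.findGreatest_is_greatest (P := fun i : ℕ => h (v.1 + i) v.2 = h v.1 v.2)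
        (n := j - 1) (k := (x - v.1).toNat) (by omega) (by omega) ?_
      show h (v.1 + ((x - v.1).toNat : ℤ)) v.2 = h v.1 v.2
      rw [Int.toNat_of_nonneg (by omega), add_sub_cancel]
      exact he
    omega

end SF
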