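import Pool.Agent.Helper20.SF.Row2

/-!
# SF, rows 4: the sums of the increments
-/

set_option autoImplicit false

namespace SF

variable {F : ℤ × ℤ → Lab} {h : ℤ → ℤ → ℤ}

theorem dl_zero : dl 0 = 0 := rfl

theorem dl_neg (x : ZMod 3) : dl (-x) = - dl x := by
  revert x
  decide

theorem dl_swap (x y : ZMod 3) : dl (x - y) = - dl (y - x) := by
  rw [← dl_neg, neg_sub]

theorem dl_abs (x : ZMod 3) : |dl x| ≤ 1 := by
  revert x
  decide

/-- horizontal increments at level `k` -/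
def ak (F : ℤ × ℤ → Lab) (h : ℤ → ℤ → ℤ) (k x y : ℤ) : ℤ :=
  if h x y = k ∧ h (x + 1) y = k then dl ((F (x + 1, y)).g - (F (x, y)).g) else 0

/-- vertical increments at level `k` -/
def bk (F : ℤ × ℤ → Lab) (h : ℤ → ℤ → ℤ) (k x y : ℤ) : ℤ :=
  if h x y = k ∧ h x (y + 1) = k then dl ((F (x, y + 1)).g - (F (x, y)).g) else 0

/-- cells of a mixed block of the maximal height are outer cells -/
theorem Ht.top (hF : ∀ v, Rule F v) (H : Ht F h) {v p : ℤ × ℤ} {k : ℤ} (hm : Mixed F v)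
    (hk : ∀ p, InB v p → h p.1 p.2 ≤ k) (hp : InB v p) (hpk : h p.1 p.2 = k) :
    (F p).tau = Tau.O := by
  obtain ⟨q, hq, hq2⟩ := hm.2
  have e := (H.block hF hq hp).1 hm
  have := hk q hq
  rcases oo_cases (F p) with ⟨c1, c2⟩ | ⟨c1, c2⟩
  · exact c2
  · rcases oo_cases (F q) with ⟨d1, d2⟩ | ⟨d1, d2⟩
    · omega
    · exact absurd hq2 d2

/-- the block is closed -/
theorem Ht.closed (hF : ∀ v, Rule F v) (H : Ht F h) {k x y : ℤ}
    (hk : ∀ p, InB (x, y) p → h p.1 p.2 ≤ k) :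
    ak F h k x y + bk F h k (x + 1) y = bk F h k x y + ak F h k x (y + 1) := by
  have i1 : InB (x, y) (x, y) := ⟨Or.inl rfl, Or.inl rfl⟩
  have i2 : InB (x, y) (x + 1, y) := ⟨Or.inr rfl, Or.inl rfl⟩
  have i3 : InB (x, y) (x, y + 1) := ⟨Or.inl rfl, Or.inr rfl⟩
  have i4 : InB (x, y) (x + 1, y + 1) := ⟨Or.inr rfl, Or.inr rfl⟩
  by_cases hm : Mixed F (x, y)
  · have z : ∀ p q : ℤ × ℤ, InB (x, y) p → InB (x, y) q →
        (if h p.1 p.2 = k ∧ h q.1 q.2 = k then dl ((F q).g - (F p).g) else 0) = 0 := by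
      intro p q hp hq
      split_ifs with hc
      · have e := ((hF (x, y)).r5 hm p q hp hq (H.top hF hm hk hp hc.1)
          (H.top hF hm hk hq hc.2)).1
        rw [e, sub_self, dl_zero]
      · rfl
    have z1 : ak F h k x y = 0 := z _ _ i1 i2
    have z2 : ak F h k x (y + 1) = 0 := z _ _ i3 i4
    have z3 : bk F h k x y = 0 := z _ _ i1 i3
    have z4 : bk F h k (x + 1) y = 0 := z _ _ i2 i4
    rw [z1, z2, z3, z4]
  · have e2 : h (x + 1) y = h x y := (H.block hF i1 i2).2 hm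
    have e3 : h x (y + 1) = h x y := (H.block hF i1 i3).2 hm
    have e4 : h (x + 1) (y + 1) = h x y := (H.block hF i1 i4).2 hm
    unfold ak bk
    rw [e2, e3, e4]
    by_cases hc : h x y = k
    · have := (hF (x, y)).r3 hm Lab.g (by simp)
      simp only [dl2] at this
      simpa only [hc, and_self, if_true] using this
    · simp [hc]

/-- summed closedness -/
theorem Ht.strip1 (hF : ∀ v, Rule F v) (H : Ht F h) {k y S T : ℤ} (hST : S ≤ T)
    (m0 : ∀ x, S ≤ x → x ≤ T → h x y ≤ k) (m1 : ∀ x, S ≤ x → x ≤ T → h x (y + 1) ≤ k)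
    {A0 A1 : ℤ → ℤ} (a0 : ∀ x, A0 (x + 1) = A0 x + ak F h k x y)
    (a1 : ∀ x, A1 (x + 1) = A1 x + ak F h k x (y + 1)) :
    A0 T + bk F h k T y - A1 T = A0 S + bk F h k S y - A1 S := by
  have key : ∀ n : ℕ, S + n ≤ T →
      A0 (S + n) + bk F h k (S + n) y - A1 (S + n) = A0 S + bk F h k S y - A1 S := by
    intro n
    induction n with
    | zero => simp
    | succ n ih =>
      intro hn
      push_cast at hn ⊢
      rw [← ih (by omega), ← add_assoc]
      have := H.closed hF (k := k) (x := S + n) (y := y) (by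
        rintro ⟨a, b⟩ ⟨h1, h2⟩
        dsimp only at h1 h2 ⊢
        rcases h2 with rfl | rfl
        · exact m0 a (by omega) (by omega)
        · exact m1 a (by omega) (by omega))
      rw [a0, a1]
      linarith
  have := key (T - S).toNat (by omega)
  rw [Int.toNat_of_nonneg (by omega), add_sub_cancel] at this
  exact this

/-- the left ends -/
theorem Ht.leftE (hF : ∀ v, Rule F v) (H : Ht F h) {k y s0 s1 : ℤ}
    (hs : s0 = s1 ∨ s0 = s1 - 1 ∨ s0 = s1 + 1) (l0 : h (s0 - 1) y = k + 1) (k0 : h s0 y = k)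
    (l1 : h (s1 - 1) (y + 1) = k + 1) (k1 : h s1 (y + 1) = k)
    {A0 A1 : ℤ → ℤ} (a0 : ∀ x, A0 (x + 1) = A0 x + ak F h k x y)
    (a1 : ∀ x, A1 (x + 1) = A1 x + ak F h k x (y + 1)) :
    A0 (max s0 s1) + bk F h k (max s0 s1) y - A1 (max s0 s1) =
      A0 s0 - A1 s1 - inc (F (s0, y)) := by
  have w0 : LW F (s0, y) := (H.lw s0 y).2 (by omega)
  have w1 : LW F (s1, y + 1) := (H.lw s1 (y + 1)).2 (by omega)
  obtain ⟨b1, b2, b3⟩ := (hF (s0, y)).r7 w0
  rcases hs with rfl | rfl | rfl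
  · have e := (b1 w1).2
    rw [max_self]
    have e2 : bk F h k s0 y = dl ((F (s0, y + 1)).g - (F (s0, y)).g) := by
      unfold bk
      rw [if_pos ⟨k0, k1⟩]
    rw [e2, ← e]
    dsimp only
    rw [dl_swap]
    ring
  · -- `u = v + (1, 1)`
    have w1' : LW F (s1 - 1 + 1, y + 1) := by
      rw [sub_add_cancel]
      exact w1
    have e := (b2 w1').2
    rw [max_eq_right (by omega)]
    have hc : h s1 y = k := by
      have q1 := (H.hq hF).chk (s1 - 1) y 1 1 (Or.inl rfl) (Or.inl rfl)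
      have q2 := (H.hq hF).osc (s1 - 1) (y + 1) 1 (-1) (Or.inl rfl) (Or.inr rfl)
      have q3 := (H.hq hF).osc s1 y (-1) 1 (Or.inr rfl) (Or.inl rfl)
      rw [sub_add_cancel] at q1
      rw [sub_add_cancel, add_neg_cancel_right] at q2
      rw [← sub_eq_add_neg] at q3
      have q4 : h s1 y ≤ k + 1 := by
        have := H.lx (s1 - 1) y (s := 1) (Or.inl rfl)
        rw [sub_add_cancel] at this
        omega
      by_contra hne
      have q5 : h s1 y = k + 1 := by omega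
      have := q1 (by omega) (by omega)
      omega
    have e2 : bk F h k s1 y = dl ((F (s1, y + 1)).g - (F (s1, y)).g) := by
      unfold bk
      rw [if_pos ⟨hc, k1⟩]
    have e3 : ak F h k (s1 - 1) y = dl ((F (s1, y)).g - (F (s1 - 1, y)).g) := by
      unfold ak
      rw [sub_add_cancel, if_pos ⟨k0, hc⟩]
    have e4 := a0 (s1 - 1)
    rw [sub_add_cancel] at e4
    rw [e4, e2, e3, ← e]
    simp only [dl2, sub_add_cancel]
    rw [dl_swap (F (s1, y)).g (F (s1, y + 1)).g, dl_swap (F (s1 - 1, y)).g (F (s1, y)).g]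
    ring
  · -- `u = v + (-1, 1)`
    have w1' : LW F (s1 + 1 - 1, y + 1) := by
      rw [add_sub_cancel_right]
      exact w1
    have e := (b3 w1').2
    rw [max_eq_left (by omega)]
    rw [add_sub_cancel_right] at l0
    have hc : h (s1 + 1) (y + 1) = k := by
      have q1 := (H.hq hF).chk s1 y 1 1 (Or.inl rfl) (Or.inl rfl)
      have q2 := (H.hq hF).osc s1 y 1 1 (Or.inl rfl) (Or.inl rfl)
      have q3 := H.lx s1 (y + 1) (s := 1) (Or.inl rfl)
      have q4 := (H.hq hF).osc (s1 + 1) (y + 1) (-1) (-1) (Or.inr rfl) (Or.inr rfl)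
      rw [add_neg_cancel_right, add_neg_cancel_right] at q4
      by_contra hne
      have q5 : h (s1 + 1) (y + 1) = k + 1 := by omega
      have := q1 (by omega) (by omega)
      omega
    have e2 : bk F h k (s1 + 1) y = dl ((F (s1 + 1, y + 1)).g - (F (s1 + 1, y)).g) := by
      unfold bk
      rw [if_pos ⟨k0, hc⟩]
    have e3 : ak F h k s1 (y + 1) = dl ((F (s1 + 1, y + 1)).g - (F (s1, y + 1)).g) := by
      unfold ak
      rw [if_pos ⟨k1, hc⟩]
    rw [a1 s1, e2, e3, ← e]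
    simp only [dl2, add_sub_cancel_right]
    rw [dl_swap (F (s1 + 1, y)).g (F (s1 + 1, y + 1)).g]
    ring

/-- the strip -/
theorem Ht.strip (hF : ∀ v, Rule F v) (H : Ht F h) {k y s0 s1 t0 t1 : ℤ}
    (hs : s0 = s1 ∨ s0 = s1 - 1 ∨ s0 = s1 + 1) (l0 : h (s0 - 1) y = k + 1) (k0 : h s0 y = k)
    (l1 : h (s1 - 1) (y + 1) = k + 1) (k1 : h s1 (y + 1) = k)
    (ht : t0 = t1 ∨ t0 = t1 - 1 ∨ t0 = t1 + 1) (hST : max s0 s1 ≤ min t0 t1)
    (m0 : ∀ x, s0 ≤ x → x ≤ t0 → h x y ≤ k) (m1 : ∀ x, s1 ≤ x → x ≤ t1 → h x (y + 1) ≤ k)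
    (hR : bk F h k (min t0 t1) y = 0 ∧ (min t0 t1 < t0 → ak F h k (min t0 t1) y = 0) ∧
      (min t0 t1 < t1 → ak F h k (min t0 t1) (y + 1) = 0))
    {A0 A1 : ℤ → ℤ} (a0 : ∀ x, A0 (x + 1) = A0 x + ak F h k x y)
    (a1 : ∀ x, A1 (x + 1) = A1 x + ak F h k x (y + 1)) :
    A0 t0 - A0 s0 = A1 t1 - A1 s1 - inc (F (s0, y)) := by
  have e1 := H.leftE hF hs l0 k0 l1 k1 a0 a1
  have e2 := H.strip1 hF (k := k) (y := y) hST (fun x b1 b2 => m0 x (by omega) (by omega))
    (fun x b1 b2 => m1 x (by omega) (by omega)) a0 a1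
  obtain ⟨r1, r2, r3⟩ := hR
  have e3 : A0 (min t0 t1) = A0 t0 := by
    rcases lt_or_ge (min t0 t1) t0 with hlt | hge
    · have e4 := a0 (min t0 t1)
      rw [r2 hlt, add_zero] at e4
      rw [← e4]
      congr 1
      omega
    · congr 1
      omega
  have e5 : A1 (min t0 t1) = A1 t1 := by
    rcases lt_or_ge (min t0 t1) t1 with hlt | hge
    · have e4 := a1 (min t0 t1)
      rw [r3 hlt, add_zero] at e4
      rw [← e4]
      congr 1
      omega
    · congr 1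
      omega
  rw [r1, e3, e5] at e2
  linarith

/-- the right ends, finite runs -/
theorem Ht.rightF (hF : ∀ v, Rule F v) (H : Ht F h) {k y t0 t1 : ℤ}
    (ht : t0 = t1 ∨ t0 = t1 - 1 ∨ t0 = t1 + 1)
    (m0 : ∀ x, min t0 t1 ≤ x → x ≤ t0 → h x y ≤ k)
    (m1 : ∀ x, min t0 t1 ≤ x → x ≤ t1 → h x (y + 1) ≤ k)
    (r0 : h (t0 + 1) y = k + 1) (k0 : h t0 y = k) (r1 : h (t1 + 1) (y + 1) = k + 1)
    (k1 : h t1 (y + 1) = k) :
    bk F h k (min t0 t1) y = 0 ∧ (min t0 t1 < t0 → ak F h k (min t0 t1) y = 0) ∧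
      (min t0 t1 < t1 → ak F h k (min t0 t1) (y + 1) = 0) := by
  have w0 : RW F (t0, y) := (H.rw t0 y).2 (by omega)
  have w1 : RW F (t1, y + 1) := (H.rw t1 (y + 1)).2 (by omega)
  have i1 : InB (min t0 t1, y) (min t0 t1, y) := ⟨Or.inl rfl, Or.inl rfl⟩
  have i2 : InB (min t0 t1, y) (min t0 t1 + 1, y) := ⟨Or.inr rfl, Or.inl rfl⟩
  have i3 : InB (min t0 t1, y) (min t0 t1, y + 1) := ⟨Or.inl rfl, Or.inr rfl⟩
  have i4 : InB (min t0 t1, y) (min t0 t1 + 1, y + 1) := ⟨Or.inr rfl, Or.inr rfl⟩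
  have hm : Mixed F (min t0 t1, y) := by
    rcases ht with rfl | rfl | rfl
    · rw [min_self] at *
      exact ⟨⟨_, i1, w0.1⟩, ⟨_, i2, w0.2⟩⟩
    · rw [min_eq_left (by omega)] at *
      exact ⟨⟨_, i1, w0.1⟩, ⟨_, i2, w0.2⟩⟩
    · rw [min_eq_right (by omega)] at *
      exact ⟨⟨_, i3, w1.1⟩, ⟨_, i4, w1.2⟩⟩
  have hR : ∃ p, InB (min t0 t1, y) p ∧ RW F p := by
    rcases ht with rfl | rfl | rfl
    · rw [min_self] at *
      exact ⟨_, i1, w0⟩
    · rw [min_eq_left (by omega)] at *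
      exact ⟨_, i1, w0⟩
    · rw [min_eq_right (by omega)] at *
      exact ⟨_, i3, w1⟩
  have hmx : ∃ p, InB (min t0 t1, y) p ∧ h p.1 p.2 = k + 1 := by
    rcases ht with rfl | rfl | rfl
    · rw [min_self] at *
      exact ⟨_, i2, r0⟩
    · rw [min_eq_left (by omega)] at *
      exact ⟨_, i2, r0⟩
    · rw [min_eq_right (by omega)] at *
      exact ⟨_, i4, r1⟩
  -- cells of height `k` are inner cells
  have hI : ∀ p, InB (min t0 t1, y) p → h p.1 p.2 = k → (F p).tau = Tau.I := by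
    intro p hp hpk
    obtain ⟨q, hq, hqk⟩ := hmx
    have e := (H.block hF hp hq).1 hm
    have hz := (hF _).r1 hm p hp
    rcases oo_cases (F p) with ⟨c1, c2⟩ | ⟨c1, c2⟩
    · rcases oo_cases (F q) with ⟨d1, d2⟩ | ⟨d1, d2⟩ <;> omega
    · revert hz c2
      cases (F p).tau <;> simp
  have z : ∀ p q : ℤ × ℤ, InB (min t0 t1, y) p → InB (min t0 t1, y) q →
      (if h p.1 p.2 = k ∧ h q.1 q.2 = k then dl ((F q).g - (F p).g) else 0) = 0 := by
    intro p q hp hq
    split_ifs with hc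
    · have e := (hF _).r6 hR hm p q hp hq (hI p hp hc.1) (hI q hq hc.2)
      rw [e, sub_self, dl_zero]
    · rfl
  exact ⟨z _ _ i1 i3, fun _ => z _ _ i1 i2, fun _ => z _ _ i3 i4⟩

/-- the right ends, infinite runs -/
theorem Ht.rightI (hF : ∀ v, Rule F v) (H : Ht F h) {k y t0 t1 : ℤ}
    (ht : t0 = t1 ∨ t0 = t1 - 1 ∨ t0 = t1 + 1)
    (m0 : ∀ x, min t0 t1 ≤ x → h x y ≤ k)
    (m1 : ∀ x, min t0 t1 ≤ x → h x (y + 1) ≤ k)
    (r0 : h (t0 + 1) y = k - 1) (k0 : h t0 y = k) (r1 : h (t1 + 1) (y + 1) = k - 1)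
    (k1 : h t1 (y + 1) = k) :
    bk F h k (min t0 t1) y = 0 ∧ (min t0 t1 < t0 → ak F h k (min t0 t1) y = 0) ∧
      (min t0 t1 < t1 → ak F h k (min t0 t1) (y + 1) = 0) := by
  have i1 : InB (min t0 t1, y) (min t0 t1, y) := ⟨Or.inl rfl, Or.inl rfl⟩
  have i2 : InB (min t0 t1, y) (min t0 t1 + 1, y) := ⟨Or.inr rfl, Or.inl rfl⟩
  have i3 : InB (min t0 t1, y) (min t0 t1, y + 1) := ⟨Or.inl rfl, Or.inr rfl⟩
  have i4 : InB (min t0 t1, y) (min t0 t1 + 1, y + 1) := ⟨Or.inr rfl, Or.inr rfl⟩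
  have hk : ∀ p, InB (min t0 t1, y) p → h p.1 p.2 ≤ k := by
    rintro ⟨a, b⟩ ⟨h1, h2⟩
    dsimp only at h1 h2 ⊢
    rcases h2 with rfl | rfl
    · exact m0 a (by omega)
    · exact m1 a (by omega)
  have hm : Mixed F (min t0 t1, y) := by
    by_contra hm
    rcases ht with rfl | rfl | rfl
    · rw [min_self] at *
      have e := (H.block hF i1 i2).2 hm
      dsimp only at e
      omega
    · rw [min_eq_left (by omega)] at *
      have e := (H.block hF i1 i2).2 hm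
      dsimp only at e
      omega
    · rw [min_eq_right (by omega)] at *
      have e := (H.block hF i3 i4).2 hm
      dsimp only at e
      omega
  have z : ∀ p q : ℤ × ℤ, InB (min t0 t1, y) p → InB (min t0 t1, y) q →
      (if h p.1 p.2 = k ∧ h q.1 q.2 = k then dl ((F q).g - (F p).g) else 0) = 0 := by
    intro p q hp hq
    split_ifs with hc
    · have e := ((hF _).r5 hm p q hp hq (H.top hF hm hk hp hc.1)
        (H.top hF hm hk hq hc.2)).1
      rw [e, sub_self, dl_zero]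
    · rfl
  exact ⟨z _ _ i1 i3, fun _ => z _ _ i1 i2, fun _ => z _ _ i3 i4⟩

/-- the sum `DD` as a difference of the potential -/
theorem Ht.dd (H : Ht F h) {v : ℤ × ℤ} {k : ℤ} (hk : h v.1 v.2 = k) {A : ℤ → ℤ}
    (a : ∀ x, A (x + 1) = A x + ak F h k x v.2) (l : ℕ) :
    DD F v l = A (v.1 + l) - A v.1 := by
  induction l with
  | zero => simp [DD]
  | succ l ih =>
    unfold DD at ih ⊢
    rw [Finset.sum_range_succ, ih]
    push_cast
    rw [← add_assoc, a]
    have : (if SF.rel F v l = 0 ∧ SF.rel F v (l + 1) = 0 then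
        dl ((F (v.1 + l + 1, v.2)).g - (F (v.1 + l, v.2)).g) else 0) =
        ak F h k (v.1 + l) v.2 := by
      unfold ak
      rw [H.rel, H.rel, ← hk]
      push_cast
      rw [← add_assoc]
      simp only [sub_eq_zero]
    rw [this]
    ring

end SF
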