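import Pool.Agent.Helper20.SF.Row3

/-!
# SF, rows 5: the next row
-/

set_option autoImplicit false

namespace SF

variable {F : ℤ × ℤ → Lab} {h : ℤ → ℤ → ℤ}

theorem Hq.overlap (H : Hq h) {k s t y τ s' : ℤ} (hτ : Sg τ) (R : RunH h k s t y)
    (hs' : s' = s ∨ s' = s - 1 ∨ s' = s + 1) (l0 : h (s' - 1) (y + τ) = k + 1)
    (k0 : h s' (y + τ) = k) : ∃ z, s ≤ z ∧ z ≤ t ∧ h z (y + τ) ≤ k := by
  have hle := R.le
  have hsk := R.sk H
  have hsl := R.l
  rcases hs' with rfl | rfl | rfl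
  · exact ⟨s', le_rfl, hle, k0.le⟩
  · refine ⟨s, le_rfl, hle, ?_⟩
    have e1 := H.lx (s - 1) (y + τ) 1 (Or.inl rfl)
    have e2 := H.chk (s - 1) y 1 τ (Or.inl rfl) hτ
    rw [sub_add_cancel] at e1 e2
    by_contra hc
    have := e2 (by omega) (by omega)
    omega
  · rw [add_sub_cancel_right] at l0
    refine ⟨s + 1, by omega, ?_, k0.le⟩
    by_contra hc
    have hts : t = s := by omega
    subst hts
    have hr := R.r
    have e2 := H.chk t y 1 τ (Or.inl rfl) hτ (by omega) (by omega)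
    omega

theorem Hq.next' (H : Hq h) {k s t y τ s' : ℤ} (hτ : Sg τ) (R : RunH h k s t y)
    (hs' : s' = s ∨ s' = s - 1 ∨ s' = s + 1) (l0 : h (s' - 1) (y + τ) = k + 1)
    (k0 : h s' (y + τ) = k) : ∃ t', (t' = t ∨ t' = t - 1 ∨ t' = t + 1) ∧
      RunH h k s' t' (y + τ) ∧ max s s' ≤ min t t' := by
  obtain ⟨z, z1, z2, z3⟩ := H.overlap hτ R hs' l0 k0
  obtain ⟨s'', t', a1, a2, a3, a4, a5⟩ := H.next hτ R z1 z2 z3
  have := H.uniq hτ R.l (R.sk H) a1 hs' a5.l (a5.sk H) l0 k0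
  subst this
  exact ⟨t', a2, a5, by omega⟩

/-- infinite runs, left end -/
theorem Hq.leftI (H : Hq h) {k s y τ : ℤ} (hτ : Sg τ) (h0 : h (s - 1) y = k + 1)
    (h1 : ∀ x, s ≤ x → h x y ≤ k) : ∃ s', (s' = s ∨ s' = s - 1 ∨ s' = s + 1) ∧
      h (s' - 1) (y + τ) = k + 1 ∧ ∀ x, s' ≤ x → h x (y + τ) ≤ k := by
  have h2 : ∀ x, s < x → h x (y + τ) ≤ k := by
    intro x hx
    by_contra hc
    push Not at hc
    have e1 := h1 x hx.le
    have e2 := H.ly x y τ hτ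
    rcases H.r2 x y τ hτ (by omega) with e3 | e3
    · have := h1 (x + 1) (by omega)
      omega
    · have := h1 (x - 1) (by omega)
      omega
  obtain ⟨s', a1, a2, a3, a4⟩ := H.left (z := s + 1) hτ (by omega) h0 (fun x b1 _ => h1 x b1)
    (h2 _ (by omega))
  refine ⟨s', a1, a3, fun x hx => ?_⟩
  rcases le_or_gt x (s + 1) with h3 | h3
  · exact a4 x hx h3
  · exact h2 x (by omega)

/-- infinite runs with the child -/
theorem Hq.nextI (H : Hq h) {k s c y τ : ℤ} (hτ : Sg τ) (h0 : h (s - 1) y = k + 1)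
    (h1 : ∀ x, s ≤ x → h x y ≤ k) (c0 : h (c - 1) y = k) (c1 : ∀ x, c ≤ x → h x y ≤ k - 1)
    (hsc : s ≤ c - 1) : ∃ s' c', (s' = s ∨ s' = s - 1 ∨ s' = s + 1) ∧
      (c' = c ∨ c' = c - 1 ∨ c' = c + 1) ∧ h (s' - 1) (y + τ) = k + 1 ∧
      (∀ x, s' ≤ x → h x (y + τ) ≤ k) ∧ h (c' - 1) (y + τ) = k ∧
      (∀ x, c' ≤ x → h x (y + τ) ≤ k - 1) ∧ max s s' ≤ min (c - 1) (c' - 1) := by
  obtain ⟨s', a1, a2, a3⟩ := H.leftI hτ h0 h1
  obtain ⟨c', b1, b2, b3⟩ := H.leftI (k := k - 1) hτ (by omega) c1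
  refine ⟨s', c', a1, b1, a2, a3, by omega, b3, ?_⟩
  have e1 : s' ≤ c' - 1 := by
    by_contra hc
    push Not at hc
    by_cases h3 : c' = s'
    · subst h3
      omega
    · have := b3 (s' - 1) (by omega)
      omega
  have e2 : s ≤ c' - 1 := by
    by_contra hc
    have h3 : c' = s := by omega
    have h4 := b3 s (by omega)
    have h5 := H.osc s (y + τ) (-1) (-τ) (Or.inr rfl) hτ.neg
    rw [add_neg_cancel_right, ← sub_eq_add_neg] at h5
    omega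
  have e3 : s' ≤ c - 1 := by
    by_contra hc
    have h3 : s' = s + 1 := by omega
    have h3' : c = s + 1 := by omega
    subst h3
    have h4 := c1 (s + 1) (by omega)
    have h5 := H.osc (s + 1) y (-1) τ (Or.inr rfl) hτ
    rw [add_neg_cancel_right] at h5
    rw [add_sub_cancel_right] at a2
    omega
  omega

theorem fr_dn0 (hF : ∀ v, Rule F v) {u v : ℤ × ℤ} (hd : Dn F u v) {l : ℕ} (hl : FR F u l) :
    ∃ l', FR F v l' ∧ (l' : ℤ) ≤ l + 2 ∧ (l : ℤ) ≤ l' + 2 ∧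
      DD F v l' = DD F u l - inc (F v) := by
  obtain ⟨h, H⟩ := exists_ht hF
  obtain ⟨a1, a2, a3, a4, a5⟩ := H.dn hF hd
  have R := (H.fr u l).1 hl
  obtain ⟨x, y⟩ := v
  obtain ⟨x', y'⟩ := u
  dsimp only at *
  subst a3
  obtain ⟨t', b1, b2, b3⟩ := (H.hq hF).next' (τ := -1) (s' := x) (Or.inr rfl) R (by omega)
    (by rw [add_neg_cancel_right]; omega) (by rw [add_neg_cancel_right]; omega)
  rw [add_neg_cancel_right] at b2
  have hle := b2.le
  have el : x + ((t' - x).toNat : ℤ) = t' := by omega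
  refine ⟨(t' - x).toNat, (H.fr _ _).2 ?_, by omega, by omega, ?_⟩
  · dsimp only
    rw [el, a5]
    exact b2
  obtain ⟨A0, -, hA0⟩ := pot1 fun x => ak F h (h x' (y + 1)) x y
  obtain ⟨A1, -, hA1⟩ := pot1 fun x => ak F h (h x' (y + 1)) x (y + 1)
  rw [H.dd (v := (x, y)) a5 hA0, H.dd (v := (x', y + 1)) rfl hA1]
  dsimp only
  rw [el]
  have ht : t' = x' + l ∨ t' = x' + l - 1 ∨ t' = x' + l + 1 := b1
  exact H.strip hF (by omega) (by omega) a5 (by omega) rfl ht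
    (by omega) b2.m R.m (H.rightF hF ht
      (fun z c1 c2 => b2.m z (by omega) c2) (fun z c1 c2 => R.m z (by omega) c2)
      b2.r (b2.tk (H.hq hF)) R.r (R.tk (H.hq hF))) hA0 hA1

theorem fr_up0 (hF : ∀ v, Rule F v) {u v : ℤ × ℤ} (hd : Dn F u v) {l' : ℕ} (hl : FR F v l') :
    ∃ l, FR F u l ∧ (l' : ℤ) ≤ l + 2 ∧ (l : ℤ) ≤ l' + 2 ∧
      DD F v l' = DD F u l - inc (F v) := by
  obtain ⟨h, H⟩ := exists_ht hF
  obtain ⟨a1, a2, a3, a4, a5⟩ := H.dn hF hd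
  have R := (H.fr v l').1 hl
  have hex : ∃ l, FR F u l := by
    obtain ⟨x, y⟩ := v
    obtain ⟨x', y'⟩ := u
    dsimp only at *
    subst a3
    obtain ⟨t', b1, b2, b3⟩ := (H.hq hF).next' (τ := 1) (s' := x') (Or.inl rfl) R (by omega)
      (by omega) (by omega)
    have hle := b2.le
    have el : x' + ((t' - x').toNat : ℤ) = t' := by omega
    refine ⟨(t' - x').toNat, (H.fr _ _).2 ?_⟩
    dsimp only
    rw [el, ← a5]
    exact b2
  obtain ⟨l, hl'⟩ := hex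
  obtain ⟨l2, c1, c2, c3, c4⟩ := fr_dn0 hF hd hl'
  have := fr_fun0 c1 hl
  subst this
  exact ⟨l, hl', c2, c3, c4⟩

theorem ic_step0 (hF : ∀ v, Rule F v) (H : Ht F h) {u v : ℤ × ℤ} {l l' : ℕ}
    (hd : Dn F u v) (h1 : IC F u l) (h2 : IC F v l')
    (hc : v.1 + l' = u.1 + l ∨ v.1 + l' = u.1 + l - 1 ∨ v.1 + l' = u.1 + l + 1)
    (ho : max v.1 u.1 ≤ min (v.1 + l' : ℤ) (u.1 + l)) : DD F v l' = DD F u l - inc (F v) := by
  obtain ⟨a1, a2, a3, a4, a5⟩ := H.dn hF hd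
  rw [H.ic] at h1 h2
  obtain ⟨x, y⟩ := v
  obtain ⟨x', y'⟩ := u
  dsimp only at *
  subst a3
  obtain ⟨b1, b2, b3, b4⟩ := h1
  obtain ⟨c1, c2, c3, c4⟩ := h2
  obtain ⟨A0, -, hA0⟩ := pot1 fun x => ak F h (h x' (y + 1)) x y
  obtain ⟨A1, -, hA1⟩ := pot1 fun x => ak F h (h x' (y + 1)) x (y + 1)
  rw [H.dd (v := (x, y)) a5 hA0, H.dd (v := (x', y + 1)) rfl hA1]
  dsimp only
  have g0 : h (x + l' + 1) y = h x' (y + 1) - 1 := by
    have e1 := c4 (x + l' + 1) (by omega)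
    have e2 := H.lx (x + l' + 1) y (s := -1) (Or.inr rfl)
    rw [add_neg_cancel_right] at e2
    omega
  have g1 : h (x' + l + 1) (y + 1) = h x' (y + 1) - 1 := by
    have e1 := b4 (x' + l + 1) (by omega)
    have e2 := H.lx (x' + l + 1) (y + 1) (s := -1) (Or.inr rfl)
    rw [add_neg_cancel_right] at e2
    omega
  exact H.strip hF (by omega) (by omega) a5 (by omega) rfl hc ho
    (fun z d1 _ => by rw [← a5]; exact c2 z d1) (fun z d1 _ => b2 z d1)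
    (H.rightI hF hc (fun z d1 => by rw [← a5]; exact c2 z (by omega)) (fun z d1 => b2 z (by omega))
      g0 (by omega) g1 b3) hA0 hA1

theorem ic_dn0 (hF : ∀ v, Rule F v) {u : ℤ × ℤ} {l : ℕ} (hl : IC F u l) :
    ∃ v l', Dn F u v ∧ IC F v l' ∧ DD F v l' = DD F u l - inc (F v) := by
  obtain ⟨h, H⟩ := exists_ht hF
  have h1 := hl
  rw [H.ic] at h1
  obtain ⟨b1, b2, b3, b4⟩ := h1
  obtain ⟨s', c', a1, a2, a3, a4, a5, a6, a7⟩ := (H.hq hF).nextI (k := h u.1 u.2) (s := u.1)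
    (c := u.1 + l + 1) (y := u.2) (τ := -1) (Or.inr rfl) b1 b2 (by rw [add_sub_cancel_right]; exact b3)
    (fun x hx => b4 x (by omega)) (by omega)
  have k0 : h s' (u.2 + -1) = h u.1 u.2 := by
    have e1 := a4 s' le_rfl
    have e2 := H.lx s' (u.2 + -1) (s := -1) (Or.inr rfl)
    rw [← sub_eq_add_neg] at e2
    omega
  have hd : Dn F u (s', u.2 + -1) := (H.dn_iff hF).2 ⟨b1, by
    dsimp only
    omega, by dsimp only; ring, a1⟩
  have el : s' + ((c' - 1 - s').toNat : ℤ) = c' - 1 := by omega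
  have h2 : IC F (s', u.2 + -1) (c' - 1 - s').toNat := by
    rw [H.ic]
    dsimp only
    rw [el]
    exact ⟨by omega, fun x hx => by rw [k0]; exact a4 x hx, by omega,
      fun x hx => by rw [k0]; exact a6 x (by omega)⟩
  refine ⟨_, _, hd, h2, ic_step0 hF H hd hl h2 ?_ ?_⟩
  · dsimp only
    rw [el]
    omega
  · dsimp only
    rw [el]
    omega

theorem ic_up0 (hF : ∀ v, Rule F v) {v : ℤ × ℤ} {l' : ℕ} (hl : IC F v l') :
    ∃ u l, Dn F u v ∧ IC F u l ∧ DD F v l' = DD F u l - inc (F v) := by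
  obtain ⟨h, H⟩ := exists_ht hF
  have h1 := hl
  rw [H.ic] at h1
  obtain ⟨b1, b2, b3, b4⟩ := h1
  obtain ⟨s', c', a1, a2, a3, a4, a5, a6, a7⟩ := (H.hq hF).nextI (k := h v.1 v.2) (s := v.1)
    (c := v.1 + l' + 1) (y := v.2) (τ := 1) (Or.inl rfl) b1 b2 (by rw [add_sub_cancel_right]; exact b3)
    (fun x hx => b4 x (by omega)) (by omega)
  have k0 : h s' (v.2 + 1) = h v.1 v.2 := by
    have e1 := a4 s' le_rfl
    have e2 := H.lx s' (v.2 + 1) (s := -1) (Or.inr rfl)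
    rw [← sub_eq_add_neg] at e2
    omega
  have hd : Dn F (s', v.2 + 1) v := (H.dn_iff hF).2 ⟨by
    dsimp only
    omega, b1, rfl, by dsimp only; omega⟩
  have el : s' + ((c' - 1 - s').toNat : ℤ) = c' - 1 := by omega
  have h2 : IC F (s', v.2 + 1) (c' - 1 - s').toNat := by
    rw [H.ic]
    dsimp only
    rw [el]
    exact ⟨by omega, fun x hx => by rw [k0]; exact a4 x hx, by omega,
      fun x hx => by rw [k0]; exact a6 x (by omega)⟩
  refine ⟨_, _, hd, h2, ic_step0 hF H hd h2 hl ?_ ?_⟩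
  · dsimp only
    rw [el]
    omega
  · dsimp only
    rw [el]
    omega

end SF
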