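import Pool.Agent.Helper20.SF.Row4

/-!
# SF, rows 6: chains up to a tip, the row inequality and the parity
-/

set_option autoImplicit false

namespace SF

variable {F : ℤ × ℤ → Lab} {h : ℤ → ℤ → ℤ}

/-- a chain of `n` more runs and then a tip -/
def TF (h : ℤ → ℤ → ℤ) (k τ : ℤ) : ℕ → ℤ → ℤ → ℤ → Prop
  | 0, s, t, y => RunH h k s t y ∧ ∀ z, s ≤ z → z ≤ t → ¬ h z (y + τ) ≤ k
  | n + 1, s, t, y => RunH h k s t y ∧ ∃ s' t', (s' = s ∨ s' = s - 1 ∨ s' = s + 1) ∧
      (t' = t ∨ t' = t - 1 ∨ t' = t + 1) ∧ TF h k τ n s' t' (y + τ)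

theorem TF.run {k τ : ℤ} : ∀ {n : ℕ} {s t y : ℤ}, TF h k τ n s t y → RunH h k s t y
  | 0, _, _, _, T => T.1
  | _ + 1, _, _, _, T => T.1

theorem TF.len (H : Hq h) {k τ : ℤ} (hτ : Sg τ) : ∀ {n : ℕ} {s t y : ℤ}, TF h k τ n s t y →
    t - s ≤ 2 * n + 1
  | 0, s, t, y, T => by
    have := (H.tip hτ T.1 T.2).1
    push_cast
    omega
  | n + 1, s, t, y, T => by
    obtain ⟨-, s', t', h1, h2, h3⟩ := T
    have := TF.len H hτ h3
    push_cast
    omega

/-- a parity function -/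
structure Qp (h : ℤ → ℤ → ℤ) (q : ℤ → ℤ → Bool) : Prop where
  x : ∀ x y s, Sg s → h (x + s) y = h x y → q (x + s) y = q x y
  y : ∀ x y t, Sg t → h x (y + t) = h x y → q x (y + t) = q x y

/-- the outer parities on the left -/
theorem Qp.left (H : Hq h) {q : ℤ → ℤ → Bool} (Q : Qp h q) {k s s' y τ : ℤ} (hτ : Sg τ)
    (hs : s' = s ∨ s' = s - 1 ∨ s' = s + 1) (l : h (s - 1) y = k + 1) (e : h s y = k)
    (l' : h (s' - 1) (y + τ) = k + 1) (e' : h s' (y + τ) = k) :
    q (s' - 1) (y + τ) = q (s - 1) y := by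
  rcases hs with rfl | rfl | rfl
  · exact Q.y _ _ _ hτ (by omega)
  · -- the corner is `(s - 2, y)`
    have e1 := H.chk (s - 1) (y + τ) (-1) (-τ) (Or.inr rfl) hτ.neg
    have e2 := H.osc (s - 1) (y + τ) (-1) (-τ) (Or.inr rfl) hτ.neg
    have e3 := H.lx (s - 1) y (-1) (Or.inr rfl)
    have e4 := H.lx (s - 1 + -1) y 1 (Or.inl rfl)
    rw [add_neg_cancel_right] at e1 e2
    rw [neg_add_cancel_right] at e4
    rw [← sub_eq_add_neg] at e1 e2 e3 e4
    have e5 : h (s - 1 - 1) y = k + 1 := by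
      by_contra hne
      have := e1 (by omega) (by omega)
      omega
    have q1 := Q.y (s - 1 - 1) y τ hτ (by omega)
    have q2 := Q.x (s - 1 - 1) y 1 (Or.inl rfl) (by rw [sub_add_cancel]; omega)
    rw [sub_add_cancel] at q2
    rw [q1, q2]
  · -- the corner is `(s - 1, y + τ)`
    rw [add_sub_cancel_right] at l' ⊢
    have e1 := H.chk s y (-1) τ (Or.inr rfl) hτ
    have e2 := H.osc s y (-1) τ (Or.inr rfl) hτ
    have e3 := H.lx s (y + τ) (-1) (Or.inr rfl)
    have e4 := H.lx (s + -1) (y + τ) 1 (Or.inl rfl)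
    rw [neg_add_cancel_right] at e4
    rw [← sub_eq_add_neg] at e1 e2 e3 e4
    have e5 : h (s - 1) (y + τ) = k + 1 := by
      by_contra hne
      have := e1 (by omega) (by omega)
      omega
    have q1 := Q.y (s - 1) y τ hτ (by omega)
    have q2 := Q.x (s - 1) (y + τ) 1 (Or.inl rfl) (by rw [sub_add_cancel]; omega)
    rw [sub_add_cancel] at q2
    rw [q2, q1]

theorem Qp.mirror {q : ℤ → ℤ → Bool} (Q : Qp h q) :
    Qp (fun x y => h (-x) y) fun x y => q (-x) y where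
  x x y s hs e := by
    have := Q.x (-x) y (-s) hs.neg
    rw [show -x + -s = -(x + s) by ring] at this
    exact this e
  y x y t ht e := Q.y (-x) y t ht e

theorem Qp.right (H : Hq h) {q : ℤ → ℤ → Bool} (Q : Qp h q) {k t t' y τ : ℤ} (hτ : Sg τ)
    (ht : t' = t ∨ t' = t - 1 ∨ t' = t + 1) (l : h (t + 1) y = k + 1) (e : h t y = k)
    (l' : h (t' + 1) (y + τ) = k + 1) (e' : h t' (y + τ) = k) :
    q (t' + 1) (y + τ) = q (t + 1) y := by
  have := Q.mirror.left H.mirror (k := k) (s := -t) (s' := -t') (y := y) hτ (by omega)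
    (by show h (-(-t - 1)) y = k + 1; rw [show -(-t - 1) = t + 1 by ring]; exact l)
    (by show h (- -t) y = k; rw [neg_neg]; exact e)
    (by show h (-(-t' - 1)) (y + τ) = k + 1; rw [show -(-t' - 1) = t' + 1 by ring]; exact l')
    (by show h (- -t') (y + τ) = k; rw [neg_neg]; exact e')
  rw [show -(-t' - 1) = t' + 1 by ring, show -(-t - 1) = t + 1 by ring] at this
  exact this

theorem TF.par (H : Hq h) {q : ℤ → ℤ → Bool} (Q : Qp h q) {k τ : ℤ} (hτ : Sg τ) :
    ∀ {n : ℕ} {s t y : ℤ}, TF h k τ n s t y → q (s - 1) y = q (t + 1) y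
  | 0, s, t, y, T => by
    obtain ⟨h1, h2, h3⟩ := H.tip hτ T.1 T.2
    have hle := T.1.le
    have e1 := Q.y (s - 1) y τ hτ (by rw [h3 (s - 1) le_rfl (by omega), T.1.l])
    have e2 := Q.y (t + 1) y τ hτ (by rw [h3 (t + 1) (by omega) le_rfl, T.1.r])
    have key : ∀ m : ℕ, s - 1 + m ≤ t + 1 → q (s - 1 + m) (y + τ) = q (s - 1) (y + τ) := by
      intro m
      induction m with
      | zero => simp
      | succ m ih =>
        intro hm
        push_cast at hm ⊢
        rw [← ih (by omega), ← add_assoc]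
        exact Q.x _ _ 1 (Or.inl rfl) (by rw [h3 _ (by omega) (by omega), h3 _ (by omega) (by omega)])
    have e3 := key (t + 1 - (s - 1)).toNat (by omega)
    rw [Int.toNat_of_nonneg (by omega), add_sub_cancel] at e3
    rw [← e1, ← e2, e3]
  | n + 1, s, t, y, T => by
    obtain ⟨R, s', t', h1, h2, h3⟩ := T
    have e1 := TF.par H Q hτ h3
    have R' := h3.run
    have e2 := Q.left H hτ h1 R.l (R.sk H) R'.l (R'.sk H)
    have e3 := Q.right H hτ h2 R.r (R.tk H) R'.r (R'.tk H)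
    rw [← e2, ← e3, e1]

/-- no upper neighbour: a tip -/
theorem Ht.tipU (hF : ∀ v, Rule F v) (H : Ht F h) {v : ℤ × ℤ} {t : ℤ}
    (R : RunH h (h v.1 v.2) v.1 t v.2) (hno : ¬ ∃ u, Dn F u v) :
    TF h (h v.1 v.2) 1 0 v.1 t v.2 := by
  refine ⟨R, fun z h1 h2 h3 => hno ?_⟩
  obtain ⟨s', t', a1, a2, a3, a4, a5⟩ := (H.hq hF).next (Or.inl rfl) R h1 h2 h3
  refine ⟨(s', v.2 + 1), (H.dn_iff hF).2 ⟨?_, R.l, rfl, ?_⟩⟩
  · dsimp only
    rw [a5.l, a5.sk (H.hq hF)]
  · dsimp only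
    omega

theorem Ht.tipD (hF : ∀ v, Rule F v) (H : Ht F h) {v : ℤ × ℤ} {t : ℤ}
    (R : RunH h (h v.1 v.2) v.1 t v.2) (hno : ¬ ∃ u, Dn F v u) :
    TF h (h v.1 v.2) (-1) 0 v.1 t v.2 := by
  refine ⟨R, fun z h1 h2 h3 => hno ?_⟩
  obtain ⟨s', t', a1, a2, a3, a4, a5⟩ := (H.hq hF).next (Or.inr rfl) R h1 h2 h3
  refine ⟨(s', v.2 + -1), (H.dn_iff hF).2 ⟨R.l, ?_, ?_, a1⟩⟩
  · dsimp only
    rw [a5.l, a5.sk (H.hq hF)]
  · dsimp only
    ring

theorem Ht.tfU (hF : ∀ v, Rule F v) (H : Ht F h) : ∀ {n : ℕ} {v : ℤ × ℤ} {t : ℤ},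
    UpF F n v → RunH h (h v.1 v.2) v.1 t v.2 → TF h (h v.1 v.2) 1 n v.1 t v.2
  | 0, _, _, hu, R => H.tipU hF R hu.2
  | n + 1, v, t, hu, R => by
    obtain ⟨u, hd, hu⟩ := hu
    obtain ⟨a1, a2, a3, a4, a5⟩ := H.dn hF hd
    obtain ⟨x, y⟩ := v
    obtain ⟨x', y'⟩ := u
    dsimp only at *
    subst a3
    obtain ⟨t', b1, b2, b3⟩ := (H.hq hF).next' (τ := 1) (s' := x') (Or.inl rfl) R (by omega)
      (by omega) (by omega)
    have := H.tfU hF (v := (x', y + 1)) (t := t') hu (by dsimp only; rw [← a5]; exact b2)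
    dsimp only at this
    rw [← a5] at this
    exact ⟨R, x', t', by omega, b1, this⟩

theorem Ht.tfD (hF : ∀ v, Rule F v) (H : Ht F h) : ∀ {n : ℕ} {v : ℤ × ℤ} {t : ℤ},
    DnF F n v → RunH h (h v.1 v.2) v.1 t v.2 → TF h (h v.1 v.2) (-1) n v.1 t v.2
  | 0, _, _, hu, R => H.tipD hF R hu.2
  | n + 1, v, t, hu, R => by
    obtain ⟨u, hd, hu⟩ := hu
    obtain ⟨a1, a2, a3, a4, a5⟩ := H.dn hF hd
    obtain ⟨x, y⟩ := u
    obtain ⟨x', y'⟩ := v
    dsimp only at *
    subst a3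
    obtain ⟨t', b1, b2, b3⟩ := (H.hq hF).next' (τ := -1) (s' := x) (Or.inr rfl) R (by omega)
      (by rw [add_neg_cancel_right]; omega) (by rw [add_neg_cancel_right]; omega)
    rw [add_neg_cancel_right] at b2
    have := H.tfD hF (v := (x, y)) (t := t') hu (by dsimp only; rw [a5]; exact b2)
    dsimp only at this
    rw [a5] at this
    refine ⟨R, x, t', by omega, b1, ?_⟩
    rw [add_neg_cancel_right]
    exact this

theorem Fin1.tf (hF : ∀ v, Rule F v) (H : Ht F h) {v : ℤ × ℤ} {l : ℕ} (hl : FR F v l)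
    (h1 : Fin1 F v) : ∃ τ n, Sg τ ∧ TF h (h v.1 v.2) τ n v.1 (v.1 + l) v.2 := by
  have R := (H.fr v l).1 hl
  rcases h1 with ⟨-, n, hn⟩ | ⟨-, n, hn⟩
  · exact ⟨1, n, Or.inl rfl, H.tfU hF hn R⟩
  · exact ⟨-1, n, Or.inr rfl, H.tfD hF hn R⟩

theorem qq_step (hF : ∀ v, Rule F v) {v u : ℤ × ℤ}
    (hu : u ∈ [(v.1 + 1, v.2), (v.1, v.2 + 1)]) (hio : io (F v) (F u) = 0) :
    qq F v = qq F u := by
  have hb := (hF v).r4 u hu (by rw [io_eq_zero] at hio; exact hio)
  unfold qq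
  have hp : decide ((u.1 + u.2) % 2 = 0) = ! decide ((v.1 + v.2) % 2 = 0) := by
    have : (u.1 + u.2) = v.1 + v.2 + 1 := by
      simp only [List.mem_cons, List.not_mem_nil, or_false] at hu
      rcases hu with rfl | rfl
      · dsimp only
        ring
      · dsimp only
        ring
    rw [this]
    by_cases h2 : (v.1 + v.2) % 2 = 0
    · have : ¬ (v.1 + v.2 + 1) % 2 = 0 := by omega
      simp [h2, this]
    · have : (v.1 + v.2 + 1) % 2 = 0 := by omega
      simp [h2, this]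
  rw [hp]
  revert hb
  cases (F v).b <;> cases (F u).b <;> cases decide ((v.1 + v.2) % 2 = 0) <;> simp

theorem Ht.qp (hF : ∀ v, Rule F v) (H : Ht F h) : Qp h fun x y => qq F (x, y) where
  x x y s hs e := by
    rcases hs with rfl | rfl
    · have e1 := H.hx x y
      exact (qq_step hF (v := (x, y)) (by simp) (by omega)).symm
    · have e1 := H.hx (x + -1) y
      have := qq_step hF (v := (x + -1, y)) (u := (x + -1 + 1, y)) (by simp) (by
        rw [neg_add_cancel_right] at e1 ⊢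
        omega)
      rw [neg_add_cancel_right] at this
      exact this
  y x y s hs e := by
    rcases hs with rfl | rfl
    · have e1 := H.hy x y
      exact (qq_step hF (v := (x, y)) (by simp) (by omega)).symm
    · have e1 := H.hy x (y + -1)
      have := qq_step hF (v := (x, y + -1)) (u := (x, y + -1 + 1)) (by simp) (by
        rw [neg_add_cancel_right] at e1 ⊢
        omega)
      rw [neg_add_cancel_right] at this
      exact this

theorem parity0 (hF : ∀ v, Rule F v) {v : ℤ × ℤ} {l : ℕ} (hl : FR F v l) (h1 : Fin1 F v) :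
    qq F (v.1 - 1, v.2) = qq F (v.1 + l + 1, v.2) := by
  obtain ⟨h, H⟩ := exists_ht hF
  obtain ⟨τ, n, hτ, T⟩ := h1.tf hF H hl
  exact T.par (H.hq hF) (H.qp hF) hτ

/-- few increments -/
theorem dd_own (v : ℤ × ℤ) (l : ℕ) : |DD F v l| + 1 ≤ own F v l := by
  have h1 : |DD F v l| ≤ ((Finset.range l).filter fun i => rel F v (i + 1) = 0).card := by
    unfold DD
    refine (Finset.abs_sum_le_sum_abs _ _).trans ?_
    rw [Finset.card_filter]
    push_cast
    refine Finset.sum_le_sum fun i _ => ?_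
    split_ifs with c1 c2 c2
    · exact dl_abs _
    · exact absurd c1.2 c2
    · simp
    · simp
  have h2 : own F v l = ((Finset.range l).filter fun i => rel F v (i + 1) = 0).card + 1 := by
    unfold own
    rw [Finset.card_filter, Finset.sum_range_succ', Finset.card_filter]
    congr 1
  rw [h2]
  push_cast
  linarith

/-- the potential on one side -/
theorem psi_step (F : ℤ × ℤ → Lab) {u v : ℤ × ℤ} (ht : Tick F u v) {a b : ℤ}
    (hd : b = a - inc (F v)) :
    ((F v).ph = false → 64 * b - ((F v).ck.val : ℤ) = 64 * a - ((F u).ck.val : ℤ) - 1) ∧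
    ((F v).ph = true → 64 * b + ((F v).ck.val : ℤ) = 64 * a + ((F u).ck.val : ℤ) + 1) := by
  have hv : (F v).ck = (F u).ck + 1 := ht.1
  have hval : ((F v).ck = 0 ∧ ((F v).ck.val : ℤ) = 0 ∧ ((F u).ck.val : ℤ) = 63) ∨
      ((F v).ck ≠ 0 ∧ ((F v).ck.val : ℤ) = (F u).ck.val + 1) := by
    rw [hv]
    generalize (F u).ck = c
    revert c
    decide
  rcases hval with ⟨c1, c2, c3⟩ | ⟨c1, c2⟩
  · constructor
    · intro hp
      have : inc (F v) = 1 := by
        unfold inc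
        rw [if_pos c1, hp]
        simp
      omega
    · intro hp
      have : inc (F v) = -1 := by
        unfold inc
        rw [if_pos c1, hp]
        simp
      omega
  · have : inc (F v) = 0 := by
      unfold inc
      rw [if_neg c1]
    constructor
    · intro _
      omega
    · intro _
      omega

theorem ck_bd (c : ZMod 64) : 0 ≤ (c.val : ℤ) ∧ (c.val : ℤ) ≤ 63 := by
  have := ZMod.val_lt c
  omega

theorem dd_tip {v : ℤ × ℤ} {l : ℕ} (hl : l ≤ 1) : |DD F v l| ≤ 1 := by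
  interval_cases l
  · simp [DD]
  · unfold DD
    rw [Finset.sum_range_one]
    split_ifs
    · exact dl_abs _
    · simp

theorem up_bd (hF : ∀ v, Rule F v) : ∀ {n : ℕ} {v : ℤ × ℤ} {l : ℕ}, UpF F n v → FR F v l →
    (F v).ph = false → 64 * DD F v l - ((F v).ck.val : ℤ) ≤ 64 - n
  | 0, v, l, hu, hl, _ => by
    obtain ⟨h, H⟩ := exists_ht hF
    have T := H.tipU hF ((H.fr v l).1 hl) hu.2
    have := T.len (H.hq hF) (Or.inl rfl)
    have h1 := dd_tip (F := F) (v := v) (l := l) (by push_cast at this; omega)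
    have h2 := ck_bd (F v).ck
    have h3 := abs_le.1 h1
    push_cast
    omega
  | n + 1, v, l, hu, hl, hp => by
    obtain ⟨u, hd, hu⟩ := hu
    obtain ⟨l', b1, -, -, b4⟩ := fr_up0 hF hd hl
    have ht := dn_tick0 hF hd
    have hpu : (F u).ph = false := by
      by_contra hc
      rw [Bool.not_eq_false] at hc
      have := ht.2 hc
      rw [hp] at this
      exact absurd this (by simp)
    have ih := up_bd hF hu b1 hpu
    have := (psi_step F ht b4).1 hp
    push_cast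
    omega

theorem dn_bd (hF : ∀ v, Rule F v) : ∀ {n : ℕ} {v : ℤ × ℤ} {l : ℕ}, DnF F n v → FR F v l →
    (F v).ph = true → 64 * DD F v l + ((F v).ck.val : ℤ) ≤ 127 - n
  | 0, v, l, hu, hl, _ => by
    obtain ⟨h, H⟩ := exists_ht hF
    have T := H.tipD hF ((H.fr v l).1 hl) hu.2
    have := T.len (H.hq hF) (Or.inr rfl)
    have h1 := dd_tip (F := F) (v := v) (l := l) (by push_cast at this; omega)
    have h2 := ck_bd (F v).ck
    have h3 := abs_le.1 h1
    push_cast
    omega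
  | n + 1, v, l, hu, hl, hp => by
    obtain ⟨u, hd, hu⟩ := hu
    obtain ⟨l', b1, -, -, b4⟩ := fr_dn0 hF hd hl
    have ht := dn_tick0 hF hd
    have ih := dn_bd hF hu b1 (ht.2 hp)
    have := (psi_step F ht b4).2 (ht.2 hp)
    push_cast
    omega

theorem row_ineq0 (hF : ∀ v, Rule F v) {v : ℤ × ℤ} {l : ℕ} (hl : FR F v l) (h1 : Fin1 F v) :
    l + 1 ≤ 260 * own F v l := by
  obtain ⟨h, H⟩ := exists_ht hF
  have R := (H.fr v l).1 hl
  have h2 := dd_own (F := F) v l
  have h3 := abs_le.1 (le_refl |DD F v l|)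
  have h4 := ck_bd (F v).ck
  rcases h1 with ⟨hp, n, hn⟩ | ⟨hp, n, hn⟩
  · have e1 := (H.tfU hF hn R).len (H.hq hF) (Or.inl rfl)
    have e2 := up_bd hF hn hl hp
    push_cast at e1
    omega
  · have e1 := (H.tfD hF hn R).len (H.hq hF) (Or.inr rfl)
    have e2 := dn_bd hF hn hl hp
    push_cast at e1
    omega

end SF
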