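import Pool.Agent.Helper13.SF.Rule

/-!
# SF, rows 1: runs in a row

`F` a labelling of `ℤ × ℤ` with all rules.  `rel F v i`: the height of the cell `v + (i, 0)` minus the height of `v`.
-/

set_option autoImplicit false

namespace SF

/-- the increment of the height -/
def io (p q : Lab) : ℤ :=
  if p.tau = Tau.I ∧ q.tau = Tau.O then 1 else if p.tau = Tau.O ∧ q.tau = Tau.I then -1 else 0

/-- the height relative to `v`, to the right -/
def rel (F : ℤ × ℤ → Lab) (v : ℤ × ℤ) (i : ℕ) : ℤ :=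
  ∑ j ∈ Finset.range i, io (F (v.1 + j, v.2)) (F (v.1 + j + 1, v.2))

/-- the cells `v, ..., v + (l, 0)` are a finite run with the left end `v` -/
def FR (F : ℤ × ℤ → Lab) (v : ℤ × ℤ) (l : ℕ) : Prop :=
  LW F v ∧ (∀ i, i ≤ l → rel F v i ≤ 0) ∧ rel F v (l + 1) = 1

/-- infinite run to the right -/
def IR (F : ℤ × ℤ → Lab) (v : ℤ × ℤ) : Prop := LW F v ∧ ∀ i, rel F v i ≤ 0

/-- infinite run, the infinite child begins behind `v + (l, 0)` -/
def IC (F : ℤ × ℤ → Lab) (v : ℤ × ℤ) (l : ℕ) : Prop :=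
  IR F v ∧ rel F v l = 0 ∧ ∀ i, l < i → rel F v i ≤ -1

/-- the sum of the increments of `g` over the own cells of the run, `v` to `v + (l, 0)` -/
def DD (F : ℤ × ℤ → Lab) (v : ℤ × ℤ) (l : ℕ) : ℤ :=
  ∑ i ∈ Finset.range l, if rel F v i = 0 ∧ rel F v (i + 1) = 0 then
    dl ((F (v.1 + i + 1, v.2)).g - (F (v.1 + i, v.2)).g) else 0

/-- the number of own cells -/
def own (F : ℤ × ℤ → Lab) (v : ℤ × ℤ) (l : ℕ) : ℕ :=
  ((Finset.range (l + 1)).filter fun i => rel F v i = 0).card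

/-- `v` is the lower neighbour of `u` on a left wall -/
def Dn (F : ℤ × ℤ → Lab) (u v : ℤ × ℤ) : Prop :=
  LW F u ∧ LW F v ∧ v.2 + 1 = u.2 ∧ (v.1 = u.1 ∨ v.1 = u.1 - 1 ∨ v.1 = u.1 + 1)

/-- the wall above `v` has `n` more cells and then a tip -/
def UpF (F : ℤ × ℤ → Lab) : ℕ → ℤ × ℤ → Prop
  | 0, v => LW F v ∧ ¬ ∃ u, Dn F u v
  | n + 1, v => ∃ u, Dn F u v ∧ UpF F n u

/-- the wall below `v` has `n` more cells and then a tip -/
def DnF (F : ℤ × ℤ → Lab) : ℕ → ℤ × ℤ → Prop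
  | 0, v => LW F v ∧ ¬ ∃ u, Dn F v u
  | n + 1, v => ∃ u, Dn F v u ∧ DnF F n u

/-- the finite run at `v` is closed on the side of its phase -/
def Fin1 (F : ℤ × ℤ → Lab) (v : ℤ × ℤ) : Prop :=
  ((F v).ph = false ∧ ∃ n, UpF F n v) ∨ ((F v).ph = true ∧ ∃ n, DnF F n v)

/-- the parity of the colour -/
def qq (F : ℤ × ℤ → Lab) (p : ℤ × ℤ) : Bool := xor (F p).b (decide ((p.1 + p.2) % 2 = 0))

end SF
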