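import Pool.Agent.Helper20.SF.Row3

/-!
# SF, rows 7: the mirror image
-/

set_option autoImplicit false

namespace SF

variable {F : ℤ × ℤ → Lab}

/-- the mirror image -/
def mir (F : ℤ × ℤ → Lab) : ℤ × ℤ → Lab := fun p =>
  { F (-p.1, p.2) with g := (F (-p.1, p.2)).g', g' := (F (-p.1, p.2)).g }

theorem mir_tau (p : ℤ × ℤ) : (mir F p).tau = (F (-p.1, p.2)).tau := rfl

theorem mir_inB {v p : ℤ × ℤ} : InB v p ↔ InB (-v.1 - 1, v.2) (-p.1, p.2) := by
  unfold InB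
  dsimp only
  constructor <;> rintro ⟨h1, h2⟩ <;> exact ⟨by omega, h2⟩

theorem mir_inB' {v p : ℤ × ℤ} : InB (-v.1 - 1, v.2) p ↔ InB v (-p.1, p.2) := by
  unfold InB
  dsimp only
  constructor <;> rintro ⟨h1, h2⟩ <;> exact ⟨by omega, h2⟩

theorem mir_mixed {v : ℤ × ℤ} : Mixed (mir F) v ↔ Mixed F (-v.1 - 1, v.2) := by
  unfold Mixed
  constructor
  · rintro ⟨⟨p, p1, p2⟩, ⟨q, q1, q2⟩⟩
    exact ⟨⟨_, mir_inB.1 p1, p2⟩, ⟨_, mir_inB.1 q1, q2⟩⟩
  · rintro ⟨⟨p, p1, p2⟩, ⟨q, q1, q2⟩⟩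
    refine ⟨⟨(-p.1, p.2), mir_inB'.1 p1, ?_⟩, ⟨(-q.1, q.2), mir_inB'.1 q1, ?_⟩⟩
    · show (F (- -p.1, p.2)).tau = Tau.I
      rw [neg_neg]
      exact p2
    · show (F (- -q.1, q.2)).tau = Tau.O
      rw [neg_neg]
      exact q2

theorem mir_lw {v : ℤ × ℤ} : LW (mir F) v ↔ RW F (-v.1, v.2) := by
  unfold LW RW
  rw [mir_tau, mir_tau]
  dsimp only
  rw [show -(v.1 - 1) = -v.1 + 1 by ring]

theorem mir_rw {v : ℤ × ℤ} : RW (mir F) v ↔ LW F (-v.1, v.2) := by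
  unfold LW RW
  rw [mir_tau, mir_tau]
  dsimp only
  rw [show -(v.1 + 1) = -v.1 - 1 by ring]

theorem mir_tick {u v : ℤ × ℤ} : Tick (mir F) u v ↔ Tick F (-u.1, u.2) (-v.1, v.2) := Iff.rfl

theorem mir_io {u v : ℤ × ℤ} : IO (mir F) u v ↔ IO F (-u.1, u.2) (-v.1, v.2) := Iff.rfl

theorem mir_rule0 (hF : ∀ v, Rule F v) (v : ℤ × ℤ) : Rule (mir F) v where
  r1 hm p hp := (hF (-v.1 - 1, v.2)).r1 (mir_mixed.1 hm) _ (mir_inB.1 hp)
  r1c := by
    have h := (hF (-v.1 - 1, v.2)).r1c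
    simp only [sub_add_cancel] at h
    simp only [mir_tau]
    rw [show -(v.1 + 1) = -v.1 - 1 by ring]
    tauto
  r2 h1 h2 := by
    have h := (hF (-v.1, v.2)).r2 h1 h2
    simp only [mir_tau]
    rw [show -(v.1 + 1) = -v.1 - 1 by ring, show -(v.1 - 1) = -v.1 + 1 by ring]
    exact h.symm
  r3 hm g hg := by
    have hm' : ¬ Mixed F (-v.1 - 1, v.2) := fun hc => hm (mir_mixed.2 hc)
    have h0 := (hF (-v.1 - 1, v.2)).r3 hm'
    have key : ∀ p q r s : ZMod 3, dl (q - p) + dl (s - q) = dl (r - p) + dl (s - r) →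
        dl (p - q) + dl (r - p) = dl (s - q) + dl (r - s) := by
      intro p q r s he
      rw [dl_swap p q, dl_swap r s]
      linarith
    simp only [List.mem_cons, List.not_mem_nil, or_false] at hg
    rcases hg with rfl | rfl
    · have h := h0 Lab.g' (by simp)
      simp only [dl2, sub_add_cancel] at h
      simp only [dl2, mir]
      rw [show -(v.1 + 1) = -v.1 - 1 by ring]
      exact key _ _ _ _ h
    · have h := h0 Lab.g (by simp)
      simp only [dl2, sub_add_cancel] at h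
      simp only [dl2, mir]
      rw [show -(v.1 + 1) = -v.1 - 1 by ring]
      exact key _ _ _ _ h
  r4 u hu hio := by
    simp only [List.mem_cons, List.not_mem_nil, or_false] at hu
    rcases hu with rfl | rfl
    · have h := (hF (-v.1 - 1, v.2)).r4 (-v.1, v.2) (by simp) (fun hc => hio (by
        rw [mir_io]
        dsimp only
        rw [show -(v.1 + 1) = -v.1 - 1 by ring]
        rcases hc with hc | hc
        · exact Or.inr ⟨hc.2, hc.1⟩
        · exact Or.inl ⟨hc.2, hc.1⟩))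
      show (F (-v.1, v.2)).b ≠ (F (-(v.1 + 1), v.2)).b
      rw [show -(v.1 + 1) = -v.1 - 1 by ring]
      exact h.symm
    · exact (hF (-v.1, v.2)).r4 (-v.1, v.2 + 1) (by simp) hio
  r5 hm p q hp hq h1 h2 := by
    have h := (hF (-v.1 - 1, v.2)).r5 (mir_mixed.1 hm) _ _ (mir_inB.1 hp) (mir_inB.1 hq) h1 h2
    exact ⟨h.2, h.1⟩
  r6 := by
    rintro ⟨r, hr, hr2⟩ hm p q hp hq h1 h2
    exact (hF (-v.1 - 1, v.2)).r6' ⟨_, mir_inB.1 hr, mir_rw.1 hr2⟩ (mir_mixed.1 hm) _ _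
      (mir_inB.1 hp) (mir_inB.1 hq) h1 h2
  r6' := by
    rintro ⟨r, hr, hr2⟩ hm p q hp hq h1 h2
    exact (hF (-v.1 - 1, v.2)).r6 ⟨_, mir_inB.1 hr, mir_lw.1 hr2⟩ (mir_mixed.1 hm) _ _
      (mir_inB.1 hp) (mir_inB.1 hq) h1 h2
  r7 hw := by
    obtain ⟨h1, h2, h3⟩ := (hF (-v.1, v.2)).r7' (mir_lw.1 hw)
    dsimp only at h1 h2 h3
    refine ⟨fun hw' => h1 (mir_lw.1 hw'), fun hw' => ?_, fun hw' => ?_⟩
    · have hw2 := mir_lw.1 hw'
      have e : -(v.1 + 1) = -v.1 - 1 := by ring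
      dsimp only at hw2
      rw [e] at hw2
      have h := h2 hw2
      rw [mir_tick]
      simp only [dl2, mir] at h ⊢
      rw [e]
      exact h
    · have hw2 := mir_lw.1 hw'
      have e : -(v.1 - 1) = -v.1 + 1 := by ring
      dsimp only at hw2
      rw [e] at hw2
      have h := h3 hw2
      rw [mir_tick]
      simp only [dl2, mir] at h ⊢
      rw [e]
      exact h
  r7' hw := by
    obtain ⟨h1, h2, h3⟩ := (hF (-v.1, v.2)).r7 (mir_rw.1 hw)
    dsimp only at h1 h2 h3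
    refine ⟨fun hw' => h1 (mir_rw.1 hw'), fun hw' => ?_, fun hw' => ?_⟩
    · have hw2 := mir_rw.1 hw'
      have e : -(v.1 - 1) = -v.1 + 1 := by ring
      dsimp only at hw2
      rw [e] at hw2
      have h := h2 hw2
      rw [mir_tick]
      simp only [dl2, mir] at h ⊢
      rw [e]
      exact h
    · have hw2 := mir_rw.1 hw'
      have e : -(v.1 + 1) = -v.1 - 1 := by ring
      dsimp only at hw2
      rw [e] at hw2
      have h := h3 hw2
      rw [mir_tick]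
      simp only [dl2, mir] at h ⊢
      rw [e]
      exact h

end SF
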