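import Pool.Agent.Helper20.SF.Row5
import Pool.Agent.Helper20.SF.RowM

/-!
# SF, rows: the statements for the measure side
-/

set_option autoImplicit false

namespace SF

variable {F : ℤ × ℤ → Lab}

/-- the lower neighbour is unique -/
theorem dn_fun (hF : ∀ v, Rule F v) {u v v' : ℤ × ℤ} (h : Dn F u v) (h' : Dn F u v') : v = v' :=
  dn_fun0 hF h h'

/-- the upper neighbour is unique -/
theorem dn_inj (hF : ∀ v, Rule F v) {u u' v : ℤ × ℤ} (h : Dn F u v) (h' : Dn F u' v) : u = u' :=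
  dn_inj0 hF h h'

/-- the length of a run is unique -/
theorem fr_fun {v : ℤ × ℤ} {l l' : ℕ} (h : FR F v l) (h' : FR F v l') : l = l' :=
  fr_fun0 h h'

theorem ic_fun {v : ℤ × ℤ} {l l' : ℕ} (h : IC F v l) (h' : IC F v l') : l = l' :=
  ic_fun0 h h'

/-- finite runs, downwards -/
theorem fr_dn (hF : ∀ v, Rule F v) {u v : ℤ × ℤ} (h : Dn F u v) {l : ℕ} (hl : FR F u l) :
    ∃ l', FR F v l' ∧ DD F v l' = DD F u l - inc (F v) := by
  obtain ⟨l', h1, -, -, h2⟩ := fr_dn0 hF h hl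
  exact ⟨l', h1, h2⟩

/-- finite runs, upwards -/
theorem fr_up (hF : ∀ v, Rule F v) {u v : ℤ × ℤ} (h : Dn F u v) {l' : ℕ} (hl : FR F v l') :
    ∃ l, FR F u l ∧ DD F v l' = DD F u l - inc (F v) := by
  obtain ⟨l, h1, -, -, h2⟩ := fr_up0 hF h hl
  exact ⟨l, h1, h2⟩

/-- infinite runs, downwards -/
theorem ic_dn (hF : ∀ v, Rule F v) {u : ℤ × ℤ} {l : ℕ} (hl : IC F u l) :
    ∃ v l', Dn F u v ∧ IC F v l' ∧ DD F v l' = DD F u l - inc (F v) :=
  ic_dn0 hF hl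

/-- infinite runs, upwards -/
theorem ic_up (hF : ∀ v, Rule F v) {v : ℤ × ℤ} {l' : ℕ} (hl : IC F v l') :
    ∃ u l, Dn F u v ∧ IC F u l ∧ DD F v l' = DD F u l - inc (F v) :=
  ic_up0 hF hl

/-- clock and phase -/
theorem dn_tick (hF : ∀ v, Rule F v) {u v : ℤ × ℤ} (h : Dn F u v) : Tick F u v :=
  dn_tick0 hF h

/-- an infinite run with a cell of an infinite run of smaller level -/
theorem ic_of (hF : ∀ v, Rule F v) {v : ℤ × ℤ} (h : IR F v) {j : ℕ} (hj : 0 < j)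
    (h' : IR F (v.1 + j, v.2)) : ∃ l, IC F v l :=
  ic_of0 hF h hj h'

/-- The row inequality. -/
theorem row_ineq (hF : ∀ v, Rule F v) {v : ℤ × ℤ} {l : ℕ} (h : FR F v l) (h1 : Fin1 F v) :
    l + 1 ≤ 260 * own F v l :=
  row_ineq0 hF h h1

/-- the parity on both sides of a closed run -/
theorem parity (hF : ∀ v, Rule F v) {v : ℤ × ℤ} {l : ℕ} (h : FR F v l) (h1 : Fin1 F v) :
    qq F (v.1 - 1, v.2) = qq F (v.1 + l + 1, v.2) :=
  parity0 hF h h1

/-- the parity of two neighbours with the same height -/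
theorem parity_adj (hF : ∀ v, Rule F v) {v : ℤ × ℤ} (h : io (F v) (F (v.1 + 1, v.2)) = 0) :
    qq F v = qq F (v.1 + 1, v.2) :=
  qq_step hF (by simp) h

theorem mir_rule (hF : ∀ v, Rule F v) (v : ℤ × ℤ) : Rule (mir F) v :=
  mir_rule0 hF v

end SF
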