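import Pool.Agent.Helper20.SF.Push

/-!
# SF geometry 2: the wall, all levels
-/

set_option autoImplicit false

namespace SFg

theorem walls {J : Type} (lv : J → ℕ) (X Y : J → ℤ) (C E ε : ℕ → ℝ) (hC : ∀ m, 0 < C m)
    (hε : ∀ m, 0 < ε m) (hE : ∀ m, ε m * E m = 2 * C m)
    (hsep : ∀ i j, lv i = lv j → i ≠ j → E (lv i) + 2 * C (lv i) ≤ |(X i : ℝ) - X j| ∨
      E (lv i) + 2 * C (lv i) ≤ |(Y i : ℝ) - Y j|) (n : ℕ) :
    ∀ (s : ℤ → ℝ) (σ : ℝ), 0 ≤ σ → Lz σ s → σ + ∑ m ∈ Finset.range n, ε m ≤ 1 →
      ∃ s' : ℤ → ℝ, Lz (σ + ∑ m ∈ Finset.range n, ε m) s' ∧ (∀ y, s' y ≤ s y) ∧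
        (∀ y, s y - ∑ m ∈ Finset.range n, 2 * C m ≤ s' y) ∧
        (∀ j, lv j < n → C (lv j) - ∑ m ∈ Finset.range (lv j), 2 * C m ≤
          |(X j : ℝ) - s' (Y j)|) ∧
        ∀ (y : ℤ) (k : ℕ), k ≤ n → (∀ j, k ≤ lv j → lv j < n → E (lv j) ≤ |(y : ℝ) - Y j| ∨
          C (lv j) + E (lv j) ≤ |(X j : ℝ) - s y|) →
            s y - ∑ m ∈ Finset.range k, 2 * C m ≤ s' y := by
  induction n with
  | zero =>
    intro s σ _ hs _
    refine ⟨s, ?_, fun y => le_rfl, fun y => ?_, fun j hj => absurd hj (Nat.not_lt_zero _),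
      fun y k hk _ => ?_⟩
    · simpa using hs
    · simp
    · obtain rfl : k = 0 := by omega
      simp
  | succ n ih =>
    intro s σ h0 hs h1
    rw [Finset.sum_range_succ] at h1
    have hsum : 0 ≤ ∑ m ∈ Finset.range n, ε m := Finset.sum_nonneg fun m _ => (hε m).le
    have hsumC : 0 ≤ ∑ m ∈ Finset.range n, 2 * C m := Finset.sum_nonneg fun m _ => by
      have := hC m
      linarith
    have hεn := hε n
    have hlt : σ < σ + ε n := by linarith
    have hE' : (σ + ε n - σ) * E n = 2 * C n := by
      rw [add_sub_cancel_left]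
      exact hE n
    have p1 := push_lip (lv := lv) (X := X) (Y := Y) (m := n) (hC n).le hs hlt.le (by linarith)
    obtain ⟨s', q1, q2, q3, q4, q5⟩ := ih (push lv X Y n (C n) (σ + ε n) s) (σ + ε n) (by linarith)
      p1 (by linarith)
    have ple := push_le (lv := lv) (X := X) (Y := Y) (m := n) (hC n).le hs hlt.le
    have pge := push_ge (lv := lv) (X := X) (Y := Y) (m := n) (hC n).le hs hlt.le
    refine ⟨s', ?_, fun y => (q2 y).trans (ple y), fun y => ?_, fun j hj => ?_, fun y k hk h => ?_⟩
    · rw [Finset.sum_range_succ, add_comm (∑ m ∈ Finset.range n, ε m), ← add_assoc]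
      exact q1
    · rw [Finset.sum_range_succ]
      have a1 := q3 y
      have a2 := pge y
      linarith
    · rcases Nat.lt_succ_iff_lt_or_eq.1 hj with hj' | hj'
      · exact q4 j hj'
      · have a1 := push_far (lv := lv) (X := X) (Y := Y) (m := n) (hC n) hs hlt hE' h0
          (by linarith) (fun i j hi hj hij => by
            have := hsep i j (by rw [hi, hj]) hij
            rwa [hi] at this) hj'
        have a2 := q2 (Y j)
        have a3 := q3 (Y j)
        rw [hj']
        have a4 : |(X j : ℝ) - push lv X Y n (C n) (σ + ε n) s (Y j)| ≤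
            |(X j : ℝ) - s' (Y j)| + ∑ m ∈ Finset.range n, 2 * C m := by
          have a5 := abs_sub_le (X j : ℝ) (s' (Y j)) (push lv X Y n (C n) (σ + ε n) s (Y j))
          have a6 : |s' (Y j) - push lv X Y n (C n) (σ + ε n) s (Y j)| ≤
              ∑ m ∈ Finset.range n, 2 * C m := by
            rw [abs_le]
            constructor <;> linarith
          linarith
        linarith
    · by_cases hkn : k = n + 1
      · subst hkn
        rw [Finset.sum_range_succ]
        have a1 := q3 y
        have a2 := pge y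
        linarith
      · have hk' : k ≤ n := by omega
        have a1 : push lv X Y n (C n) (σ + ε n) s y = s y := by
          refine push_loc (hC n).le hs hlt.le hE'.ge (by linarith) fun j hj => ?_
          have := h j (by omega) (by omega)
          rwa [hj] at this
        have a2 := q5 y k hk' fun j b1 b2 => by
          rw [a1]
          exact h j b1 (by omega)
        rwa [a1] at a2

end SFg
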